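import Pool.Agent.Novik.Defs

/-!
# Dimension of the level sets from the number of dirty squares
-/

namespace Pool.Agent.Novik

open MeasureTheory Filter Set
open scoped ENNReal NNReal Topology

/-- the closed grid square `8⁻ˡ (q + [0, 1]²)` -/
def gsq (l : ℕ) (q : ℤ × ℤ) : Set (ℝ × ℝ) :=
  {p | (q.1 : ℝ) ≤ 8 ^ l * p.1 ∧ 8 ^ l * p.1 ≤ q.1 + 1 ∧ (q.2 : ℝ) ≤ 8 ^ l * p.2 ∧
    8 ^ l * p.2 ≤ q.2 + 1}

theorem ediam_gsq (l : ℕ) (q : ℤ × ℤ) :
    Metric.ediam (gsq l q) ≤ ENNReal.ofReal ((8 : ℝ)⁻¹ ^ l) := by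
  apply Metric.ediam_le
  intro p hp p' hp'
  rw [edist_dist]
  apply ENNReal.ofReal_le_ofReal
  rw [Prod.dist_eq, Real.dist_eq, Real.dist_eq]
  obtain ⟨h1, h2, h3, h4⟩ := hp
  obtain ⟨h5, h6, h7, h8⟩ := hp'
  have h0 : (0 : ℝ) < 8 ^ l := by positivity
  have key : ∀ x y : ℝ, 8 ^ l * x - 8 ^ l * y ≤ 1 → 8 ^ l * y - 8 ^ l * x ≤ 1 →
      |x - y| ≤ (8 : ℝ)⁻¹ ^ l := by
    intro x y h h'
    have e : (8 : ℝ) ^ l * (8 : ℝ)⁻¹ ^ l = 1 := by
      rw [← mul_pow]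
      norm_num
    rw [abs_le]
    constructor
    · by_contra hcon
      push Not at hcon
      have := mul_lt_mul_of_pos_left hcon h0
      nlinarith
    · by_contra hcon
      push Not at hcon
      have := mul_lt_mul_of_pos_left hcon h0
      nlinarith
  exact max_le (key _ _ (by linarith) (by linarith)) (key _ _ (by linarith) (by linarith))

/-- the level set is covered by the dirty squares -/
theorem cover_dirty (e : ℝ × ℝ → ℝ) (c : ℝ) (l : ℕ) :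
    {p : ℝ × ℝ | |p.1| ≤ 1 ∧ |p.2| ≤ 1 ∧ e p = c} ⊆
      ⋃ q : {q // q ∈ dirty e c l}, gsq l q.1 := by
  classical
  rintro p ⟨h1, h2, h3⟩
  rw [mem_iUnion]
  have h0 : (0 : ℝ) < 8 ^ l := by positivity
  have f1 := Int.floor_le ((8 : ℝ) ^ l * p.1)
  have f2 := (Int.lt_floor_add_one ((8 : ℝ) ^ l * p.1)).le
  have f3 := Int.floor_le ((8 : ℝ) ^ l * p.2)
  have f4 := (Int.lt_floor_add_one ((8 : ℝ) ^ l * p.2)).le
  have rng : ∀ x : ℝ, |x| ≤ 1 → -(8 : ℤ) ^ l ≤ ⌊(8 : ℝ) ^ l * x⌋ ∧ ⌊(8 : ℝ) ^ l * x⌋ ≤ 8 ^ l := by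
    intro x hx
    rw [abs_le] at hx
    constructor
    · rw [Int.le_floor]
      push_cast
      nlinarith
    · have : (⌊(8 : ℝ) ^ l * x⌋ : ℝ) ≤ ((8 ^ l : ℤ) : ℝ) := by
        refine (Int.floor_le _).trans ?_
        push_cast
        nlinarith
      exact_mod_cast this
  refine ⟨⟨(⌊(8 : ℝ) ^ l * p.1⌋, ⌊(8 : ℝ) ^ l * p.2⌋), ?_⟩, ⟨f1, f2, f3, f4⟩⟩
  unfold dirty
  rw [Finset.mem_filter]
  constructor
  · unfold Sq
    rw [Finset.mem_product, Finset.mem_Icc, Finset.mem_Icc]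
    exact ⟨rng p.1 h1, rng p.2 h2⟩
  · rintro ⟨η, hη, H⟩
    have := H p (by linarith) (by linarith) (by linarith) (by linarith)
    rw [h3, sub_self, abs_zero] at this
    linarith

theorem dimH_level (e : ℝ × ℝ → ℝ) (c : ℝ)
    (h : ∀ τ : ℝ, 0 < τ →
      ∃ᶠ l in atTop, ((dirty e c l).card : ℝ) ≤ 32 ^ l * (2 : ℝ) ^ (τ * l)) :
    dimH {p : ℝ × ℝ | |p.1| ≤ 1 ∧ |p.2| ≤ 1 ∧ e p = c} ≤ 5 / 3 := by
  classical
  apply dimH_le
  intro d hd
  by_contra hcon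
  push Not at hcon
  have hd53 : (5 / 3 : ℝ) < d := by
    have h1 : ((5 / 3 : ℝ≥0) : ℝ≥0∞) < (d : ℝ≥0∞) := by
      refine lt_of_le_of_lt (le_of_eq ?_) hcon
      rw [ENNReal.coe_div (by norm_num)]
      norm_num
    have h2 : (5 / 3 : ℝ≥0) < d := ENNReal.coe_lt_coe.1 h1
    have h3 : ((5 / 3 : ℝ≥0) : ℝ) < (d : ℝ) := NNReal.coe_lt_coe.2 h2
    push_cast at h3
    exact h3
  have hbound := Measure.hausdorffMeasure_le_liminf_sum (X := ℝ × ℝ) (d : ℝ)
    {p : ℝ × ℝ | |p.1| ≤ 1 ∧ |p.2| ≤ 1 ∧ e p = c} (l := atTop)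
    (ι := fun l : ℕ => {q // q ∈ dirty e c l})
    (fun l : ℕ => ENNReal.ofReal ((8 : ℝ)⁻¹ ^ l))
    (by
      rw [← ENNReal.ofReal_zero]
      apply (ENNReal.continuous_ofReal.tendsto 0).comp
      exact tendsto_pow_atTop_nhds_zero_of_lt_one (by norm_num) (by norm_num))
    (fun l q => gsq l q.1)
    (Eventually.of_forall fun l q => ediam_gsq l q.1)
    (Eventually.of_forall fun l => cover_dirty e c l)
  have hle : liminf (fun l : ℕ => ∑ q : {q // q ∈ dirty e c l},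
      Metric.ediam (gsq l q.1) ^ (d : ℝ)) atTop ≤ 1 := by
    apply liminf_le_of_frequently_le'
    refine (h (3 * d - 5) (by linarith)).mono fun l hl => ?_
    have h1 : ∀ q : {q // q ∈ dirty e c l},
        Metric.ediam (gsq l q.1) ^ (d : ℝ) ≤ ENNReal.ofReal (((8 : ℝ)⁻¹ ^ l) ^ (d : ℝ)) := by
      intro q
      rw [← ENNReal.ofReal_rpow_of_nonneg (by positivity) (by positivity)]
      exact ENNReal.rpow_le_rpow (ediam_gsq l q.1) (by positivity)
    calc ∑ q : {q // q ∈ dirty e c l}, Metric.ediam (gsq l q.1) ^ (d : ℝ)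
        ≤ ∑ _q : {q // q ∈ dirty e c l}, ENNReal.ofReal (((8 : ℝ)⁻¹ ^ l) ^ (d : ℝ)) :=
          Finset.sum_le_sum fun q _ => h1 q
      _ = ENNReal.ofReal ((dirty e c l).card * ((8 : ℝ)⁻¹ ^ l) ^ (d : ℝ)) := by
          rw [Finset.sum_const, Finset.card_univ, Fintype.card_coe, nsmul_eq_mul,
            ENNReal.ofReal_mul (by positivity), ENNReal.ofReal_natCast]
      _ ≤ ENNReal.ofReal 1 := by
          apply ENNReal.ofReal_le_ofReal
          have h2 : (0 : ℝ) ≤ ((8 : ℝ)⁻¹ ^ l) ^ (d : ℝ) := by positivity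
          refine (mul_le_mul_of_nonneg_right hl h2).trans (le_of_eq ?_)
          have e1 : (32 : ℝ) ^ l = (2 : ℝ) ^ (5 * (l : ℝ)) := by
            rw [Real.rpow_mul (by norm_num), Real.rpow_natCast]
            norm_num
          have e2 : ((8 : ℝ)⁻¹ ^ l) ^ (d : ℝ) = (2 : ℝ) ^ (-(3 * d) * (l : ℝ)) := by
            have : (8 : ℝ)⁻¹ ^ l = (2 : ℝ) ^ (-3 * (l : ℝ)) := by
              rw [Real.rpow_mul (by norm_num), Real.rpow_natCast]
              norm_num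
            rw [this, ← Real.rpow_mul (by norm_num)]
            congr 1
            ring
          rw [e1, e2, ← Real.rpow_add (by norm_num), ← Real.rpow_add (by norm_num)]
          rw [show 5 * (l : ℝ) + (3 * (d : ℝ) - 5) * l + -(3 * d) * l = 0 by ring,
            Real.rpow_zero]
      _ = 1 := ENNReal.ofReal_one
  have := hbound.trans hle
  rw [hd] at this
  exact absurd this (by simp)

end Pool.Agent.Novik
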