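import Pool.Agent.Novik.Defs

/-!
# The objects of the theorem in Euclidean space
-/

namespace Pool.Agent.Novik

/-- Euclidean three-space -/
abbrev E3 := EuclideanSpace ℝ (Fin 3)

/-- `ε` is `ℤ³`-periodic. -/
def IsPeriodic (ε : E3 → ℝ) : Prop :=
  ∀ (X : E3) (i : Fin 3), ε (X + EuclideanSpace.single i 1) = ε X

/-- Some plane orthogonal to `B` contains an unbounded connected set on which `ε ≥ c`. -/
def PercUp (ε : E3 → ℝ) (B : E3) (c : ℝ) : Prop :=
  ∃ (a : ℝ) (U : Set E3), IsConnected U ∧ ¬ Bornology.IsBounded U ∧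
    ∀ X ∈ U, inner ℝ B X = a ∧ c ≤ ε X

/-- Some plane orthogonal to `B` contains an unbounded connected set on which `ε ≤ c`. -/
def PercDown (ε : E3 → ℝ) (B : E3) (c : ℝ) : Prop :=
  ∃ (a : ℝ) (U : Set E3), IsConnected U ∧ ¬ Bornology.IsBounded U ∧
    ∀ X ∈ U, inner ℝ B X = a ∧ ε X ≤ c

/-- the upper threshold of the direction `B` -/
noncomputable def eUp (ε : E3 → ℝ) (B : E3) : ℝ := sSup {c | PercUp ε B c}

/-- the lower threshold of the direction `B` -/
noncomputable def eDown (ε : E3 → ℝ) (B : E3) : ℝ := sInf {c | PercDown ε B c}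

/-- the directions for which `c` is a threshold -/
def Crit (ε : E3 → ℝ) (c : ℝ) : Set E3 := {B | ‖B‖ = 1 ∧ (eUp ε B = c ∨ eDown ε B = c)}

/-- `B` is a regular direction for the level `c`: there are an integer vector `m`, not parallel
to `B`, and a bound `R` such that every connected subset `U` of the level surface `ε = c` in
every plane orthogonal to `B` satisfies `|⟨m, X - Y⟩| ≤ R` for all `X, Y ∈ U`: all trajectories
lie in strips of bounded width parallel to the line of intersection of the plane with the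
integral plane orthogonal to `m`. -/
def Regular (ε : E3 → ℝ) (c : ℝ) (B : E3) : Prop :=
  ∃ (m : Fin 3 → ℤ) (R : ℝ), (∃ i j, (m i : ℝ) * B j ≠ m j * B i) ∧
    ∀ (a : ℝ) (U : Set E3), IsConnected U → (∀ X ∈ U, inner ℝ B X = a ∧ ε X = c) →
      ∀ X ∈ U, ∀ Y ∈ U, |∑ i, (m i : ℝ) * (X i - Y i)| ≤ R

/-- the directions which are not regular for the level `c` -/
def Exc (ε : E3 → ℝ) (c : ℝ) : Set E3 := {B | ‖B‖ = 1 ∧ ¬ Regular ε c B}

/-- the function in the three charts: the last argument is the coordinate number `i` -/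
noncomputable def ch (ε : E3 → ℝ) (i : Fin 3) (u v t : ℝ) : ℝ :=
  if i = 0 then ε !₂[t, u, v] else if i = 1 then ε !₂[v, t, u] else ε !₂[u, v, t]

end Pool.Agent.Novik
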