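import Pool.Agent.Novik.Main
import Pool.Agent.Novik.FDefs

/-!
# The charts of a Lipschitz periodic function are nice
-/

namespace Pool.Agent.Novik

theorem norm_e3_le (a b c : ℝ) : ‖(!₂[a, b, c] : E3)‖ ≤ 2 * max (max |a| |b|) |c| := by
  set m := max (max |a| |b|) |c| with hm
  have ha : |a| ≤ m := (le_max_left _ _).trans (le_max_left _ _)
  have hb : |b| ≤ m := (le_max_right _ _).trans (le_max_left _ _)
  have hc : |c| ≤ m := le_max_right _ _
  have hm0 : 0 ≤ m := (abs_nonneg a).trans ha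
  rw [EuclideanSpace.norm_eq, Fin.sum_univ_three]
  apply Real.sqrt_le_iff.2
  refine ⟨by positivity, ?_⟩
  have h1 : |a| ^ 2 ≤ m ^ 2 := pow_le_pow_left₀ (abs_nonneg _) ha 2
  have h2 : |b| ^ 2 ≤ m ^ 2 := pow_le_pow_left₀ (abs_nonneg _) hb 2
  have h3 : |c| ^ 2 ≤ m ^ 2 := pow_le_pow_left₀ (abs_nonneg _) hc 2
  have e1 : ‖(!₂[a, b, c] : E3) 0‖ = |a| := by simp
  have e2 : ‖(!₂[a, b, c] : E3) 1‖ = |b| := by simp
  have e3 : ‖(!₂[a, b, c] : E3) 2‖ = |c| := by simp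
  rw [e1, e2, e3]
  nlinarith

theorem lip_e3 {ε : E3 → ℝ} {K : NNReal} (hlip : LipschitzWith K ε) (a b c a' b' c' : ℝ) :
    |ε !₂[a, b, c] - ε !₂[a', b', c']| ≤
      ((2 * ⌈(K : ℝ)⌉₊ + 1 : ℕ) : ℝ) * max (max |a - a'| |b - b'|) |c - c'| := by
  have h1 := hlip.dist_le_mul !₂[a, b, c] !₂[a', b', c']
  rw [Real.dist_eq, dist_eq_norm] at h1
  have h2 : (!₂[a, b, c] : E3) - !₂[a', b', c'] = !₂[a - a', b - b', c - c'] := by
    ext i
    fin_cases i <;> simp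
  rw [h2] at h1
  have h3 := norm_e3_le (a - a') (b - b') (c - c')
  set m := max (max |a - a'| |b - b'|) |c - c'| with hm
  have hm0 : 0 ≤ m := (abs_nonneg _).trans (le_max_right _ _)
  have h4 : (K : ℝ) ≤ ⌈(K : ℝ)⌉₊ := Nat.le_ceil _
  have h5 : (0 : ℝ) ≤ K := K.2
  calc |ε !₂[a, b, c] - ε !₂[a', b', c']| ≤ K * ‖(!₂[a - a', b - b', c - c'] : E3)‖ := h1
    _ ≤ K * (2 * m) := mul_le_mul_of_nonneg_left h3 h5
    _ ≤ (⌈(K : ℝ)⌉₊ : ℝ) * (2 * m) := mul_le_mul_of_nonneg_right h4 (by positivity)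
    _ ≤ ((2 * ⌈(K : ℝ)⌉₊ + 1 : ℕ) : ℝ) * m := by
        push_cast
        nlinarith

theorem per_e3 {ε : E3 → ℝ} (hper : IsPeriodic ε) (a b c : ℝ) :
    ε !₂[a + 1, b, c] = ε !₂[a, b, c] ∧ ε !₂[a, b + 1, c] = ε !₂[a, b, c] ∧
      ε !₂[a, b, c + 1] = ε !₂[a, b, c] := by
  refine ⟨?_, ?_, ?_⟩
  · rw [← hper !₂[a, b, c] 0]
    congr 1
    ext i
    fin_cases i <;> simp
  · rw [← hper !₂[a, b, c] 1]
    congr 1
    ext i
    fin_cases i <;> simp
  · rw [← hper !₂[a, b, c] 2]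
    congr 1
    ext i
    fin_cases i <;> simp

theorem Nice.neg {G : ℝ → ℝ → ℝ → ℝ} {L : ℕ} (h : Nice G L) :
    Nice (fun u v t => - G u v t) L := by
  refine ⟨fun u v t => ?_, fun u v t => ?_, fun u v t => ?_, fun u v t u' v' t' => ?_⟩
  · rw [h.per1]
  · rw [h.per2]
  · rw [h.per3]
  · have := h.lip u v t u' v' t'
    rw [← abs_neg] at this
    rwa [show -G u v t - -G u' v' t' = -(G u v t - G u' v' t') by ring]

theorem nice_ch {ε : E3 → ℝ} (hper : IsPeriodic ε) {K : NNReal} (hlip : LipschitzWith K ε) :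
    ∃ L : ℕ, 1 ≤ L ∧ ∀ i, Nice (ch ε i) L ∧ Nice (fun u v t => - ch ε i u v t) L := by
  refine ⟨2 * ⌈(K : ℝ)⌉₊ + 1, by omega, fun i => ?_⟩
  have h : Nice (ch ε i) (2 * ⌈(K : ℝ)⌉₊ + 1) := by
    fin_cases i
    · refine ⟨fun u v t => ?_, fun u v t => ?_, fun u v t => ?_, fun u v t u' v' t' => ?_⟩
      · exact (per_e3 hper t u v).2.1
      · exact (per_e3 hper t u v).2.2
      · exact (per_e3 hper t u v).1
      · refine (lip_e3 hlip t u v t' u' v').trans (le_of_eq ?_)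
        congr 1
        rw [max_comm |t - t'|, max_assoc, max_comm |t - t'|, ← max_assoc]
    · refine ⟨fun u v t => ?_, fun u v t => ?_, fun u v t => ?_, fun u v t u' v' t' => ?_⟩
      · exact (per_e3 hper v t u).2.2
      · exact (per_e3 hper v t u).1
      · exact (per_e3 hper v t u).2.1
      · refine (lip_e3 hlip v t u v' t' u').trans (le_of_eq ?_)
        congr 1
        rw [max_comm, ← max_assoc]
    · refine ⟨fun u v t => ?_, fun u v t => ?_, fun u v t => ?_, fun u v t u' v' t' => ?_⟩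
      · exact (per_e3 hper u v t).1
      · exact (per_e3 hper u v t).2.1
      · exact (per_e3 hper u v t).2.2
      · exact lip_e3 hlip u v t u' v' t'
  exact ⟨h, h.neg⟩

end Pool.Agent.Novik
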