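import Pool.Agent.Novik.Defs

/-!
# NOV-D: few dirty squares for infinitely many scales, at the generic function and level
-/

namespace Pool.Agent.Novik

open MeasureTheory Filter Set

/-- a clear square stays clear under small changes of the function and of the level -/
lemma clear_stable {X : Type*} [TopologicalSpace X] (e : X → ℝ × ℝ → ℝ)
    (hc : ∀ s : X, ∀ η > 0, ∀ᶠ s' in nhds s, ∀ p, |e s' p - e s p| ≤ η)
    (z : X × ℝ) (l : ℕ) (q : ℤ × ℤ) (h : Clear (e z.1) z.2 l q) :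
    ∀ᶠ z' in nhds z, Clear (e z'.1) z'.2 l q := by
  obtain ⟨η, hη, H⟩ := h
  have h1 : ∀ᶠ z' in nhds z, ∀ p, |e z'.1 p - e z.1 p| ≤ η / 4 :=
    (continuous_fst.tendsto z).eventually (hc z.1 (η / 4) (by positivity))
  have h2 : ∀ᶠ z' in nhds z, |z'.2 - z.2| < η / 4 := by
    have : ∀ᶠ c in nhds z.2, |c - z.2| < η / 4 := by
      have := Metric.ball_mem_nhds z.2 (show (0 : ℝ) < η / 4 by positivity)
      filter_upwards [this] with c hc'
      simpa [Real.dist_eq] using hc'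
    exact (continuous_snd.tendsto z).eventually this
  filter_upwards [h1, h2] with z' h3 h4
  refine ⟨η / 2, by positivity, fun p hp1 hp2 hp3 hp4 => ?_⟩
  have h5 := H p (by linarith) (by linarith) (by linarith) (by linarith)
  have h6 := h3 p
  have h7 : |e z.1 p - z.2| ≤ |e z.1 p - e z'.1 p| + |e z'.1 p - z'.2| + |z'.2 - z.2| := by
    have : e z.1 p - z.2 = (e z.1 p - e z'.1 p) + (e z'.1 p - z'.2) + (z'.2 - z.2) := by ring
    rw [this]
    exact (abs_add_le _ _).trans (add_le_add_left (abs_add_le _ _) _)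
  rw [abs_sub_comm (e z.1 p) (e z'.1 p)] at h7
  linarith

lemma dirty_stable {X : Type*} [TopologicalSpace X] (e : X → ℝ × ℝ → ℝ)
    (hc : ∀ s : X, ∀ η > 0, ∀ᶠ s' in nhds s, ∀ p, |e s' p - e s p| ≤ η)
    (z : X × ℝ) (l : ℕ) :
    ∀ᶠ z' in nhds z, dirty (e z'.1) z'.2 l ⊆ dirty (e z.1) z.2 l := by
  have h : ∀ᶠ z' in nhds z, ∀ q ∈ Sq l, Clear (e z.1) z.2 l q → Clear (e z'.1) z'.2 l q := by
    rw [Filter.eventually_all_finset]
    intro q _
    by_cases hq : Clear (e z.1) z.2 l q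
    · filter_upwards [clear_stable e hc z l q hq] with z' h' _
      exact h'
    · exact Eventually.of_forall fun z' h' => absurd h' hq
  filter_upwards [h] with z' h' q hq
  classical
  unfold dirty at hq ⊢
  rw [Finset.mem_filter] at hq ⊢
  exact ⟨hq.1, fun hcl => hq.2 (h' q hq.1 hcl)⟩

theorem residual_dirty {X : Type*} [TopologicalSpace X] (e : X → ℝ × ℝ → ℝ)
    (hc : ∀ s : X, ∀ η > 0, ∀ᶠ s' in nhds s, ∀ p, |e s' p - e s p| ≤ η)
    (h : ∀ s : X, ∀ᵐ c : ℝ, ∀ τ : ℝ, 0 < τ → ∀ᶠ l in atTop,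
      ((dirty (e s) c l).card : ℝ) ≤ 32 ^ l * (2 : ℝ) ^ (τ * l)) :
    ∀ᶠ z in residual (X × ℝ), ∀ τ : ℝ, 0 < τ → ∃ᶠ l in atTop,
      ((dirty (e z.1) z.2 l).card : ℝ) ≤ 32 ^ l * (2 : ℝ) ^ (τ * l) := by
  have main : ∀ k m : ℕ, ∀ᶠ z in residual (X × ℝ), ∃ l, m ≤ l ∧
      ((dirty (e z.1) z.2 l).card : ℝ) ≤ 32 ^ l * (2 : ℝ) ^ ((1 : ℝ) / (k + 1) * l) := by
    intro k m
    apply residual_of_dense_open
    · have : {z : X × ℝ | ∃ l, m ≤ l ∧
          ((dirty (e z.1) z.2 l).card : ℝ) ≤ 32 ^ l * (2 : ℝ) ^ ((1 : ℝ) / (k + 1) * l)} =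
          ⋃ l : ℕ, {z : X × ℝ | m ≤ l ∧
          ((dirty (e z.1) z.2 l).card : ℝ) ≤ 32 ^ l * (2 : ℝ) ^ ((1 : ℝ) / (k + 1) * l)} := by
        ext z
        simp
      rw [this]
      refine isOpen_iUnion fun l => isOpen_iff_mem_nhds.2 fun z hz => ?_
      filter_upwards [dirty_stable e hc z l] with z' hz'
      refine ⟨hz.1, le_trans ?_ hz.2⟩
      exact_mod_cast Finset.card_le_card hz'
    · intro z
      rw [mem_closure_iff_nhds]
      intro U hU
      have h1 : ∀ᶠ c in nhds z.2, (z.1, c) ∈ U := by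
        have : Tendsto (fun c : ℝ => (z.1, c)) (nhds z.2) (nhds z) := by
          have := (Continuous.prodMk_right (Y := ℝ) z.1).tendsto z.2
          simpa using this
        exact this hU
      obtain ⟨ε, hε, hball⟩ := Metric.eventually_nhds_iff_ball.1 h1
      have h2 := h z.1
      have h3 : ∃ c ∈ Metric.ball z.2 ε, ∀ τ : ℝ, 0 < τ → ∀ᶠ l in atTop,
          ((dirty (e z.1) c l).card : ℝ) ≤ 32 ^ l * (2 : ℝ) ^ (τ * l) := by
        by_contra hcon
        push Not at hcon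
        have h4 : Metric.ball z.2 ε ⊆ {c : ℝ | ¬ ∀ τ : ℝ, 0 < τ → ∀ᶠ l in atTop,
            ((dirty (e z.1) c l).card : ℝ) ≤ 32 ^ l * (2 : ℝ) ^ (τ * l)} := by
          intro c hcb hall
          obtain ⟨τ, hτ, hfr⟩ := hcon c hcb
          exact hfr ((hall τ hτ).mono fun l hl => not_lt.2 hl)
        have h5 : volume (Metric.ball z.2 ε) = 0 := measure_mono_null h4 (ae_iff.1 h2)
        exact (Metric.measure_ball_pos volume z.2 hε).ne' h5
      obtain ⟨c, hcb, hall⟩ := h3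
      refine ⟨(z.1, c), hball c hcb, ?_⟩
      obtain ⟨l, hl1, hl2⟩ := ((eventually_ge_atTop m).and
        (hall ((1 : ℝ) / (k + 1)) (by positivity))).exists
      exact ⟨l, hl1, hl2⟩
  have main' : ∀ᶠ z in residual (X × ℝ), ∀ k m : ℕ, ∃ l, m ≤ l ∧
      ((dirty (e z.1) z.2 l).card : ℝ) ≤ 32 ^ l * (2 : ℝ) ^ ((1 : ℝ) / (k + 1) * l) :=
    eventually_countable_forall.2 fun k => eventually_countable_forall.2 fun m => main k m
  filter_upwards [main'] with z hz τ hτ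
  obtain ⟨k, hk⟩ := exists_nat_one_div_lt hτ
  rw [frequently_atTop]
  intro m
  obtain ⟨l, hl1, hl2⟩ := hz k m
  refine ⟨l, hl1, hl2.trans ?_⟩
  have : (2 : ℝ) ^ ((1 : ℝ) / (k + 1) * l) ≤ (2 : ℝ) ^ (τ * l) := by
    apply Real.rpow_le_rpow_of_exponent_le (by norm_num)
    gcongr
  gcongr

end Pool.Agent.Novik
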