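import Pool.Agent.Novik.Main
import Pool.Agent.Novik.FDefs

/-!
# NOV-E2: from the three charts to the sphere of directions
-/

namespace Pool.Agent.Novik

open MeasureTheory Filter Set

/-- the point with the coordinates `u, v, t` in the chart `i` -/
noncomputable def embC (i : Fin 3) (u v t : ℝ) : E3 :=
  if i = 0 then !₂[t, u, v] else if i = 1 then !₂[v, t, u] else !₂[u, v, t]

lemma ch_eq_embC (ε : E3 → ℝ) (i : Fin 3) (u v t : ℝ) : ch ε i u v t = ε (embC i u v t) := by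
  unfold ch embC
  split_ifs <;> rfl

lemma embC_t (i : Fin 3) (u v t : ℝ) : embC i u v t i = t := by
  fin_cases i <;> simp [embC]

lemma embC_u (i : Fin 3) (u v t : ℝ) : embC i u v t (i + 1) = u := by
  fin_cases i <;> simp [embC]

lemma embC_v (i : Fin 3) (u v t : ℝ) : embC i u v t (i + 2) = v := by
  fin_cases i <;> simp [embC]

lemma embC_self (i : Fin 3) (X : E3) : embC i (X (i + 1)) (X (i + 2)) (X i) = X := by
  ext j
  fin_cases i <;> fin_cases j <;> simp [embC]

lemma inner_embC (i : Fin 3) (B : E3) (u v t : ℝ) :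
    inner ℝ B (embC i u v t) = B (i + 1) * u + B (i + 2) * v + B i * t := by
  fin_cases i <;> simp [embC, PiLp.inner_apply, Fin.sum_univ_three] <;> ring

lemma embC_eq (i : Fin 3) (u v t : ℝ) : embC i u v t = u • EuclideanSpace.single (i + 1) 1 +
    v • EuclideanSpace.single (i + 2) 1 + t • EuclideanSpace.single i 1 := by
  ext j
  fin_cases i <;> fin_cases j <;> simp [embC]

/-- the plane `x u + y v + t = a` as a map into the space -/
noncomputable def phiC (i : Fin 3) (x y a : ℝ) (p : ℝ × ℝ) : E3 :=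
  embC i p.1 p.2 (a - x * p.1 - y * p.2)

/-- the two affine coordinates of the chart `i` -/
def piC (i : Fin 3) (X : E3) : ℝ × ℝ := (X (i + 1), X (i + 2))

lemma continuous_phiC (i : Fin 3) (x y a : ℝ) : Continuous (phiC i x y a) := by
  unfold phiC
  simp only [embC_eq]
  fun_prop

lemma continuous_piC (i : Fin 3) : Continuous (piC i) := by
  unfold piC
  fun_prop

lemma piC_phiC (i : Fin 3) (x y a : ℝ) (p : ℝ × ℝ) : piC i (phiC i x y a p) = p := by
  unfold piC phiC
  rw [embC_u, embC_v]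

lemma sec_eq (ε : E3 → ℝ) (i : Fin 3) (x y a : ℝ) (p : ℝ × ℝ) :
    sec (ch ε i) x y a p = ε (phiC i x y a p) := by
  unfold sec phiC
  rw [ch_eq_embC]

lemma inner_coord (i : Fin 3) (B X : E3) :
    inner ℝ B X = B (i + 1) * X (i + 1) + B (i + 2) * X (i + 2) + B i * X i := by
  conv_lhs => rw [← embC_self i X]
  rw [inner_embC]

lemma phiC_piC (i : Fin 3) (B : E3) (hB : B i ≠ 0) (a : ℝ) (X : E3) (hX : inner ℝ B X = a) :
    phiC i (B (i + 1) / B i) (B (i + 2) / B i) (a / B i) (piC i X) = X := by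
  rw [inner_coord i] at hX
  unfold phiC piC
  have h : a / B i - B (i + 1) / B i * X (i + 1) - B (i + 2) / B i * X (i + 2) = X i := by
    rw [← hX]
    field_simp
    ring
  simp only
  rw [h, embC_self]

lemma inner_phiC (i : Fin 3) (B : E3) (hB : B i ≠ 0) (a : ℝ) (p : ℝ × ℝ) :
    inner ℝ B (phiC i (B (i + 1) / B i) (B (i + 2) / B i) a p) = B i * a := by
  unfold phiC
  rw [inner_embC]
  field_simp
  ring

lemma bounded_image {α β : Type*} [PseudoMetricSpace α] [ProperSpace α] [PseudoMetricSpace β]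
    {f : α → β} (hf : Continuous f) {s : Set α} (hs : Bornology.IsBounded s) :
    Bornology.IsBounded (f '' s) :=
  (hs.isCompact_closure.image hf).isBounded.subset (image_mono subset_closure)

/-- in the chart `i` the percolation in the planes orthogonal to `B` -/
theorem percUp_iff (ε : E3 → ℝ) (i : Fin 3) (B : E3) (hB : B i ≠ 0) (c : ℝ) :
    PercUp ε B c ↔ Perc (ch ε i) (B (i + 1) / B i) (B (i + 2) / B i) c := by
  constructor
  · rintro ⟨a, U, hU, hUb, h⟩
    have hinv : ∀ X ∈ U, phiC i (B (i + 1) / B i) (B (i + 2) / B i) (a / B i) (piC i X) = X :=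
      fun X hX => phiC_piC i B hB a X (h X hX).1
    refine ⟨a / B i, piC i '' U, hU.isPreconnected.image _ (continuous_piC i).continuousOn,
      fun hb => hUb ?_, ?_⟩
    · refine (bounded_image (continuous_phiC i (B (i + 1) / B i) (B (i + 2) / B i)
        (a / B i)) hb).subset fun X hX => ?_
      exact ⟨piC i X, ⟨X, hX, rfl⟩, hinv X hX⟩
    · rintro _ ⟨X, hX, rfl⟩
      rw [sec_eq, hinv X hX]
      exact (h X hX).2
  · rintro ⟨a, V, hV, hVb, h⟩
    have hne : V.Nonempty := by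
      rw [nonempty_iff_ne_empty]
      rintro rfl
      exact hVb Bornology.isBounded_empty
    refine ⟨B i * a, phiC i (B (i + 1) / B i) (B (i + 2) / B i) a '' V,
      ⟨hne.image _, hV.image _ (continuous_phiC i _ _ a).continuousOn⟩, fun hb => hVb ?_, ?_⟩
    · refine (bounded_image (continuous_piC i) hb).subset fun p hp => ?_
      exact ⟨_, ⟨p, hp, rfl⟩, piC_phiC i _ _ a p⟩
    · rintro _ ⟨p, hp, rfl⟩
      refine ⟨inner_phiC i B hB a p, ?_⟩
      rw [← sec_eq ε]
      exact h p hp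

theorem percDown_iff (ε : E3 → ℝ) (B : E3) (c : ℝ) :
    PercDown ε B c ↔ PercUp (fun X => - ε X) B (-c) := by
  constructor
  · rintro ⟨a, U, hU, hUb, h⟩
    exact ⟨a, U, hU, hUb, fun X hX => ⟨(h X hX).1, neg_le_neg (h X hX).2⟩⟩
  · rintro ⟨a, U, hU, hUb, h⟩
    exact ⟨a, U, hU, hUb, fun X hX => ⟨(h X hX).1, neg_le_neg_iff.1 (h X hX).2⟩⟩

theorem ch_neg (ε : E3 → ℝ) (i : Fin 3) :
    ch (fun X => - ε X) i = fun u v t => - ch ε i u v t := by
  funext u v t
  rw [ch_eq_embC, ch_eq_embC]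

theorem percDown_iff' (ε : E3 → ℝ) (i : Fin 3) (B : E3) (hB : B i ≠ 0) (c : ℝ) :
    PercDown ε B c ↔
      Perc (fun u v t => - ch ε i u v t) (B (i + 1) / B i) (B (i + 2) / B i) (-c) := by
  rw [percDown_iff, percUp_iff _ i B hB, ch_neg]

theorem eUp_eq_thr (ε : E3 → ℝ) (i : Fin 3) (B : E3) (hB : B i ≠ 0) :
    eUp ε B = thr (ch ε i) (B (i + 1) / B i) (B (i + 2) / B i) := by
  unfold eUp thr
  congr 1
  ext c
  exact percUp_iff ε i B hB c

theorem eDown_eq_thr (ε : E3 → ℝ) (i : Fin 3) (B : E3) (hB : B i ≠ 0) :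
    eDown ε B = - thr (fun u v t => - ch ε i u v t) (B (i + 1) / B i) (B (i + 2) / B i) := by
  unfold eDown thr
  rw [Real.sInf_def]
  congr 2
  ext c
  rw [Set.mem_neg]
  change PercDown ε B (-c) ↔ _
  rw [percDown_iff' ε i B hB, neg_neg]
  rfl

/-- the point of the sphere over the point of the chart -/
noncomputable def psiC (i : Fin 3) (s : ℝ) (p : ℝ × ℝ) : E3 :=
  (s * ‖embC i p.1 p.2 1‖⁻¹) • embC i p.1 p.2 1

lemma contDiff_psiC (i : Fin 3) (s : ℝ) : ContDiff ℝ 1 (psiC i s) := by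
  have h : ContDiff ℝ 1 (fun p : ℝ × ℝ => embC i p.1 p.2 1) := by
    simp only [embC_eq]
    fun_prop
  have hne : ∀ p : ℝ × ℝ, embC i p.1 p.2 1 ≠ 0 := by
    intro p h0
    have h1 := embC_t i p.1 p.2 1
    rw [h0] at h1
    simp at h1
  unfold psiC
  exact (contDiff_const.mul ((h.norm ℝ hne).inv fun p => norm_ne_zero_iff.2 (hne p))).smul h

lemma dimH_psiC (i : Fin 3) (s : ℝ) (S : Set (ℝ × ℝ)) : dimH (psiC i s '' S) ≤ dimH S :=
  (contDiff_psiC i s).contDiffOn.dimH_image_le convex_univ (subset_univ S)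

/-- every unit vector is over a point of the square in some chart -/
lemma exists_chart (B : E3) (hB : ‖B‖ = 1) : ∃ (i : Fin 3) (s : Bool), B i ≠ 0 ∧
    |B (i + 1) / B i| ≤ 1 ∧ |B (i + 2) / B i| ≤ 1 ∧
    psiC i (if s then 1 else -1) (B (i + 1) / B i, B (i + 2) / B i) = B := by
  obtain ⟨i, -, hi⟩ := Finset.exists_max_image (Finset.univ : Finset (Fin 3)) (fun j => |B j|)
    Finset.univ_nonempty
  have hBi : B i ≠ 0 := by
    intro h0
    have h1 : B = 0 := by
      ext j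
      have h2 := hi j (Finset.mem_univ j)
      rw [h0, abs_zero] at h2
      simpa using abs_nonpos_iff.1 h2
    rw [h1, norm_zero] at hB
    exact zero_ne_one hB
  have hpos : 0 < |B i| := abs_pos.2 hBi
  refine ⟨i, decide (0 < B i), hBi, ?_, ?_, ?_⟩
  · rw [abs_div, div_le_one hpos]
    exact hi _ (Finset.mem_univ _)
  · rw [abs_div, div_le_one hpos]
    exact hi _ (Finset.mem_univ _)
  · have h1 : embC i (B (i + 1) / B i) (B (i + 2) / B i) 1 = (B i)⁻¹ • B := by
      calc embC i (B (i + 1) / B i) (B (i + 2) / B i) 1 =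
          embC i ((B i)⁻¹ * B (i + 1)) ((B i)⁻¹ * B (i + 2)) ((B i)⁻¹ * B i) := by
            rw [inv_mul_cancel₀ hBi, div_eq_inv_mul, div_eq_inv_mul]
        _ = (B i)⁻¹ • embC i (B (i + 1)) (B (i + 2)) (B i) := by
            rw [embC_eq, embC_eq, smul_add, smul_add, smul_smul, smul_smul, smul_smul]
        _ = (B i)⁻¹ • B := by rw [embC_self]
    unfold psiC
    simp only
    rw [h1, norm_smul, hB, mul_one, norm_inv, inv_inv, smul_smul, Real.norm_eq_abs]
    have h2 : (if decide (0 < B i) = true then (1 : ℝ) else -1) * |B i| * (B i)⁻¹ = 1 := by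
      rcases lt_or_gt_of_ne hBi with h | h
      · rw [if_neg (by simpa using h.le), abs_of_neg h]
        field_simp
      · rw [if_pos (by simpa using h), abs_of_pos h]
        field_simp
    rw [h2, one_smul]

set_option linter.unusedVariables false in
theorem crit_dim {ε : E3 → ℝ} (hper : IsPeriodic ε) {K : NNReal} (hlip : LipschitzWith K ε)
    {c : ℝ}
    (h1 : ∀ i, dimH {p : ℝ × ℝ | |p.1| ≤ 1 ∧ |p.2| ≤ 1 ∧ thr (ch ε i) p.1 p.2 = c} ≤ 5 / 3)
    (h2 : ∀ i, dimH {p : ℝ × ℝ | |p.1| ≤ 1 ∧ |p.2| ≤ 1 ∧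
      thr (fun u v t => - ch ε i u v t) p.1 p.2 = -c} ≤ 5 / 3) :
    dimH (Crit ε c) ≤ 5 / 3 := by
  have hsub : Crit ε c ⊆ ⋃ q : Fin 3 × Bool,
      (psiC q.1 (if q.2 then 1 else -1) ''
        {p : ℝ × ℝ | |p.1| ≤ 1 ∧ |p.2| ≤ 1 ∧ thr (ch ε q.1) p.1 p.2 = c} ∪
      psiC q.1 (if q.2 then 1 else -1) '' {p : ℝ × ℝ | |p.1| ≤ 1 ∧ |p.2| ≤ 1 ∧
        thr (fun u v t => - ch ε q.1 u v t) p.1 p.2 = -c}) := by
    rintro B ⟨hB, hc⟩
    obtain ⟨i, s, hBi, hx, hy, hp⟩ := exists_chart B hB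
    refine mem_iUnion.2 ⟨(i, s), ?_⟩
    rcases hc with hc | hc
    · left
      refine ⟨_, ⟨hx, hy, ?_⟩, hp⟩
      rw [← hc]
      exact (eUp_eq_thr ε i B hBi).symm
    · right
      refine ⟨_, ⟨hx, hy, ?_⟩, hp⟩
      rw [← hc, eDown_eq_thr ε i B hBi, neg_neg]
  refine (dimH_mono hsub).trans ?_
  rw [dimH_iUnion]
  refine iSup_le fun q => ?_
  rw [dimH_union]
  exact max_le ((dimH_psiC _ _ _).trans (h1 q.1)) ((dimH_psiC _ _ _).trans (h2 q.1))

end Pool.Agent.Novik
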