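import Mathlib
import Pool.Agent.WN.Brouwer

/-!
# A planar crossing lemma

A preconnected set which lies in a horizontal strip and is unbounded in both directions comes
arbitrarily close to every preconnected set which joins the two sides of the strip.
-/

namespace Pool.Agent.Novik

open Set Metric
open scoped Pointwise

/-- Two points of a preconnected planar set are joined by a path which stays close to the set. -/
lemma exists_path_near {V : Set (ℝ × ℝ)} (hV : IsPreconnected V) {a b : ℝ × ℝ} (ha : a ∈ V)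
    (hb : b ∈ V) {e : ℝ} (he : 0 < e) :
    ∃ γ : ℝ → ℝ × ℝ, Continuous γ ∧ (∀ t, t ≤ 0 → γ t = a) ∧ (∀ t, 1 ≤ t → γ t = b) ∧
      ∀ t, ∃ v ∈ V, |v.1 - (γ t).1| < e ∧ |v.2 - (γ t).2| < e := by
  set T : Set (ℝ × ℝ) := V + ball (0 : ℝ × ℝ) e with hT
  have hopen : IsOpen T := isOpen_ball.add_left
  have hpre : IsPreconnected T := by
    rw [hT, ← Set.add_image_prod]
    exact (hV.prod (convex_ball (0 : ℝ × ℝ) e).isPreconnected).image _
      continuous_add.continuousOn
  have hVT : V ⊆ T := fun v hv => ⟨v, hv, 0, mem_ball_self he, add_zero v⟩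
  have hconn : IsConnected T := ⟨⟨a, hVT ha⟩, hpre⟩
  have hpath : IsPathConnected T := hopen.isConnected_iff_isPathConnected.1 hconn
  obtain ⟨γ, hγ⟩ := hpath.joinedIn a (hVT ha) b (hVT hb)
  refine ⟨γ.extend, γ.continuous_extend, fun t ht => γ.extend_of_le_zero ht,
    fun t ht => γ.extend_of_one_le ht, fun t => ?_⟩
  have hmem : γ.extend t ∈ T := by
    have : γ.extend t ∈ range γ.extend := mem_range_self t
    rw [Path.extend_range] at this
    obtain ⟨s, hs⟩ := this
    rw [← hs]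
    exact hγ s
  obtain ⟨v, hv, r, hr, hvr⟩ := hmem
  refine ⟨v, hv, ?_⟩
  rw [mem_ball_zero_iff, Prod.norm_def, max_lt_iff, Real.norm_eq_abs, Real.norm_eq_abs] at hr
  simp only at hvr
  rw [← hvr]
  constructor
  · rw [Prod.fst_add, sub_add_cancel_left, abs_neg]
    exact hr.1
  · rw [Prod.snd_add, sub_add_cancel_left, abs_neg]
    exact hr.2

/-- A path which is constant outside `[0, 1]` is bounded. -/
lemma exists_bound_path {γ : ℝ → ℝ × ℝ} (hγ : Continuous γ) {a b : ℝ × ℝ}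
    (h0 : ∀ t, t ≤ 0 → γ t = a) (h1 : ∀ t, 1 ≤ t → γ t = b) :
    ∃ S : ℝ, 0 ≤ S ∧ ∀ t, |(γ t).1| ≤ S ∧ |(γ t).2| ≤ S := by
  obtain ⟨C, hC⟩ := (isCompact_Icc (a := (0 : ℝ)) (b := 1)).exists_bound_of_continuousOn
    hγ.continuousOn
  have hC0 : 0 ≤ C := (norm_nonneg _).trans (hC 0 ⟨le_refl _, zero_le_one⟩)
  have hall : ∀ t, ‖γ t‖ ≤ C := by
    intro t
    rcases le_total t 0 with ht | ht
    · rw [h0 t ht, ← h0 0 le_rfl]
      exact hC 0 ⟨le_refl _, zero_le_one⟩
    · rcases le_total 1 t with h | h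
      · rw [h1 t h, ← h1 1 le_rfl]
        exact hC 1 ⟨zero_le_one, le_refl _⟩
      · exact hC t ⟨ht, h⟩
  refine ⟨C, hC0, fun t => ?_⟩
  have := hall t
  rw [Prod.norm_def, max_le_iff, Real.norm_eq_abs, Real.norm_eq_abs] at this
  exact this

/-- one summand of the boundary estimate -/
lemma mul_lower {δ B x s : ℝ} (hδ : 0 ≤ δ) (hx : |x| ≤ B) (h0 : s ≤ 0 → x ≤ -δ)
    (h1 : 1 ≤ s → δ ≤ x) : δ * |s| - (δ + B) ≤ x * s := by
  have hB : 0 ≤ B := (abs_nonneg x).trans hx
  have hx' := abs_le.1 hx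
  rcases le_total s 0 with hs | hs
  · rw [abs_of_nonpos hs]
    nlinarith [h0 hs]
  · rw [abs_of_nonneg hs]
    rcases le_total 1 s with h | h
    · nlinarith [h1 h]
    · nlinarith

/-- **Planar crossing lemma.** -/
theorem cross_lemma {V W : Set (ℝ × ℝ)} (hV : IsPreconnected V) (hW : IsPreconnected W) {R : ℝ}
    (hVR : ∀ u ∈ V, |u.2| ≤ R) (hVu : ∀ S : ℝ, ∃ u ∈ V, S < u.1) (hVl : ∀ S : ℝ, ∃ u ∈ V, u.1 < S)
    {w0 w1 : ℝ × ℝ} (h0 : w0 ∈ W) (h1 : w1 ∈ W) (h0R : w0.2 < -R) (h1R : R < w1.2) :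
    ∀ e : ℝ, 0 < e → ∃ v ∈ V, ∃ w ∈ W, |v.1 - w.1| < e ∧ |v.2 - w.2| < e := by
  intro e he
  obtain ⟨ε, hε, hε1, hε2, hε3⟩ : ∃ ε : ℝ, 0 < ε ∧ 2 * ε ≤ e ∧ w0.2 + 2 * ε ≤ -R ∧
      R + 2 * ε ≤ w1.2 := by
    refine ⟨min (e / 2) (min ((-R - w0.2) / 2) ((w1.2 - R) / 2)), ?_, ?_, ?_, ?_⟩
    · refine lt_min (by linarith) (lt_min (by linarith) (by linarith))
    · have := min_le_left (e / 2) (min ((-R - w0.2) / 2) ((w1.2 - R) / 2))
      linarith
    · have := (min_le_right (e / 2) (min ((-R - w0.2) / 2) ((w1.2 - R) / 2))).trans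
        (min_le_left _ _)
      linarith
    · have := (min_le_right (e / 2) (min ((-R - w0.2) / 2) ((w1.2 - R) / 2))).trans
        (min_le_right _ _)
      linarith
  obtain ⟨β, hβc, hβ0, hβ1, hβ⟩ := exists_path_near hW h0 h1 hε
  obtain ⟨S, hS0, hS⟩ := exists_bound_path hβc hβ0 hβ1
  obtain ⟨ul, hul, hul'⟩ := hVl (-S - ε)
  obtain ⟨ur, hur, hur'⟩ := hVu (S + ε)
  obtain ⟨α, hαc, hα0, hα1, hα⟩ := exists_path_near hV hul hur hε
  obtain ⟨S', hS'0, hS'⟩ := exists_bound_path hαc hα0 hα1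
  have hα2 : ∀ t, -(R + ε) < (α t).2 ∧ (α t).2 < R + ε := by
    intro t
    obtain ⟨v, hv, -, hv2⟩ := hα t
    have h3 := abs_le.1 (hVR v hv)
    have h4 := abs_lt.1 hv2
    constructor <;> linarith [h3.1, h3.2, h4.1, h4.2]
  let G : ℂ → ℂ := fun z => ⟨(β z.im).1 - (α z.re).1, (α z.re).2 - (β z.im).2⟩
  have hG : Continuous G := by
    have h : G = fun z : ℂ => (((β z.im).1 - (α z.re).1 : ℝ) : ℂ) +
        (((α z.re).2 - (β z.im).2 : ℝ) : ℂ) * Complex.I := by
      funext z
      apply Complex.ext <;> simp [G]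
    rw [h]
    have hb : Continuous fun z : ℂ => β z.im := hβc.comp Complex.continuous_im
    have ha : Continuous fun z : ℂ => α z.re := hαc.comp Complex.continuous_re
    exact (Complex.continuous_ofReal.comp (hb.fst.sub ha.fst)).add
      ((Complex.continuous_ofReal.comp (ha.snd.sub hb.snd)).mul continuous_const)
  set B : ℝ := S + S' with hB
  have hB0 : 0 ≤ B := by positivity
  obtain ⟨z, -, hz⟩ := Pool.Agent.WN.Brouwer.exists_zero hG (R := 2 * (ε + B) / ε)
    (by positivity) (fun z hzR => by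
      have hs : ε * |z.re| - (ε + B) ≤ ((α z.re).1 - (β z.im).1) * z.re := by
        refine mul_lower hε.le ?_ ?_ ?_
        · have h2 := abs_le.1 (hS z.im).1
          have h3 := abs_le.1 (hS' z.re).1
          rw [abs_le]
          constructor <;> linarith [h2.1, h2.2, h3.1, h3.2]
        · intro h
          have h2 := abs_le.1 (hS z.im).1
          rw [hα0 _ h]
          linarith [h2.1, h2.2]
        · intro h
          have h2 := abs_le.1 (hS z.im).1
          rw [hα1 _ h]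
          linarith [h2.1, h2.2]
      have ht : ε * |z.im| - (ε + B) ≤ ((β z.im).2 - (α z.re).2) * z.im := by
        refine mul_lower hε.le ?_ ?_ ?_
        · have h2 := abs_le.1 (hS z.im).2
          have h3 := abs_le.1 (hS' z.re).2
          rw [abs_le]
          constructor <;> linarith [h2.1, h2.2, h3.1, h3.2]
        · intro h
          rw [hβ0 _ h]
          linarith [(hα2 z.re).1]
        · intro h
          rw [hβ1 _ h]
          linarith [(hα2 z.re).2]
      have hn : 2 * (ε + B) ≤ ε * |z.re| + ε * |z.im| := by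
        have h5 := Complex.norm_le_abs_re_add_abs_im z
        rw [hzR] at h5
        rw [← mul_add, ← div_le_iff₀' hε]
        exact h5
      rw [Complex.inner]
      simp only [G, Complex.mul_re, Complex.conj_re, Complex.conj_im]
      nlinarith)
  obtain ⟨v, hv, hv1, hv2⟩ := hα z.re
  obtain ⟨w, hw, hw1, hw2⟩ := hβ z.im
  have hre := congrArg Complex.re hz
  have him := congrArg Complex.im hz
  simp only [G, Complex.zero_re, Complex.zero_im] at hre him
  refine ⟨v, hv, w, hw, ?_, ?_⟩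
  · rw [abs_lt] at hv1 hw1 ⊢
    constructor <;> linarith [hv1.1, hv1.2, hw1.1, hw1.2]
  · rw [abs_lt] at hv2 hw2 ⊢
    constructor <;> linarith [hv2.1, hv2.2, hw2.1, hw2.2]

end Pool.Agent.Novik
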