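import Pool.Agent.Novik.TwoSided
import Pool.Agent.Novik.Cross

/-!
# Below the threshold every trajectory lies in a strip
-/

namespace Pool.Agent.Novik

open Set

variable {G : ℝ → ℝ → ℝ → ℝ} {L : ℕ} {x y a : ℝ}

/-- the transversal coordinate of an integer vector -/
def tau (d : ℝ × ℝ) (k : ℤ × ℤ × ℤ) : ℝ := (k.1 : ℝ) * d.2 - (k.2.1 : ℝ) * d.1

theorem tau_add (d : ℝ × ℝ) (k l : ℤ × ℤ × ℤ) : tau d (k + l) = tau d k + tau d l := by
  simp only [tau, Prod.fst_add, Prod.snd_add, Int.cast_add]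
  ring

theorem tau_smul (d : ℝ × ℝ) (s : ℤ) (k : ℤ × ℤ × ℤ) : tau d (s • k) = s * tau d k := by
  simp only [tau, Prod.smul_fst, Prod.smul_snd, smul_eq_mul, Int.cast_mul]
  ring

theorem th_smul (s : ℤ) (k : ℤ × ℤ × ℤ) : th x y (s • k) = s * th x y k := by
  simp only [th, theta, Prod.smul_fst, Prod.smul_snd, smul_eq_mul, Int.cast_mul]
  ring

theorem exists_small (hirr : Irr x y) {η : ℝ} (hη : 0 < η) :
    ∃ k : ℤ × ℤ × ℤ, 0 < th x y k ∧ th x y k ≤ η := by
  obtain ⟨n, hn⟩ := exists_nat_gt (1 / η)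
  have hnpos : (0 : ℝ) < n := lt_trans (by positivity) hn
  have hn0 : 0 < n := by exact_mod_cast hnpos
  obtain ⟨j, k, hk0, -, hjk⟩ := Real.exists_int_int_abs_mul_sub_le x hn0
  have hle : |(k : ℝ) * x - j| ≤ η := by
    refine hjk.trans ?_
    rw [div_le_iff₀ (by positivity)]
    rw [div_lt_iff₀ hη] at hn
    nlinarith
  have e : th x y (k, 0, -j) = (k : ℝ) * x - j := by
    simp only [th, theta]; push_cast; ring
  have hne : th x y (k, 0, -j) ≠ 0 := by
    intro h
    have := hirr _ h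
    have h1 := congrArg Prod.fst this
    simp only [Prod.fst_zero] at h1
    omega
  rcases lt_or_gt_of_ne hne with h | h
  · refine ⟨-(k, 0, -j), ?_, ?_⟩
    · rw [th_neg]; linarith
    · rw [th_neg, e]
      rw [e] at h
      linarith [neg_abs_le ((k : ℝ) * x - j)]
  · refine ⟨(k, 0, -j), h, ?_⟩
    rw [e]
    exact (le_abs_self _).trans hle

/-- Relative density with prescribed offset. -/
theorem dens (hirr : Irr x y) {η : ℝ} (hη : 0 < η) {d : ℝ × ℝ} (hd : d ≠ 0) :
    ∃ ρ : ℝ, ∀ b t0 : ℝ, ∃ k : ℤ × ℤ × ℤ, |th x y k - b| ≤ η ∧ t0 ≤ tau d k ∧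
      tau d k ≤ t0 + ρ := by
  obtain ⟨κ, hκ0, hκ1⟩ := exists_small hirr hη
  obtain ⟨e, he⟩ : ∃ e : ℤ × ℤ × ℤ, 0 < tau d e := by
    by_cases h2 : d.2 = 0
    · have h1 : d.1 ≠ 0 := fun h1 => hd (Prod.ext h1 h2)
      rcases lt_or_gt_of_ne h1 with h | h
      · exact ⟨(0, 1, 0), by simp only [tau]; push_cast; linarith⟩
      · exact ⟨(0, -1, 0), by simp only [tau]; push_cast; linarith⟩
    · rcases lt_or_gt_of_ne h2 with h | h
      · exact ⟨(-1, 0, 0), by simp only [tau]; push_cast; linarith⟩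
      · exact ⟨(1, 0, 0), by simp only [tau]; push_cast; linarith⟩
  set ρ1 := 1 / th x y κ * |tau d κ| with hρ1
  refine ⟨2 * ρ1 + tau d e, fun b t0 => ?_⟩
  set s : ℤ := ⌈(t0 + ρ1) / tau d e⌉ with hs
  have hs1 : t0 + ρ1 ≤ s * tau d e := by
    have := Int.le_ceil ((t0 + ρ1) / tau d e)
    rw [div_le_iff₀ he] at this
    exact this
  have hs2 : s * tau d e ≤ t0 + ρ1 + tau d e := by
    have h1 := Int.ceil_lt_add_one ((t0 + ρ1) / tau d e)
    have h2 : (s : ℝ) * tau d e < ((t0 + ρ1) / tau d e + 1) * tau d e :=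
      mul_lt_mul_of_pos_right h1 he
    have h3 : ((t0 + ρ1) / tau d e + 1) * tau d e = t0 + ρ1 + tau d e := by
      field_simp
    linarith
  set b' := b - th x y (s • e) with hb'
  set j : ℤ := ⌊Int.fract b' / th x y κ⌋ with hj
  have hfr0 := Int.fract_nonneg b'
  have hfr1 := Int.fract_lt_one b'
  have hj0 : (0 : ℝ) ≤ j := by
    have : 0 ≤ j := Int.floor_nonneg.mpr (div_nonneg hfr0 hκ0.le)
    exact_mod_cast this
  have hj1 : (j : ℝ) * th x y κ ≤ Int.fract b' := by
    have := Int.floor_le (Int.fract b' / th x y κ)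
    rw [le_div_iff₀ hκ0] at this
    exact this
  have hj2 : Int.fract b' < (j + 1) * th x y κ := by
    have := Int.lt_floor_add_one (Int.fract b' / th x y κ)
    rw [div_lt_iff₀ hκ0] at this
    exact this
  have hj3 : (j : ℝ) ≤ 1 / th x y κ := by
    rw [le_div_iff₀ hκ0]
    linarith
  refine ⟨s • e + j • κ + (0, 0, ⌊b'⌋), ?_, ?_⟩
  · rw [th_add, th_add, th_smul j]
    have e3 : th x y (0, 0, ⌊b'⌋) = ⌊b'⌋ := by simp [th, theta]
    rw [e3]
    have hfl := Int.floor_add_fract b'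
    have e4 : th x y (s • e) + j * th x y κ + ⌊b'⌋ - b = j * th x y κ - Int.fract b' := by
      have : b = b' + th x y (s • e) := by rw [hb']; ring
      rw [this]
      linarith
    rw [e4, abs_le]
    constructor <;> nlinarith
  · rw [tau_add, tau_add, tau_smul, tau_smul]
    have e3 : tau d (0, 0, ⌊b'⌋) = 0 := by simp [tau]
    rw [e3, add_zero]
    have h1 : |(j : ℝ) * tau d κ| ≤ ρ1 := by
      rw [abs_mul, abs_of_nonneg hj0]
      exact mul_le_mul_of_nonneg_right hj3 (abs_nonneg _)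
    rw [abs_le] at h1
    constructor <;> linarith [h1.1, h1.2]

/-- **Strips.** Below the threshold of a totally irrational direction all connected subsets of
the sections of the level surface lie in strips of uniformly bounded width and of the same
direction. -/
theorem strip (hG : Nice G L) (hL : 1 ≤ L) (hx : |x| ≤ 2) (hy : |y| ≤ 2)
    (hirr : Irr x y) {c : ℝ} (hc : c < thr G x y) :
    ∃ (d : ℝ × ℝ) (R : ℝ) (k l : ℤ × ℤ × ℤ), ¬ Par k l ∧ d = dirv x y k l ∧
      ∀ (a : ℝ) (γ : Set (ℝ × ℝ)), IsPreconnected γ →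
      (∀ u ∈ γ, sec G x y a u ≤ c) → ∀ u ∈ γ, ∀ v ∈ γ,
        |(u.1 - v.1) * d.2 - (u.2 - v.2) * d.1| ≤ R := by
  have hLpos : (0 : ℝ) < L := by exact_mod_cast hL
  obtain ⟨c', hc1, hc2⟩ := exists_between hc
  obtain ⟨a0, V, d, R0, k0, l0, hV, hVf, hd, hkl0, hdir0, hVR, hVu, hVl⟩ :=
    two_sided hG hL hx hy hirr hc2
  have hw : 0 < c' - c := by linarith
  have hη : 0 < (c' - c) / (2 * L) := by positivity
  obtain ⟨ρ, hρ⟩ := dens hirr hη hd
  have hd2 : 0 < d.1 ^ 2 + d.2 ^ 2 := by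
    by_contra hcon
    apply hd
    have e1 : d.1 = 0 := by nlinarith [sq_nonneg d.1, sq_nonneg d.2]
    have e2 : d.2 = 0 := by nlinarith [sq_nonneg d.1, sq_nonneg d.2]
    exact Prod.ext e1 e2
  refine ⟨d, 2 * R0 + ρ + 1, k0, l0, hkl0, hdir0, ?_⟩
  intro a γ hγ hγf
  -- one-sided statement
  have key : ∀ u ∈ γ, ∀ v ∈ γ,
      (v.1 * d.2 - v.2 * d.1) - (u.1 * d.2 - u.2 * d.1) ≤ 2 * R0 + ρ + 1 := by
    intro u hu v hv
    by_contra hcon
    push Not at hcon
    obtain ⟨k, hk1, hk2, hk3⟩ := hρ (a - a0) (u.1 * d.2 - u.2 * d.1 + R0 + 1 / 2)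
    -- the translate of `V`
    let T : ℝ × ℝ → ℝ × ℝ := fun z =>
      (z.1 * d.1 + z.2 * d.2, z.1 * d.2 - z.2 * d.1 - tau d k)
    have hTc : Continuous T := by fun_prop
    let Vk : Set (ℝ × ℝ) := (fun z : ℝ × ℝ => (z.1 + (k.1 : ℝ), z.2 + (k.2.1 : ℝ))) '' V
    have hVk : IsPreconnected Vk := by
      refine hV.image _ ?_
      fun_prop
    have hVkf : ∀ z ∈ Vk, c + (c' - c) / 2 ≤ sec G x y a z := by
      rintro _ ⟨z, hz, rfl⟩
      have h1 := hVf z hz
      have h2 : sec G x y a (z.1 + (k.1 : ℝ), z.2 + (k.2.1 : ℝ)) =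
          G z.1 z.2 (a - x * z.1 - y * z.2 - th x y k) := by
        have := hG.shift z.1 z.2 (a - x * z.1 - y * z.2 - th x y k) k.1 k.2.1 k.2.2
        rw [← this]
        unfold sec th theta
        congr 1
        ring
      have h3 := hG.lip3 z.1 z.2 (a - x * z.1 - y * z.2 - th x y k) (a0 - x * z.1 - y * z.2)
      have h4 : |a - x * z.1 - y * z.2 - th x y k - (a0 - x * z.1 - y * z.2)| ≤
          (c' - c) / (2 * L) := by
        rw [show a - x * z.1 - y * z.2 - th x y k - (a0 - x * z.1 - y * z.2) =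
          -(th x y k - (a - a0)) by ring, abs_neg]
        exact hk1
      have h5 := h3.trans (mul_le_mul_of_nonneg_left h4 hLpos.le)
      have h6 : (L : ℝ) * ((c' - c) / (2 * L)) = (c' - c) / 2 := by field_simp
      rw [h6] at h5
      have h7 := (abs_le.mp h5).1
      simp only
      rw [h2]
      unfold sec at h1
      linarith
    have hcr := cross_lemma (V := T '' Vk) (W := T '' γ) (hVk.image _ hTc.continuousOn)
      (hγ.image _ hTc.continuousOn) (R := R0) (by
        rintro _ ⟨_, ⟨z, hz, rfl⟩, rfl⟩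
        have := hVR z hz
        simp only [T, tau]
        rw [show (z.1 + (k.1 : ℝ)) * d.2 - (z.2 + (k.2.1 : ℝ)) * d.1 -
          ((k.1 : ℝ) * d.2 - (k.2.1 : ℝ) * d.1) = z.1 * d.2 - z.2 * d.1 by ring]
        exact this) (by
        intro S
        obtain ⟨z, hz, h⟩ := hVu (S - ((k.1 : ℝ) * d.1 + (k.2.1 : ℝ) * d.2))
        refine ⟨_, ⟨_, ⟨z, hz, rfl⟩, rfl⟩, ?_⟩
        simp only [T]
        linarith) (by
        intro S
        obtain ⟨z, hz, h⟩ := hVl (S - ((k.1 : ℝ) * d.1 + (k.2.1 : ℝ) * d.2))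
        refine ⟨_, ⟨_, ⟨z, hz, rfl⟩, rfl⟩, ?_⟩
        simp only [T]
        linarith) (w0 := T u) (w1 := T v) ⟨u, hu, rfl⟩ ⟨v, hv, rfl⟩ (by
        simp only [T]
        linarith) (by
        simp only [T]
        linarith)
    -- a small distance
    set D := |d.1| + |d.2| with hD
    have hD0 : 0 < D := by
      have h1 := abs_nonneg d.1
      have h2 := abs_nonneg d.2
      rcases eq_or_lt_of_le h1 with h | h
      · rcases eq_or_lt_of_le h2 with h' | h'
        · exfalso
          exact hd (Prod.ext (abs_eq_zero.mp h.symm) (abs_eq_zero.mp h'.symm))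
        · linarith
      · linarith
    set e := (c' - c) * (d.1 ^ 2 + d.2 ^ 2) / (16 * L * D) with he
    have hepos : 0 < e := by positivity
    obtain ⟨_, ⟨z, hz, rfl⟩, _, ⟨w, hw', rfl⟩, hs1, hs2⟩ := hcr e hepos
    simp only [T] at hs1 hs2
    have hΔ1 : |z.1 * d.1 + z.2 * d.2 - (w.1 * d.1 + w.2 * d.2)| ≤ e := hs1.le
    have hΔ2 : |z.1 * d.2 - z.2 * d.1 - tau d k - (w.1 * d.2 - w.2 * d.1 - tau d k)| ≤ e := hs2.le
    have hr : ∀ s : ℝ, |s * (d.1 ^ 2 + d.2 ^ 2)| ≤ e * D → |s| ≤ (c' - c) / (16 * L) := by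
      intro s hs
      rw [abs_mul, abs_of_pos hd2] at hs
      have h1 : e * D = (c' - c) / (16 * L) * (d.1 ^ 2 + d.2 ^ 2) := by
        rw [he]; field_simp
      rw [h1] at hs
      exact le_of_mul_le_mul_right hs hd2
    have hz1 : |z.1 - w.1| ≤ (c' - c) / (16 * L) := by
      apply hr
      have e1 : (z.1 - w.1) * (d.1 ^ 2 + d.2 ^ 2) =
          (z.1 * d.1 + z.2 * d.2 - (w.1 * d.1 + w.2 * d.2)) * d.1 +
          (z.1 * d.2 - z.2 * d.1 - tau d k - (w.1 * d.2 - w.2 * d.1 - tau d k)) * d.2 := by ring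
      rw [e1]
      refine le_trans (abs_add_le _ _) ?_
      rw [abs_mul, abs_mul]
      have b1 := mul_le_mul_of_nonneg_right hΔ1 (abs_nonneg d.1)
      have b2 := mul_le_mul_of_nonneg_right hΔ2 (abs_nonneg d.2)
      rw [hD, mul_add]
      exact add_le_add b1 b2
    have hz2 : |z.2 - w.2| ≤ (c' - c) / (16 * L) := by
      apply hr
      have e1 : (z.2 - w.2) * (d.1 ^ 2 + d.2 ^ 2) =
          (z.1 * d.1 + z.2 * d.2 - (w.1 * d.1 + w.2 * d.2)) * d.2 +
          -((z.1 * d.2 - z.2 * d.1 - tau d k - (w.1 * d.2 - w.2 * d.1 - tau d k)) * d.1) := by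
        ring
      rw [e1]
      refine le_trans (abs_add_le _ _) ?_
      rw [abs_neg, abs_mul, abs_mul]
      have b1 := mul_le_mul_of_nonneg_right hΔ1 (abs_nonneg d.2)
      have b2 := mul_le_mul_of_nonneg_right hΔ2 (abs_nonneg d.1)
      rw [hD, mul_add]
      linarith
    have hlip := hG.sec_lip (a := a) hx hy hz1 hz2
    have e5 : 4 * (L : ℝ) * ((c' - c) / (16 * L)) = (c' - c) / 4 := by
      field_simp
      norm_num
    rw [e5] at hlip
    have h8 := (abs_le.mp hlip).2
    have h9 := hVkf z hz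
    have h10 := hγf w hw'
    linarith
  intro u hu v hv
  rw [abs_le]
  have k1 := key u hu v hv
  have k2 := key v hv u hu
  constructor <;> nlinarith

/-- **Regularity away from the threshold.**  In a totally irrational direction whose threshold
is not `c` there are an integer vector `m ≠ 0` and a bound `R` such that every connected subset
of the level `c` in every plane has extent at most `R` in the direction of `m`. -/
theorem regular_of_ne (hG : Nice G L) (hL : 1 ≤ L) (hx : |x| ≤ 2) (hy : |y| ≤ 2)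
    (hirr : Irr x y) {c : ℝ} (hc : thr G x y ≠ c) :
    ∃ (m : ℤ × ℤ × ℤ) (R : ℝ), m ≠ 0 ∧ ∀ (a : ℝ) (γ : Set (ℝ × ℝ)), IsPreconnected γ →
      (∀ u ∈ γ, sec G x y a u = c) → ∀ u ∈ γ, ∀ v ∈ γ,
        |(u.1 - v.1) * (m.1 - x * m.2.2) + (u.2 - v.2) * (m.2.1 - y * m.2.2)| ≤ R := by
  have hLpos : (0 : ℝ) < L := by exact_mod_cast hL
  rcases lt_or_gt_of_ne hc with h | h
  · -- above the threshold: uniformly bounded
    obtain ⟨n, hn⟩ := exists_nat_gt (max 1 (20 * L / (c - thr G x y)))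
    have hn1 : (1 : ℝ) < n := lt_of_le_of_lt (le_max_left _ _) hn
    have hn20 : 20 * L / (c - thr G x y) < n := lt_of_le_of_lt (le_max_right _ _) hn
    have hnpos : (0 : ℝ) < n := by linarith
    have hn1' : 1 ≤ n := by
      have : 1 < n := by exact_mod_cast hn1
      omega
    have hcc : 0 < c - thr G x y := by linarith
    have hgap : 20 * L / n < c - thr G x y := by
      rw [div_lt_iff₀ hcc] at hn20
      rw [div_lt_iff₀ hnpos]
      linarith
    have e20 : 20 * (L : ℝ) / n = 20 * (L / n) := by ring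
    have hLn : (0 : ℝ) < L / n := by positivity
    obtain ⟨N, M, hM, hN, hgood⟩ := good_exists hirr hn1'
    refine ⟨(1, 0, 0), N, by simp, ?_⟩
    intro a γ hγ hγf u hu v hv
    by_contra hcon
    push Not at hcon
    have hd : (N : ℝ) ≤ dist u v := by
      rw [Prod.dist_eq, Real.dist_eq]
      refine le_trans ?_ (le_max_left _ _)
      simp only [Int.cast_one, Int.cast_zero, mul_zero, sub_zero, mul_one, add_zero] at hcon
      exact hcon.le
    obtain ⟨a', β, q, b1, b2, b3, b4, b5, b6⟩ := cut (x' := x) (y' := y) (δ := 0) (a := a)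
      (c := c) hG hx hy (by simp) (by simp) hγ (fun u hu => (hγf u hu).ge) hv hu hLn hd
    have hsub : levelCubes G n (c - L / n) ⊆
        ((Finset.Ico (0 : ℤ) n ×ˢ (Finset.Ico (0 : ℤ) n ×ˢ Finset.Ico (0 : ℤ) n) :
          Finset (ℤ × ℤ × ℤ)) : Set (ℤ × ℤ × ℤ)) := by
      rintro _ ⟨u, v, t, rfl, -⟩
      exact cube_mem hn1' u v t
    have hfin : (levelCubes G n (c - L / n)).Finite := (Finset.finite_toSet _).subset hsub
    have hcard : (levelCubes G n (c - L / n)).ncard ≤ n * n ^ 2 := by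
      refine (Set.ncard_le_ncard hsub (Finset.finite_toSet _)).trans ?_
      rw [Set.ncard_coe_finset]
      simp only [Finset.card_product, Int.card_Ico, sub_zero, Int.toNat_natCast]
      exact le_of_eq (by ring)
    have hperc := main_perc (a := a') hG hL hx hy hn1' hM hn1' hN hfin hcard hgood b1 (by
      intro u hu
      have := b6 u hu
      simpa using this) b2 b3 b4 b5
    have h1 := le_thr hG hperc
    have e18 : 18 * (L : ℝ) / n = 18 * (L / n) := by ring
    rw [e18] at h1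
    rw [e20] at hgap
    linarith
  · -- below the threshold: strips
    obtain ⟨d, R, k, l, hkl, hd, hR⟩ := strip hG hL hx hy hirr h
    refine ⟨(k.2.1 * l.2.2 - k.2.2 * l.2.1, k.2.2 * l.1 - k.1 * l.2.2,
      k.1 * l.2.1 - k.2.1 * l.1), R, ?_, ?_⟩
    · intro h0
      apply hkl
      have e1 := congrArg Prod.fst h0
      have e2 := congrArg (fun p : ℤ × ℤ × ℤ => p.2.1) h0
      have e3 := congrArg (fun p : ℤ × ℤ × ℤ => p.2.2) h0
      simp only [Prod.fst_zero, Prod.snd_zero] at e1 e2 e3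
      exact ⟨by linarith, by linarith, by linarith⟩
    · intro a γ hγ hγf u hu v hv
      have h1 := hR a γ hγ (fun u hu => (hγf u hu).le) u hu v hv
      rw [hd] at h1
      refine le_trans (le_of_eq ?_) h1
      rw [← abs_neg]
      congr 1
      simp only [dirv, th, theta]
      push_cast
      ring

end Pool.Agent.Novik
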