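import Pool.Agent.Novik.Chart
import Pool.Agent.Novik.Dim
import Pool.Agent.Novik.Resid
import Pool.Agent.Novik.Nice
import Pool.Agent.Novik.Sphere
import Pool.Agent.Novik.Strip

/-!
# Assembly: almost every level, and generic pairs
-/

namespace Pool.Agent.Novik

open Filter MeasureTheory Set

/-- few dirty squares in all charts and for both thresholds -/
def FewDirty (ε : E3 → ℝ) (c : ℝ) : Prop :=
  ∀ i : Fin 3, (∀ τ : ℝ, 0 < τ → ∃ᶠ l in atTop,
    ((dirty (fun p => thr (ch ε i) p.1 p.2) c l).card : ℝ) ≤ 32 ^ l * (2 : ℝ) ^ (τ * l)) ∧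
    (∀ τ : ℝ, 0 < τ → ∃ᶠ l in atTop,
    ((dirty (fun p => thr (fun u v t => - ch ε i u v t) p.1 p.2) (-c) l).card : ℝ) ≤
      32 ^ l * (2 : ℝ) ^ (τ * l))

theorem FewDirty.dim {ε : E3 → ℝ} {c : ℝ} (h : FewDirty ε c) (i : Fin 3) :
    dimH {p : ℝ × ℝ | |p.1| ≤ 1 ∧ |p.2| ≤ 1 ∧ thr (ch ε i) p.1 p.2 = c} ≤ 5 / 3 ∧
    dimH {p : ℝ × ℝ | |p.1| ≤ 1 ∧ |p.2| ≤ 1 ∧
      thr (fun u v t => - ch ε i u v t) p.1 p.2 = -c} ≤ 5 / 3 :=
  ⟨dimH_level (fun p => thr (ch ε i) p.1 p.2) c (h i).1,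
    dimH_level (fun p => thr (fun u v t => - ch ε i u v t) p.1 p.2) (-c) (h i).2⟩

/-- reflection of a statement about almost every level -/
theorem ae_neg {P : ℝ → Prop} (h : ∀ᵐ c : ℝ, P c) : ∀ᵐ c : ℝ, P (-c) := by
  have := (Measure.measurePreserving_neg (volume : Measure ℝ)).quasiMeasurePreserving.ae h
  exact this

theorem ae_thr_neg {ε : E3 → ℝ} {L : ℕ} (hL : 1 ≤ L) (i : Fin 3)
    (hG : Nice (fun u v t => - ch ε i u v t) L) :
    ∀ᵐ c : ℝ, ∀ τ : ℝ, 0 < τ → ∀ᶠ l in atTop,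
      ((dirty (fun p => thr (fun u v t => - ch ε i u v t) p.1 p.2) (-c) l).card : ℝ) ≤
        32 ^ l * (2 : ℝ) ^ (τ * l) :=
  ae_neg (ae_thr hG hL)

theorem ae_fewDirty {ε : E3 → ℝ} (hper : IsPeriodic ε) {K : NNReal} (hlip : LipschitzWith K ε) :
    ∀ᵐ c : ℝ, FewDirty ε c := by
  obtain ⟨L, hL, hN⟩ := nice_ch hper hlip
  unfold FewDirty
  rw [ae_all_iff]
  intro i
  filter_upwards [ae_thr (hN i).1 hL, ae_thr_neg hL i (hN i).2] with c h1 h2
  exact ⟨fun τ hτ => (h1 τ hτ).frequently, fun τ hτ => (h2 τ hτ).frequently⟩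

/-- the threshold depends continuously on the function -/
theorem abs_thr_sub_le {G H : ℝ → ℝ → ℝ → ℝ} {L L' : ℕ} (hG : Nice G L) (hH : Nice H L')
    {η : ℝ} (h : ∀ u v t, |G u v t - H u v t| ≤ η) (x y : ℝ) :
    |thr G x y - thr H x y| ≤ η := by
  have key : ∀ {G H : ℝ → ℝ → ℝ → ℝ} {L L' : ℕ}, Nice G L → Nice H L' →
      (∀ u v t, |G u v t - H u v t| ≤ η) → thr G x y ≤ thr H x y + η := by
    intro G H L L' hG hH h
    refine csSup_le (perc_nonempty hG) ?_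
    rintro c ⟨a, U, h1, h2, h3⟩
    have : Perc H x y (c - η) := by
      refine ⟨a, U, h1, h2, fun u hu => ?_⟩
      have h4 := h3 u hu
      have h5 := (abs_le.mp (h u.1 u.2 (a - x * u.1 - y * u.2))).2
      unfold sec at h4 ⊢
      linarith
    have := le_thr hH this
    linarith
  have h1 := key hG hH h
  have h2 := key hH hG (fun u v t => by rw [abs_sub_comm]; exact h u v t)
  rw [abs_le]
  constructor <;> linarith

theorem residual_neg {X : Type*} [TopologicalSpace X] {P : X × ℝ → Prop}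
    (h : ∀ᶠ z in residual (X × ℝ), P z) : ∀ᶠ z in residual (X × ℝ), P (z.1, -z.2) := by
  rw [Filter.Eventually, mem_residual_iff] at h ⊢
  obtain ⟨S, hSo, hSd, hSc, hSs⟩ := h
  let e : X × ℝ ≃ₜ X × ℝ := (Homeomorph.refl X).prodCongr (Homeomorph.neg ℝ)
  refine ⟨(fun t => e ⁻¹' t) '' S, ?_, ?_, hSc.image _, ?_⟩
  · rintro _ ⟨t, ht, rfl⟩
    exact (hSo t ht).preimage e.continuous
  · rintro _ ⟨t, ht, rfl⟩
    exact (hSd t ht).preimage e.isOpenMap
  · intro z hz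
    have hz' : e z ∈ ⋂₀ S := by
      rw [mem_sInter]
      intro t ht
      exact mem_sInter.mp hz _ ⟨t, ht, rfl⟩
    exact hSs hz'

/-- **Generic pairs.** -/
theorem residual_fewDirty {X : Type*} [TopologicalSpace X] (Φ : X → E3 → ℝ)
    (hper : ∀ s, IsPeriodic (Φ s)) (hlip : ∀ s, ∃ K : NNReal, LipschitzWith K (Φ s))
    (hcont : ∀ s, ∀ η > 0, ∀ᶠ s' in nhds s, ∀ Y, |Φ s' Y - Φ s Y| ≤ η) :
    ∀ᶠ z in residual (X × ℝ), FewDirty (Φ z.1) z.2 := by
  have hN : ∀ s, ∃ L : ℕ, 1 ≤ L ∧ ∀ i, Nice (ch (Φ s) i) L ∧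
      Nice (fun u v t => - ch (Φ s) i u v t) L := fun s => by
    obtain ⟨K, hK⟩ := hlip s
    exact nice_ch (hper s) hK
  choose L hL hNice using hN
  unfold FewDirty
  rw [eventually_all]
  intro i
  have hch : ∀ s s' (η : ℝ), (∀ Y, |Φ s' Y - Φ s Y| ≤ η) →
      ∀ u v t, |ch (Φ s') i u v t - ch (Φ s) i u v t| ≤ η := by
    intro s s' η h u v t
    rw [ch_eq_embC, ch_eq_embC]
    exact h _
  have h1 : ∀ᶠ z in residual (X × ℝ), ∀ τ : ℝ, 0 < τ → ∃ᶠ l in atTop,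
      ((dirty (fun p => thr (ch (Φ z.1) i) p.1 p.2) z.2 l).card : ℝ) ≤
        32 ^ l * (2 : ℝ) ^ (τ * l) := by
    refine residual_dirty (fun s p => thr (ch (Φ s) i) p.1 p.2) ?_ ?_
    · intro s η hη
      filter_upwards [hcont s η hη] with s' hs' p
      exact abs_thr_sub_le (hNice s' i).1 (hNice s i).1 (hch s s' η hs') _ _
    · intro s
      exact ae_thr (hNice s i).1 (hL s)
  have h2 : ∀ᶠ z in residual (X × ℝ), ∀ τ : ℝ, 0 < τ → ∃ᶠ l in atTop,
      ((dirty (fun p => thr (fun u v t => - ch (Φ z.1) i u v t) p.1 p.2) z.2 l).card : ℝ) ≤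
        32 ^ l * (2 : ℝ) ^ (τ * l) := by
    refine residual_dirty (fun s p => thr (fun u v t => - ch (Φ s) i u v t) p.1 p.2) ?_ ?_
    · intro s η hη
      filter_upwards [hcont s η hη] with s' hs' p
      refine abs_thr_sub_le (hNice s' i).2 (hNice s i).2 ?_ _ _
      intro u v t
      have := hch s s' η hs' u v t
      rw [show - ch (Φ s') i u v t - - ch (Φ s) i u v t =
        -(ch (Φ s') i u v t - ch (Φ s) i u v t) by ring, abs_neg]
      exact this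
    · intro s
      exact ae_thr (hNice s i).2 (hL s)
  have h3 := residual_neg h2
  filter_upwards [h1, h3] with z a1 a2
  exact ⟨a1, a2⟩

end Pool.Agent.Novik
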