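import Pool.Agent.Novik.Defs

/-!
# NOV-A: the number of the grid points with a small integer relation
-/

namespace Pool.Agent.Novik

lemma card_spreadA (T : Finset ℤ) (k : ℤ) (hk : k ≠ 0) (y : ℤ) (A : ℕ)
    (h : ∀ x ∈ T, |x * k + y| ≤ A) : T.card ≤ 2 * A / k.natAbs + 1 := by
  rcases T.eq_empty_or_nonempty with rfl | hne
  · simp
  have hk0 : 0 < k.natAbs := Int.natAbs_pos.2 hk
  set a := T.min' hne with ha
  set b := T.max' hne with hb
  have hab : a ≤ b := T.min'_le_max' hne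
  have hsub : T ⊆ Finset.Icc a b := by
    intro x hx
    rw [Finset.mem_Icc]
    exact ⟨T.min'_le x hx, T.le_max' x hx⟩
  have h1 := Finset.card_le_card hsub
  rw [Int.card_Icc] at h1
  have h2 := h a (T.min'_mem hne)
  have h3 := h b (T.max'_mem hne)
  have h4 : |(b - a) * k| ≤ 2 * A := by
    have : (b - a) * k = (b * k + y) - (a * k + y) := by ring
    rw [this]
    refine (abs_sub _ _).trans ?_
    linarith
  rw [abs_mul, abs_of_nonneg (by linarith : (0 : ℤ) ≤ b - a)] at h4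
  have h5 : (b - a).toNat * k.natAbs ≤ 2 * A := by
    have h6 : (((b - a).toNat * k.natAbs : ℕ) : ℤ) = (b - a) * |k| := by
      push_cast
      rw [Int.toNat_of_nonneg (by linarith)]
    have h7 : (((b - a).toNat * k.natAbs : ℕ) : ℤ) ≤ ((2 * A : ℕ) : ℤ) := by
      rw [h6]
      push_cast
      exact h4
    exact_mod_cast h7
  have h8 : (b - a).toNat ≤ 2 * A / k.natAbs := (Nat.le_div_iff_mul_le hk0).2 h5
  omega

lemma row_boundA (P A R : ℕ) (hR : 1 ≤ R) (hA : R ≤ A) (hP : A ≤ P) (k y : ℤ) (hk : k ≠ 0)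
    (hkR : |k| ≤ R) (T : Finset ℤ)
    (hT : ∀ x ∈ T, |x| ≤ P ∧ ∃ z : ℤ, |x * k + y + z * P| ≤ A) : T.card ≤ 15 * A := by
  classical
  have hk0 : 0 < k.natAbs := Int.natAbs_pos.2 hk
  have hkR' : k.natAbs ≤ R := by
    have : ((k.natAbs : ℕ) : ℤ) ≤ (R : ℤ) := by
      rw [Int.natCast_natAbs]
      exact hkR
    exact_mod_cast this
  have hz : ∀ x : ℤ, ∃ z : ℤ, x ∈ T → |x * k + y + z * P| ≤ A := by
    intro x
    by_cases hx : x ∈ T
    · obtain ⟨z, hz⟩ := (hT x hx).2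
      exact ⟨z, fun _ => hz⟩
    · exact ⟨0, fun h => absurd h hx⟩
  choose f hf using hz
  have h1 : T.card ≤ (2 * A / k.natAbs + 1) * (T.image f).card := by
    apply Finset.card_le_mul_card_image
    intro z _
    apply card_spreadA _ k hk (y + z * P) A
    intro x hx
    rw [Finset.mem_filter] at hx
    have := hf x hx.1
    rw [hx.2] at this
    rw [← add_assoc]
    exact this
  have hP0 : (P : ℤ) ≠ 0 := by
    have : 1 ≤ P := by omega
    positivity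
  have h2 : (T.image f).card ≤ 2 * (P * (k.natAbs + 1)) / (P : ℤ).natAbs + 1 := by
    apply card_spreadA _ (P : ℤ) hP0 y (P * (k.natAbs + 1))
    intro z hz
    rw [Finset.mem_image] at hz
    obtain ⟨x, hx, rfl⟩ := hz
    have h3 := hf x hx
    have h4 := (hT x hx).1
    have h5 : f x * P + y = (x * k + y + f x * P) - x * k := by ring
    rw [h5]
    refine (abs_sub _ _).trans ?_
    rw [abs_mul]
    push_cast
    have h6 : |x| * |k| ≤ P * |k| := mul_le_mul_of_nonneg_right h4 (abs_nonneg k)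
    have h7 : (A : ℤ) ≤ P := by exact_mod_cast hP
    nlinarith
  have h8 : 2 * (P * (k.natAbs + 1)) / (P : ℤ).natAbs = 2 * (k.natAbs + 1) := by
    rw [Int.natAbs_natCast, show 2 * (P * (k.natAbs + 1)) = P * (2 * (k.natAbs + 1)) from by ring]
    exact Nat.mul_div_cancel_left _ (by omega)
  rw [h8] at h2
  set m := 2 * A / k.natAbs with hm
  have hm1 : m * k.natAbs ≤ 2 * A := Nat.div_mul_le_self _ _
  have hm2 : m ≤ 2 * A := Nat.div_le_self _ _
  calc T.card ≤ (m + 1) * (T.image f).card := h1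
    _ ≤ (m + 1) * (2 * (k.natAbs + 1) + 1) := Nat.mul_le_mul_left _ h2
    _ = 2 * (m * k.natAbs) + 2 * k.natAbs + 3 * m + 3 := by ring
    _ ≤ 15 * A := by omega

lemma pair_boundA1 (P A R : ℕ) (hR : 1 ≤ R) (hA : R ≤ A) (hP : A ≤ P) (k1 k2 : ℤ)
    (hk : k1 ≠ 0) (hkR : |k1| ≤ R) (T : Finset (ℤ × ℤ))
    (hT : ∀ q ∈ T, |q.1| ≤ P ∧ |q.2| ≤ P ∧ ∃ z : ℤ, |q.1 * k1 + q.2 * k2 + z * P| ≤ A) :
    T.card ≤ 15 * A * (2 * P + 1) := by
  classical
  have h1 : T.card ≤ 15 * A * (T.image Prod.snd).card := by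
    apply Finset.card_le_mul_card_image
    intro s _
    have h2 : (T.filter (fun q => q.2 = s)).card =
        ((T.filter (fun q => q.2 = s)).image Prod.fst).card := by
      rw [Finset.card_image_of_injOn]
      intro q hq q' hq' h
      simp only [Finset.coe_filter, Set.mem_ofPred_eq] at hq hq'
      exact Prod.ext h (hq.2.trans hq'.2.symm)
    rw [h2]
    apply row_boundA P A R hR hA hP k1 (s * k2) hk hkR
    intro x hx
    rw [Finset.mem_image] at hx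
    obtain ⟨q, hq, rfl⟩ := hx
    rw [Finset.mem_filter] at hq
    obtain ⟨h3, h4, z, hz⟩ := hT q hq.1
    refine ⟨h3, z, ?_⟩
    rw [← hq.2]
    exact hz
  have h2 : (T.image Prod.snd).card ≤ 2 * P + 1 := by
    have hsub : T.image Prod.snd ⊆ Finset.Icc (-(P : ℤ)) P := by
      intro s hs
      rw [Finset.mem_image] at hs
      obtain ⟨q, hq, rfl⟩ := hs
      rw [Finset.mem_Icc]
      exact abs_le.1 (hT q hq).2.1
    have := Finset.card_le_card hsub
    rw [Int.card_Icc] at this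
    omega
  exact h1.trans (Nat.mul_le_mul_left _ h2)

lemma pair_boundA2 (P A R : ℕ) (hR : 1 ≤ R) (hA : R ≤ A) (hP : A ≤ P) (k1 k2 : ℤ)
    (hk : k2 ≠ 0) (hkR : |k2| ≤ R) (T : Finset (ℤ × ℤ))
    (hT : ∀ q ∈ T, |q.1| ≤ P ∧ |q.2| ≤ P ∧ ∃ z : ℤ, |q.1 * k1 + q.2 * k2 + z * P| ≤ A) :
    T.card ≤ 15 * A * (2 * P + 1) := by
  classical
  have h1 : T.card = (T.image Prod.swap).card := by
    rw [Finset.card_image_of_injective _ Prod.swap_injective]
  rw [h1]
  apply pair_boundA1 P A R hR hA hP k2 k1 hk hkR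
  intro q hq
  rw [Finset.mem_image] at hq
  obtain ⟨q', hq', rfl⟩ := hq
  obtain ⟨h3, h4, z, hz⟩ := hT q' hq'
  refine ⟨h4, h3, z, ?_⟩
  simp only [Prod.fst_swap, Prod.snd_swap]
  rw [add_comm (q'.2 * k2)]
  exact hz

theorem count_bad (P A R : ℕ) (hR : 1 ≤ R) (hA : R ≤ A) (hP : A ≤ P) (S : Finset (ℤ × ℤ))
    (hS : ∀ q ∈ S, |q.1| ≤ P ∧ |q.2| ≤ P ∧ ∃ k1 k2 k3 : ℤ, ¬ (k1 = 0 ∧ k2 = 0) ∧ |k1| ≤ R ∧
      |k2| ≤ R ∧ |q.1 * k1 + q.2 * k2 + k3 * P| ≤ A) : S.card ≤ 1000 * P * A * R ^ 2 := by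
  classical
  have hz : ∀ q : ℤ × ℤ, ∃ k : ℤ × ℤ, q ∈ S → ¬ (k.1 = 0 ∧ k.2 = 0) ∧ |k.1| ≤ R ∧ |k.2| ≤ R ∧
      ∃ z : ℤ, |q.1 * k.1 + q.2 * k.2 + z * P| ≤ A := by
    intro q
    by_cases hq : q ∈ S
    · obtain ⟨_, _, k1, k2, k3, h⟩ := hS q hq
      exact ⟨(k1, k2), fun _ => ⟨h.1, h.2.1, h.2.2.1, k3, h.2.2.2⟩⟩
    · exact ⟨0, fun h => absurd h hq⟩
  choose f hf using hz
  have h1 : S.card ≤ 15 * A * (2 * P + 1) * (S.image f).card := by
    apply Finset.card_le_mul_card_image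
    intro k hk
    rw [Finset.mem_image] at hk
    obtain ⟨q0, hq0, hk0⟩ := hk
    obtain ⟨hne, hk1, hk2, -⟩ := hf q0 hq0
    rw [hk0] at hne hk1 hk2
    have hT : ∀ q ∈ S.filter (fun q => f q = k), |q.1| ≤ P ∧ |q.2| ≤ P ∧
        ∃ z : ℤ, |q.1 * k.1 + q.2 * k.2 + z * P| ≤ A := by
      intro q hq
      rw [Finset.mem_filter] at hq
      obtain ⟨h3, h4, -⟩ := hS q hq.1
      obtain ⟨-, -, -, z, hz⟩ := hf q hq.1
      rw [hq.2] at hz
      exact ⟨h3, h4, z, hz⟩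
    by_cases h0 : k.1 = 0
    · exact pair_boundA2 P A R hR hA hP k.1 k.2 (fun h => hne ⟨h0, h⟩) hk2 _ hT
    · exact pair_boundA1 P A R hR hA hP k.1 k.2 h0 hk1 _ hT
  have h2 : (S.image f).card ≤ (2 * R + 1) * (2 * R + 1) := by
    have hsub : S.image f ⊆ Finset.Icc (-(R : ℤ)) R ×ˢ Finset.Icc (-(R : ℤ)) R := by
      intro k hk
      rw [Finset.mem_image] at hk
      obtain ⟨q0, hq0, rfl⟩ := hk
      obtain ⟨-, hk1, hk2, -⟩ := hf q0 hq0
      rw [Finset.mem_product, Finset.mem_Icc, Finset.mem_Icc]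
      exact ⟨abs_le.1 hk1, abs_le.1 hk2⟩
    have := Finset.card_le_card hsub
    rw [Finset.card_product, Int.card_Icc] at this
    have h3 : ((R : ℤ) + 1 - -(R : ℤ)).toNat = 2 * R + 1 := by omega
    rw [h3] at this
    exact this
  have h4 : 2 * P + 1 ≤ 3 * P := by omega
  have h5 : 2 * R + 1 ≤ 3 * R := by omega
  calc S.card ≤ 15 * A * (2 * P + 1) * (S.image f).card := h1
    _ ≤ 15 * A * (3 * P) * ((3 * R) * (3 * R)) := by
        apply Nat.mul_le_mul (Nat.mul_le_mul_left _ h4)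
        exact h2.trans (Nat.mul_le_mul h5 h5)
    _ = 405 * (P * A * R ^ 2) := by ring
    _ ≤ 1000 * (P * A * R ^ 2) := Nat.mul_le_mul_right _ (by norm_num)
    _ = 1000 * P * A * R ^ 2 := by ring

end Pool.Agent.Novik
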