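import Pool.Agent.Novik.Defs

/-!
# NOV-F: the number of the grid cubes which meet a level, for almost every level
-/

namespace Pool.Agent.Novik

open MeasureTheory Filter Set

/-- the indices of the cubes -/
noncomputable def CuF (n : ℕ) : Finset (ℤ × ℤ × ℤ) :=
  (Finset.Ico (0 : ℤ) n) ×ˢ ((Finset.Ico (0 : ℤ) n) ×ˢ (Finset.Ico (0 : ℤ) n))

lemma card_CuF (n : ℕ) : (CuF n).card = n ^ 3 := by
  unfold CuF
  rw [Finset.card_product, Finset.card_product, Int.card_Ico]
  simp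
  ring

/-- the levels near the corner value of a cube -/
def IvF (G : ℝ → ℝ → ℝ → ℝ) (L n : ℕ) (p : ℤ × ℤ × ℤ) : Set ℝ :=
  Icc (G (p.1 / n) (p.2.1 / n) (p.2.2 / n) - L / n) (G (p.1 / n) (p.2.1 / n) (p.2.2 / n) + L / n)

lemma nice_fract {G : ℝ → ℝ → ℝ → ℝ} {L : ℕ} (hG : Nice G L) (u v t : ℝ) :
    G (Int.fract u) (Int.fract v) (Int.fract t) = G u v t := by
  have h1 : ∀ v t : ℝ, Function.Periodic (fun u => G u v t) 1 := fun v t u => hG.per1 u v t
  have h2 : ∀ u t : ℝ, Function.Periodic (fun v => G u v t) 1 := fun u t v => hG.per2 u v t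
  have h3 : ∀ u v : ℝ, Function.Periodic (fun t => G u v t) 1 := fun u v t => hG.per3 u v t
  have e1 : G (Int.fract u) (Int.fract v) (Int.fract t) = G u (Int.fract v) (Int.fract t) := by
    have := (h1 (Int.fract v) (Int.fract t)).sub_int_mul_eq (x := u) ⌊u⌋
    rw [mul_one] at this
    exact this
  have e2 : G u (Int.fract v) (Int.fract t) = G u v (Int.fract t) := by
    have := (h2 u (Int.fract t)).sub_int_mul_eq (x := v) ⌊v⌋
    rw [mul_one] at this
    exact this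
  have e3 : G u v (Int.fract t) = G u v t := by
    have := (h3 u v).sub_int_mul_eq (x := t) ⌊t⌋
    rw [mul_one] at this
    exact this
  rw [e1, e2, e3]

lemma fract_near (n : ℕ) (hn : 1 ≤ n) (u : ℝ) :
    (0 : ℤ) ≤ ⌊n * Int.fract u⌋ ∧ ⌊n * Int.fract u⌋ < (n : ℤ) ∧
      |Int.fract u - (⌊n * Int.fract u⌋ : ℝ) / n| ≤ 1 / n := by
  have hn0 : (0 : ℝ) < n := by exact_mod_cast hn
  have h0 := Int.fract_nonneg u
  have h1 := Int.fract_lt_one u
  refine ⟨Int.floor_nonneg.2 (by positivity), Int.floor_lt.2 ?_, ?_⟩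
  · push_cast
    nlinarith
  · have h2 := Int.floor_le ((n : ℝ) * Int.fract u)
    have h3 := Int.lt_floor_add_one ((n : ℝ) * Int.fract u)
    have h4 : Int.fract u - (⌊n * Int.fract u⌋ : ℝ) / n =
        (n * Int.fract u - ⌊n * Int.fract u⌋) / n := by
      field_simp
    rw [h4, abs_div, abs_of_pos hn0]
    apply div_le_div_of_nonneg_right _ hn0.le
    rw [abs_le]
    constructor <;> linarith

lemma level_sub {G : ℝ → ℝ → ℝ → ℝ} {L : ℕ} (hG : Nice G L) (n : ℕ) (hn : 1 ≤ n) (c : ℝ) :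
    ∀ p ∈ levelCubes G n c, p ∈ CuF n ∧ c ∈ IvF G L n p := by
  rintro p ⟨u, v, t, rfl, rfl⟩
  obtain ⟨a1, a2, a3⟩ := fract_near n hn u
  obtain ⟨b1, b2, b3⟩ := fract_near n hn v
  obtain ⟨c1, c2, c3⟩ := fract_near n hn t
  constructor
  · simp only [CuF, cube, Finset.mem_product, Finset.mem_Ico]
    exact ⟨⟨a1, a2⟩, ⟨b1, b2⟩, ⟨c1, c2⟩⟩
  · have hL := hG.lip (Int.fract u) (Int.fract v) (Int.fract t)
      ((⌊n * Int.fract u⌋ : ℝ) / n) ((⌊n * Int.fract v⌋ : ℝ) / n) ((⌊n * Int.fract t⌋ : ℝ) / n)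
    rw [nice_fract hG] at hL
    have hm : max (max |Int.fract u - (⌊n * Int.fract u⌋ : ℝ) / n|
        |Int.fract v - (⌊n * Int.fract v⌋ : ℝ) / n|)
        |Int.fract t - (⌊n * Int.fract t⌋ : ℝ) / n| ≤ 1 / n := max_le (max_le a3 b3) c3
    have h5 : (L : ℝ) * max (max |Int.fract u - (⌊n * Int.fract u⌋ : ℝ) / n|
        |Int.fract v - (⌊n * Int.fract v⌋ : ℝ) / n|)
        |Int.fract t - (⌊n * Int.fract t⌋ : ℝ) / n| ≤ L / n := by
      calc _ ≤ (L : ℝ) * (1 / n) := mul_le_mul_of_nonneg_left hm (Nat.cast_nonneg L)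
        _ = L / n := by ring
    have h6 := abs_le.1 (hL.trans h5)
    unfold IvF cube
    rw [mem_Icc]
    constructor <;> simp only <;> linarith [h6.1, h6.2]

/-- the number of the cubes near the level `c` -/
noncomputable def cntF (G : ℝ → ℝ → ℝ → ℝ) (L n : ℕ) (c : ℝ) : ENNReal :=
  ∑ p ∈ CuF n, (IvF G L n p).indicator (fun _ => (1 : ENNReal)) c

lemma measurable_cntF (G : ℝ → ℝ → ℝ → ℝ) (L n : ℕ) : Measurable (cntF G L n) := by
  unfold cntF
  apply Finset.measurable_sum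
  intro p _
  exact measurable_const.indicator measurableSet_Icc

lemma lintegral_cntF (G : ℝ → ℝ → ℝ → ℝ) (L n : ℕ) (hn : 1 ≤ n) :
    ∫⁻ c, cntF G L n c ≤ ENNReal.ofReal (2 * L * n ^ 2) := by
  have hn0 : (0 : ℝ) < n := by exact_mod_cast hn
  unfold cntF
  have hmeas : ∀ p, MeasurableSet (IvF G L n p) := fun p => measurableSet_Icc
  rw [lintegral_finsetSum _ (fun p _ => measurable_const.indicator (hmeas p))]
  have h : ∀ p ∈ CuF n, ∫⁻ c, (IvF G L n p).indicator (fun _ => (1 : ENNReal)) c ≤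
      ENNReal.ofReal (2 * L / n) := by
    intro p _
    rw [lintegral_indicator (hmeas p)]
    simp only [lintegral_const, one_mul, Measure.restrict_apply, MeasurableSet.univ, univ_inter]
    unfold IvF
    rw [Real.volume_Icc]
    apply ENNReal.ofReal_le_ofReal
    apply le_of_eq
    ring
  refine (Finset.sum_le_sum h).trans ?_
  rw [Finset.sum_const, card_CuF, nsmul_eq_mul]
  have : ((n ^ 3 : ℕ) : ENNReal) = ENNReal.ofReal ((n : ℝ) ^ 3) := by
    rw [ENNReal.ofReal_pow hn0.le]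
    simp
  rw [this, ← ENNReal.ofReal_mul (by positivity)]
  apply ENNReal.ofReal_le_ofReal
  apply le_of_eq
  field_simp

theorem ae_levelCubes {G : ℝ → ℝ → ℝ → ℝ} {L : ℕ} (hG : Nice G L) :
    ∀ᵐ c : ℝ, ∃ g : ℕ, ∀ i : ℕ, (levelCubes G (2 ^ i) c).Finite ∧
      (levelCubes G (2 ^ i) c).ncard ≤ g * (i + 1) ^ 2 * 4 ^ i := by
  classical
  have hpos : ∀ i : ℕ, (1 : ℕ) ≤ 2 ^ i := fun i => Nat.one_le_two_pow
  set s : ℕ → Set ℝ := fun i =>
    {c : ℝ | ENNReal.ofReal (((i : ℝ) + 1) ^ 2 * 4 ^ i) ≤ cntF G L (2 ^ i) c} with hs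
  have hsum : ∑' i, volume (s i) ≠ ⊤ := by
    have hle : ∀ i, volume (s i) ≤ ENNReal.ofReal (2 * L * (1 / ((i : ℝ) + 1) ^ 2)) := by
      intro i
      have hp : (0 : ℝ) < ((i : ℝ) + 1) ^ 2 * 4 ^ i := by positivity
      refine (meas_ge_le_lintegral_div (measurable_cntF G L (2 ^ i)).aemeasurable
        (by simpa using hp) ENNReal.ofReal_ne_top).trans ?_
      refine (ENNReal.div_le_div_right (lintegral_cntF G L (2 ^ i) (hpos i)) _).trans ?_
      rw [← ENNReal.ofReal_div_of_pos hp]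
      apply ENNReal.ofReal_le_ofReal
      apply le_of_eq
      have h4 : ((2 : ℝ) ^ i) ^ 2 = 4 ^ i := by
        rw [← pow_mul, mul_comm, pow_mul]; norm_num
      push_cast
      rw [h4]
      field_simp
    have hsumm : Summable fun i : ℕ => 2 * (L : ℝ) * (1 / ((i : ℝ) + 1) ^ 2) := by
      have h0 : Summable fun n : ℕ => 1 / (n : ℝ) ^ 2 :=
        Real.summable_one_div_nat_pow.2 (by norm_num)
      have h1 := (summable_nat_add_iff 1).2 h0
      refine (h1.mul_left (2 * (L : ℝ))).congr fun n => ?_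
      push_cast
      ring
    refine ne_top_of_le_ne_top ?_ (ENNReal.tsum_le_tsum hle)
    exact hsumm.tsum_ofReal_ne_top
  filter_upwards [ae_eventually_notMem hsum] with c hc
  obtain ⟨N, hN⟩ := eventually_atTop.1 hc
  have hsub : ∀ i, levelCubes G (2 ^ i) c ⊆
      ((CuF (2 ^ i)).filter (fun p => c ∈ IvF G L (2 ^ i) p) : Finset _) := by
    intro i p hp
    rw [Finset.mem_coe, Finset.mem_filter]
    exact level_sub hG (2 ^ i) (hpos i) c p hp
  refine ⟨8 ^ N, fun i => ⟨(Finset.finite_toSet _).subset (hsub i), ?_⟩⟩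
  have hcard : (levelCubes G (2 ^ i) c).ncard ≤
      ((CuF (2 ^ i)).filter (fun p => c ∈ IvF G L (2 ^ i) p)).card := by
    rw [← ncard_coe_finset]
    exact ncard_le_ncard (hsub i) (Finset.finite_toSet _)
  refine hcard.trans ?_
  by_cases hi : N ≤ i
  · have h1 := hN i hi
    simp only [hs, mem_ofPred_eq, not_le] at h1
    have h2 : (((CuF (2 ^ i)).filter (fun p => c ∈ IvF G L (2 ^ i) p)).card : ENNReal) =
        cntF G L (2 ^ i) c := by
      unfold cntF
      rw [Finset.card_filter]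
      push_cast
      apply Finset.sum_congr rfl
      intro p _
      simp [indicator]
    rw [← h2] at h1
    have h3 : ENNReal.ofReal (((i : ℝ) + 1) ^ 2 * 4 ^ i) =
        (((i + 1) ^ 2 * 4 ^ i : ℕ) : ENNReal) := by
      rw [← ENNReal.ofReal_natCast]
      push_cast
      rfl
    rw [h3] at h1
    have h4 : ((CuF (2 ^ i)).filter (fun p => c ∈ IvF G L (2 ^ i) p)).card <
        (i + 1) ^ 2 * 4 ^ i := by exact_mod_cast h1
    refine h4.le.trans ?_
    rw [mul_assoc]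
    exact Nat.le_mul_of_pos_left _ (by positivity)
  · push Not at hi
    refine (Finset.card_filter_le _ _).trans ?_
    rw [card_CuF]
    have h1 : (2 ^ i) ^ 3 = 8 ^ i := by
      rw [← pow_mul, mul_comm, pow_mul]
      norm_num
    rw [h1]
    calc 8 ^ i ≤ 8 ^ N := Nat.pow_le_pow_right (by norm_num) hi.le
      _ ≤ 8 ^ N * ((i + 1) ^ 2 * 4 ^ i) := Nat.le_mul_of_pos_right _ (by positivity)
      _ = 8 ^ N * (i + 1) ^ 2 * 4 ^ i := by ring

end Pool.Agent.Novik
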