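import Pool.Agent.Novik.Defs

/-!
# NOV-B: the number of dirty squares, for almost every level
-/

namespace Pool.Agent.Novik

open MeasureTheory Filter Set

/-- the infimum of `e` over the square -/
noncomputable def loS (e : ℝ × ℝ → ℝ) (l : ℕ) (q : ℤ × ℤ) : ℝ := sInf (e '' Tsq l q)

/-- the supremum of `e` over the square -/
noncomputable def hiS (e : ℝ × ℝ → ℝ) (l : ℕ) (q : ℤ × ℤ) : ℝ := sSup (e '' Tsq l q)

/-- the closed set of the levels which can be dirty for `q` -/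
def WS (e : ℝ × ℝ → ℝ) (V K : ℝ) (b : ℕ → Finset (ℤ × ℤ)) (l : ℕ) (q : ℤ × ℤ) : Set ℝ :=
  Icc (-V) V ∩ ⋂ i : ℕ, {c : ℝ | i ≤ l → q ∉ b i →
    c ∈ Icc (loS e l q) (loS e l q + K / 2 ^ i) ∪ Icc (hiS e l q - K / 2 ^ i) (hiS e l q)}

lemma measurable_WS (e : ℝ × ℝ → ℝ) (V K : ℝ) (b : ℕ → Finset (ℤ × ℤ)) (l : ℕ) (q : ℤ × ℤ) :
    MeasurableSet (WS e V K b l q) := by
  unfold WS
  refine measurableSet_Icc.inter (MeasurableSet.iInter fun i => ?_)
  by_cases h : i ≤ l ∧ q ∉ b i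
  · have : {c : ℝ | i ≤ l → q ∉ b i →
        c ∈ Icc (loS e l q) (loS e l q + K / 2 ^ i) ∪ Icc (hiS e l q - K / 2 ^ i) (hiS e l q)}
        = Icc (loS e l q) (loS e l q + K / 2 ^ i) ∪
          Icc (hiS e l q - K / 2 ^ i) (hiS e l q) := by
      ext c
      simp only [mem_ofPred_eq]
      exact ⟨fun h' => h' h.1 h.2, fun h' _ _ => h'⟩
    rw [this]
    exact measurableSet_Icc.union measurableSet_Icc
  · have : {c : ℝ | i ≤ l → q ∉ b i →
        c ∈ Icc (loS e l q) (loS e l q + K / 2 ^ i) ∪ Icc (hiS e l q - K / 2 ^ i) (hiS e l q)}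
        = univ := by
      ext c
      simp only [mem_ofPred_eq, mem_univ, iff_true]
      intro h1 h2
      exact absurd ⟨h1, h2⟩ h
    rw [this]
    exact MeasurableSet.univ

lemma vol_WS_good (e : ℝ × ℝ → ℝ) (V K : ℝ) (hK : 0 < K) (b : ℕ → Finset (ℤ × ℤ)) (l : ℕ)
    (q : ℤ × ℤ) (i : ℕ) (hi : i ≤ l) (hq : q ∉ b i) :
    volume (WS e V K b l q) ≤ ENNReal.ofReal (2 * K / 2 ^ i) := by
  have hsub : WS e V K b l q ⊆ Icc (loS e l q) (loS e l q + K / 2 ^ i) ∪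
          Icc (hiS e l q - K / 2 ^ i) (hiS e l q) := by
    intro c hc
    have := mem_iInter.1 hc.2 i
    exact this hi hq
  refine (measure_mono hsub).trans ((measure_union_le _ _).trans ?_)
  rw [Real.volume_Icc, Real.volume_Icc, ← ENNReal.ofReal_add]
  · apply ENNReal.ofReal_le_ofReal
    apply le_of_eq
    ring
  · have : 0 < K / 2 ^ i := by positivity
    linarith
  · have : 0 < K / 2 ^ i := by positivity
    linarith

lemma vol_WS (e : ℝ × ℝ → ℝ) (V K : ℝ) (hV : 0 ≤ V) (hK : 0 < K) (b : ℕ → Finset (ℤ × ℤ))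
    (l : ℕ) (q : ℤ × ℤ) (j : ℕ) (hj : j ≤ l) :
    volume (WS e V K b l q) ≤ ENNReal.ofReal (2 * K / 2 ^ j +
      ∑ i ∈ Finset.range (j + 1), if q ∈ b i then (4 * K + 2 * V) / 2 ^ i else 0) := by
  induction j with
  | zero =>
    by_cases hq : q ∈ b 0
    · have hsub : WS e V K b l q ⊆ Icc (-V) V := inter_subset_left
      refine (measure_mono hsub).trans ?_
      rw [Real.volume_Icc]
      apply ENNReal.ofReal_le_ofReal
      simp only [Finset.range_one, Finset.sum_singleton, if_pos hq, zero_add, pow_zero, div_one]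
      linarith
    · refine (vol_WS_good e V K hK b l q 0 hj hq).trans ?_
      apply ENNReal.ofReal_le_ofReal
      simp [if_neg hq]
  | succ j ih =>
    by_cases hq : q ∈ b (j + 1)
    · refine (ih (by omega)).trans ?_
      apply ENNReal.ofReal_le_ofReal
      rw [Finset.sum_range_succ _ (j + 1), if_pos hq]
      have h1 : 2 * K / 2 ^ j = 4 * K / 2 ^ (j + 1) := by
        rw [pow_succ]; field_simp; ring
      have h2 : (0 : ℝ) ≤ 2 * V / 2 ^ (j + 1) := by positivity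
      have h3 : (0 : ℝ) ≤ 2 * K / 2 ^ (j + 1) := by positivity
      have h4 : (4 * K + 2 * V) / 2 ^ (j + 1) = 4 * K / 2 ^ (j + 1) + 2 * V / 2 ^ (j + 1) := by
        ring
      rw [h1, h4]
      linarith
    · refine (vol_WS_good e V K hK b l q (j + 1) hj hq).trans ?_
      apply ENNReal.ofReal_le_ofReal
      have : (0 : ℝ) ≤ ∑ i ∈ Finset.range (j + 1 + 1),
          if q ∈ b i then (4 * K + 2 * V) / 2 ^ i else 0 := by
        apply Finset.sum_nonneg
        intro i _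
        split_ifs
        · positivity
        · exact le_rfl
      linarith

/-- a dirty level lies in the closed set `WS` -/
lemma mem_WS (e : ℝ × ℝ → ℝ) (V K : ℝ) (hV : ∀ p, |e p| ≤ V) (b : ℕ → Finset (ℤ × ℤ)) (l : ℕ)
    (q : ℤ × ℤ) (c : ℝ)
    (h2 : ∀ i ≤ l, q ∉ b i → ∀ p ∈ Tsq l q, ∀ p' ∈ Tsq l q,
      ¬ (e p < c - K / 2 ^ i ∧ c + K / 2 ^ i < e p'))
    (hc : ¬ Clear e c l q) : c ∈ WS e V K b l q := by
  have hbb : BddBelow (e '' Tsq l q) := ⟨-V, by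
    rintro _ ⟨p, _, rfl⟩
    exact (abs_le.1 (hV p)).1⟩
  have hba : BddAbove (e '' Tsq l q) := ⟨V, by
    rintro _ ⟨p, _, rfl⟩
    exact (abs_le.1 (hV p)).2⟩
  have hne : (e '' Tsq l q).Nonempty := by
    refine ⟨_, ((q.1 : ℝ) / 8 ^ l, (q.2 : ℝ) / 8 ^ l), ?_, rfl⟩
    simp [Tsq]
  have key : ∀ η : ℝ, 0 < η → ∃ p ∈ Tsq l q, |e p - c| < η := by
    intro η hη
    unfold Clear at hc
    push Not at hc
    obtain ⟨p, hp1, hp2, hp3, hp4, hp5⟩ := hc (min η 1) (lt_min hη one_pos)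
    refine ⟨p, ?_, lt_of_lt_of_le hp5 (min_le_left _ _)⟩
    have h8 : (0 : ℝ) < 8 ^ l := by positivity
    have hm : min η 1 ≤ 1 := min_le_right _ _
    have hm0 : 0 < min η 1 := lt_min hη one_pos
    have aux : ∀ (x : ℝ) (z : ℝ), z - min η 1 ≤ 8 ^ l * x → 8 ^ l * x ≤ z + 1 + min η 1 →
        (8 : ℝ) ^ l * |x - z / 8 ^ l| ≤ 2 := by
      intro x z h1 h2
      have : (8 : ℝ) ^ l * |x - z / 8 ^ l| = |8 ^ l * x - z| := by
        rw [← abs_of_pos h8, ← abs_mul, abs_of_pos h8]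
        congr 1
        field_simp
      rw [this, abs_le]
      constructor <;> linarith
    exact ⟨aux _ _ hp1 hp2, aux _ _ hp3 hp4⟩
  have hlo : loS e l q ≤ c := by
    apply le_of_forall_pos_lt_add
    intro η hη
    obtain ⟨p, hp, hpc⟩ := key η hη
    have h := csInf_le hbb (mem_image_of_mem e hp)
    have := (abs_lt.1 hpc).2
    unfold loS
    linarith
  have hhi : c ≤ hiS e l q := by
    apply le_of_forall_pos_lt_add
    intro η hη
    obtain ⟨p, hp, hpc⟩ := key η hη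
    have h := le_csSup hba (mem_image_of_mem e hp)
    have := (abs_lt.1 hpc).1
    unfold hiS
    linarith
  have hV1 : -V ≤ loS e l q := le_csInf hne (by
    rintro _ ⟨p, _, rfl⟩
    exact (abs_le.1 (hV p)).1)
  have hV2 : hiS e l q ≤ V := csSup_le hne (by
    rintro _ ⟨p, _, rfl⟩
    exact (abs_le.1 (hV p)).2)
  refine ⟨⟨hV1.trans hlo, hhi.trans hV2⟩, mem_iInter.2 fun i => ?_⟩
  intro hi hq
  by_contra hcon
  rw [mem_union, not_or] at hcon
  have h3 : loS e l q < c - K / 2 ^ i := by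
    by_contra h4
    exact hcon.1 ⟨hlo, by linarith⟩
  have h5 : c + K / 2 ^ i < hiS e l q := by
    by_contra h4
    exact hcon.2 ⟨by linarith, hhi⟩
  obtain ⟨_, ⟨p, hp, rfl⟩, hp'⟩ := exists_lt_of_csInf_lt hne h3
  obtain ⟨_, ⟨p', hp1, rfl⟩, hp1'⟩ := exists_lt_of_lt_csSup hne h5
  exact h2 i hi hq p hp p' hp1 ⟨hp', hp1'⟩

/-- the number of the squares whose closed set contains `c` -/
noncomputable def cntS (e : ℝ × ℝ → ℝ) (V K : ℝ) (b : ℕ → Finset (ℤ × ℤ)) (l : ℕ) (c : ℝ) :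
    ENNReal := ∑ q ∈ Sq l, (WS e V K b l q).indicator (fun _ => (1 : ENNReal)) c

lemma measurable_cntS (e : ℝ × ℝ → ℝ) (V K : ℝ) (b : ℕ → Finset (ℤ × ℤ)) (l : ℕ) :
    Measurable (cntS e V K b l) := by
  unfold cntS
  apply Finset.measurable_sum
  intro q _
  exact measurable_const.indicator (measurable_WS e V K b l q)

lemma card_Sq (l : ℕ) : ((Sq l).card : ℝ) ≤ 9 * 64 ^ l := by
  unfold Sq
  rw [Finset.card_product, Int.card_Icc]
  have h1 : ((8 : ℤ) ^ l + 1 - -(8 : ℤ) ^ l).toNat = 2 * 8 ^ l + 1 := by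
    have : (8 : ℤ) ^ l + 1 - -(8 : ℤ) ^ l = ((2 * 8 ^ l + 1 : ℕ) : ℤ) := by
      push_cast
      ring
    rw [this, Int.toNat_natCast]
  rw [h1]
  push_cast
  have h2 : (1 : ℝ) ≤ 8 ^ l := one_le_pow₀ (by norm_num)
  have h3 : (64 : ℝ) ^ l = 8 ^ l * 8 ^ l := by
    rw [← mul_pow]; norm_num
  rw [h3]
  nlinarith

lemma sum_bound (K V C : ℝ) (hV : 0 ≤ V) (hK : 0 < K) (hC : 0 ≤ C) (b : ℕ → Finset (ℤ × ℤ))
    (l : ℕ) (h1 : ∀ i ≤ l, ((b i).card : ℝ) ≤ C * (l + 1) ^ 6 * 8 ^ l * 8 ^ i) :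
    ∑ q ∈ Sq l, (2 * K / 2 ^ l +
      ∑ i ∈ Finset.range (l + 1), if q ∈ b i then (4 * K + 2 * V) / 2 ^ i else 0) ≤
      (18 * K + (4 * K + 2 * V) * C) * (l + 1) ^ 7 * 32 ^ l := by
  rw [Finset.sum_add_distrib, Finset.sum_comm, Finset.sum_const, nsmul_eq_mul]
  have hE : 0 ≤ 4 * K + 2 * V := by positivity
  have h32 : (64 : ℝ) ^ l / 2 ^ l = 32 ^ l := by
    rw [← div_pow]; norm_num
  have hA : ((Sq l).card : ℝ) * (2 * K / 2 ^ l) ≤ 18 * K * 32 ^ l := by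
    calc ((Sq l).card : ℝ) * (2 * K / 2 ^ l) ≤ (9 * 64 ^ l) * (2 * K / 2 ^ l) :=
          mul_le_mul_of_nonneg_right (card_Sq l) (by positivity)
      _ = 18 * K * (64 ^ l / 2 ^ l) := by ring
      _ = 18 * K * 32 ^ l := by rw [h32]
  have hB : ∀ i ∈ Finset.range (l + 1),
      ∑ q ∈ Sq l, (if q ∈ b i then (4 * K + 2 * V) / 2 ^ i else 0) ≤
        (4 * K + 2 * V) * C * (l + 1) ^ 6 * 32 ^ l := by
    intro i hi
    have hil : i ≤ l := by
      have := Finset.mem_range.1 hi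
      omega
    rw [← Finset.sum_filter, Finset.sum_const, nsmul_eq_mul]
    have hc : (((Sq l).filter (fun q => q ∈ b i)).card : ℝ) ≤ ((b i).card : ℝ) := by
      exact_mod_cast Finset.card_le_card (fun q hq => (Finset.mem_filter.1 hq).2)
    have h4 : (8 : ℝ) ^ i / 2 ^ i = 4 ^ i := by
      rw [← div_pow]; norm_num
    have h4l : (4 : ℝ) ^ i ≤ 4 ^ l := pow_le_pow_right₀ (by norm_num) hil
    have h84 : (8 : ℝ) ^ l * 4 ^ l = 32 ^ l := by
      rw [← mul_pow]; norm_num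
    calc (((Sq l).filter (fun q => q ∈ b i)).card : ℝ) * ((4 * K + 2 * V) / 2 ^ i)
        ≤ (C * (l + 1) ^ 6 * 8 ^ l * 8 ^ i) * ((4 * K + 2 * V) / 2 ^ i) :=
          mul_le_mul_of_nonneg_right (hc.trans (h1 i hil)) (by positivity)
      _ = (4 * K + 2 * V) * C * (l + 1) ^ 6 * (8 ^ l * (8 ^ i / 2 ^ i)) := by ring
      _ ≤ (4 * K + 2 * V) * C * (l + 1) ^ 6 * (8 ^ l * 4 ^ l) := by
          rw [h4]
          gcongr
      _ = (4 * K + 2 * V) * C * (l + 1) ^ 6 * 32 ^ l := by rw [h84]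
  have hB' := Finset.sum_le_sum hB
  rw [Finset.sum_const, Finset.card_range, nsmul_eq_mul] at hB'
  have h7 : (1 : ℝ) ≤ ((l : ℝ) + 1) ^ 7 := by
    apply one_le_pow₀
    have : (0 : ℝ) ≤ l := Nat.cast_nonneg l
    linarith
  calc _ ≤ 18 * K * 32 ^ l + ((l + 1 : ℕ) : ℝ) * ((4 * K + 2 * V) * C * (l + 1) ^ 6 * 32 ^ l) :=
        add_le_add hA hB'
    _ = 18 * K * 32 ^ l * 1 + (4 * K + 2 * V) * C * (l + 1) ^ 7 * 32 ^ l := by
        push_cast
        ring
    _ ≤ 18 * K * 32 ^ l * ((l : ℝ) + 1) ^ 7 + (4 * K + 2 * V) * C * (l + 1) ^ 7 * 32 ^ l := by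
        gcongr
    _ = _ := by ring

lemma lintegral_cntS (e : ℝ × ℝ → ℝ) (V K C : ℝ) (hV : 0 ≤ V) (hK : 0 < K) (hC : 0 ≤ C)
    (b : ℕ → Finset (ℤ × ℤ)) (l : ℕ)
    (h1 : ∀ i ≤ l, ((b i).card : ℝ) ≤ C * (l + 1) ^ 6 * 8 ^ l * 8 ^ i) :
    ∫⁻ c, cntS e V K b l c ≤
      ENNReal.ofReal ((18 * K + (4 * K + 2 * V) * C) * (l + 1) ^ 7 * 32 ^ l) := by
  unfold cntS
  rw [lintegral_finsetSum _ (fun q _ =>
    measurable_const.indicator (measurable_WS e V K b l q))]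
  calc ∑ q ∈ Sq l, ∫⁻ c, (WS e V K b l q).indicator (fun _ => (1 : ENNReal)) c
      = ∑ q ∈ Sq l, volume (WS e V K b l q) := by
        apply Finset.sum_congr rfl
        intro q _
        rw [lintegral_indicator (measurable_WS e V K b l q)]
        simp
    _ ≤ ∑ q ∈ Sq l, ENNReal.ofReal (2 * K / 2 ^ l +
      ∑ i ∈ Finset.range (l + 1), if q ∈ b i then (4 * K + 2 * V) / 2 ^ i else 0) :=
        Finset.sum_le_sum fun q _ => vol_WS e V K hV hK b l q l le_rfl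
    _ = ENNReal.ofReal (∑ q ∈ Sq l, (2 * K / 2 ^ l +
      ∑ i ∈ Finset.range (l + 1), if q ∈ b i then (4 * K + 2 * V) / 2 ^ i else 0)) := by
        rw [ENNReal.ofReal_sum_of_nonneg]
        intro q _
        apply add_nonneg
        · positivity
        · apply Finset.sum_nonneg
          intro i _
          split_ifs
          · positivity
          · exact le_rfl
    _ ≤ _ := ENNReal.ofReal_le_ofReal (sum_bound K V C hV hK hC b l h1)

/-- Markov: the measure of the levels with many dirty squares -/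
lemma meas_many (e : ℝ × ℝ → ℝ) (V K C : ℝ) (hV : 0 ≤ V) (hK : 0 < K) (hC : 0 ≤ C)
    (b : ℕ → Finset (ℤ × ℤ)) (l : ℕ) (T : ℝ) (hT : 0 < T)
    (h1 : ∀ i ≤ l, ((b i).card : ℝ) ≤ C * (l + 1) ^ 6 * 8 ^ l * 8 ^ i) :
    volume {c : ℝ | ENNReal.ofReal (32 ^ l * T) ≤ cntS e V K b l c} ≤
      ENNReal.ofReal ((18 * K + (4 * K + 2 * V) * C) * (l + 1) ^ 7 * T⁻¹) := by
  have hpos : 0 < (32 : ℝ) ^ l * T := by positivity
  refine (meas_ge_le_lintegral_div (measurable_cntS e V K b l).aemeasurable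
    (by simpa using hpos) ENNReal.ofReal_ne_top).trans ?_
  refine (ENNReal.div_le_div_right (lintegral_cntS e V K C hV hK hC b l h1) _).trans ?_
  rw [← ENNReal.ofReal_div_of_pos hpos]
  apply ENNReal.ofReal_le_ofReal
  apply le_of_eq
  field_simp

theorem ae_dirty (e : ℝ × ℝ → ℝ) (V K : ℝ) (hV : ∀ p, |e p| ≤ V) (hK : 0 < K)
    (A : ℕ → Set ℝ) (hA : ∀ᵐ c : ℝ, ∃ g, c ∈ A g) (bad : ℕ → ℕ → ℕ → Finset (ℤ × ℤ))
    (h1 : ∀ g, ∃ C : ℝ, ∀ᶠ l in atTop, ∀ i ≤ l,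
      ((bad g l i).card : ℝ) ≤ C * (l + 1) ^ 6 * 8 ^ l * 8 ^ i)
    (h2 : ∀ g, ∀ᶠ l in atTop, ∀ i ≤ l, ∀ q ∈ Sq l, q ∉ bad g l i → ∀ c ∈ A g,
      ∀ p ∈ Tsq l q, ∀ p' ∈ Tsq l q, ¬ (e p < c - K / 2 ^ i ∧ c + K / 2 ^ i < e p')) :
    ∀ᵐ c : ℝ, ∀ τ : ℝ, 0 < τ → ∀ᶠ l in atTop,
      ((dirty e c l).card : ℝ) ≤ 32 ^ l * (2 : ℝ) ^ (τ * l) := by
  have hV0 : 0 ≤ V := (abs_nonneg _).trans (hV 0)
  have main : ∀ g k : ℕ, ∀ᵐ c : ℝ, c ∈ A g → ∀ᶠ l : ℕ in atTop,
      ((dirty e c l).card : ℝ) ≤ 32 ^ l * ((2 : ℝ) ^ ((1 : ℝ) / (k + 1))) ^ l := by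
    intro g k
    obtain ⟨C', hC'⟩ := h1 g
    obtain ⟨N, hN⟩ := eventually_atTop.1 (hC'.and (h2 g))
    set C : ℝ := max C' 0 with hCdef
    have hC : 0 ≤ C := le_max_right _ _
    have hb : ∀ l, N ≤ l → ∀ i ≤ l,
        ((bad g l i).card : ℝ) ≤ C * (l + 1) ^ 6 * 8 ^ l * 8 ^ i := by
      intro l hl i hi
      refine ((hN l hl).1 i hi).trans ?_
      have : C' ≤ C := le_max_left _ _
      gcongr
    set r : ℝ := (2 : ℝ) ^ ((1 : ℝ) / (k + 1)) with hr
    have hr1 : 1 < r := Real.one_lt_rpow (by norm_num) (by positivity)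
    have hr0 : 0 < r := by linarith
    set D : ℝ := 18 * K + (4 * K + 2 * V) * C with hD
    have hD0 : 0 ≤ D := by positivity
    set s : ℕ → Set ℝ := fun n =>
      {c : ℝ | ENNReal.ofReal (32 ^ (n + N) * r ^ (n + N)) ≤ cntS e V K (bad g (n + N)) (n + N) c}
      with hs
    have hsum : ∑' n, volume (s n) ≠ ⊤ := by
      have hle : ∀ n, volume (s n) ≤
          ENNReal.ofReal (D * ((n + N : ℕ) + 1) ^ 7 * (r ^ (n + N))⁻¹) := by
        intro n
        exact meas_many e V K C hV0 hK hC (bad g (n + N)) (n + N) (r ^ (n + N)) (by positivity)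
          (hb (n + N) (by omega))
      have hsumm : Summable fun n : ℕ => D * ((n + N : ℕ) + 1 : ℝ) ^ 7 * (r ^ (n + N))⁻¹ := by
        have h0 : Summable fun n : ℕ => ((n : ℝ) ^ 7 * (r⁻¹) ^ n : ℝ) := by
          apply summable_pow_mul_geometric_of_norm_lt_one 7
          rw [Real.norm_eq_abs, abs_of_pos (inv_pos.2 hr0)]
          exact inv_lt_one_of_one_lt₀ hr1
        have h3 := (summable_nat_add_iff (N + 1)).2 h0
        have h4 := h3.mul_left (D * r)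
        refine h4.congr fun n => ?_
        push_cast
        rw [inv_pow, show n + (N + 1) = (n + N) + 1 from by ring, pow_succ r (n + N)]
        field_simp
        ring
      refine ne_top_of_le_ne_top ?_ (ENNReal.tsum_le_tsum hle)
      exact hsumm.tsum_ofReal_ne_top
    filter_upwards [ae_eventually_notMem hsum] with c hc hcA
    obtain ⟨M, hM⟩ := eventually_atTop.1 hc
    refine eventually_atTop.2 ⟨M + N, fun l hl => ?_⟩
    have hlN : (l - N) + N = l := by omega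
    have h3 := hM (l - N) (by omega)
    simp only [hs, mem_ofPred_eq, hlN, not_le] at h3
    have h4 : ((dirty e c l).card : ENNReal) ≤ cntS e V K (bad g l) l c := by
      unfold cntS dirty
      classical
      rw [Finset.card_filter]
      push_cast
      apply Finset.sum_le_sum
      intro q hq
      by_cases hcl : Clear e c l q
      · simp [hcl]
      · have := mem_WS e V K hV (bad g l) l q c
          (fun i hi hqb => (hN l (by omega)).2 i hi q hq hqb c hcA) hcl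
        simp [hcl, this]
    have h5 := (h4.trans_lt h3).le
    have h6 : ((dirty e c l).card : ENNReal) = ENNReal.ofReal ((dirty e c l).card : ℝ) := by
      simp
    rw [h6] at h5
    exact (ENNReal.ofReal_le_ofReal_iff (by positivity)).1 h5
  have main' : ∀ᵐ c : ℝ, ∀ g k : ℕ, c ∈ A g → ∀ᶠ l : ℕ in atTop,
      ((dirty e c l).card : ℝ) ≤ 32 ^ l * ((2 : ℝ) ^ ((1 : ℝ) / (k + 1))) ^ l :=
    ae_all_iff.2 fun g => ae_all_iff.2 fun k => main g k
  filter_upwards [hA, main'] with c ⟨g, hg⟩ hm τ hτ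
  obtain ⟨k, hk⟩ := exists_nat_one_div_lt hτ
  filter_upwards [hm g k hg] with l hl
  refine hl.trans ?_
  have : ((2 : ℝ) ^ ((1 : ℝ) / (k + 1))) ^ l ≤ (2 : ℝ) ^ (τ * l) := by
    rw [← Real.rpow_natCast, ← Real.rpow_mul (by norm_num)]
    apply Real.rpow_le_rpow_of_exponent_le (by norm_num)
    gcongr
  gcongr

end Pool.Agent.Novik
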