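import Pool.Agent.Novik.Main
import Pool.Agent.Novik.Count
import Pool.Agent.Novik.LevelCubes
import Pool.Agent.Novik.Sum

/-!
# The thresholds in one chart: few dirty squares at almost every level
-/

namespace Pool.Agent.Novik

open Filter MeasureTheory

variable {G : ℝ → ℝ → ℝ → ℝ} {L : ℕ}

/-- the constant `Γ` -/
def GG (g l : ℕ) : ℕ := (g + 1) * (l + 1) ^ 2

/-- the size `N` -/
def NN (l i : ℕ) : ℕ := 2 ^ (3 * l - i - 3)

/-- the multiplicity `M` -/
def MM (g l i : ℕ) : ℕ := NN l i / (150 * GG g l * 2 ^ i)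

theorem GG_pos (g l : ℕ) : 1 ≤ GG g l :=
  Nat.succ_le_of_lt (by unfold GG; positivity)

/-- `l` is large for `g` -/
def Large (g l : ℕ) : Prop := 3 ≤ l ∧ 150 * GG g l ≤ 2 ^ (l - 3)

theorem eventually_large (g : ℕ) : ∀ᶠ l in atTop, Large g l := by
  have h1 : Tendsto (fun l : ℕ => ((l : ℝ) + 1) ^ 2 / 2 ^ l) atTop (nhds 0) := by
    have h2 : Tendsto (fun l : ℕ => (l : ℝ) ^ 2 / 2 ^ l) atTop (nhds 0) :=
      tendsto_pow_const_div_const_pow_of_one_lt 2 (by norm_num)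
    have h3 := (tendsto_add_atTop_iff_nat 1).mpr h2
    have h4 := h3.const_mul 2
    rw [mul_zero] at h4
    refine h4.congr (fun l => ?_)
    push_cast
    rw [pow_succ (2 : ℝ) l]
    field_simp
  have h5 : ∀ᶠ l : ℕ in atTop, ((l : ℝ) + 1) ^ 2 / 2 ^ l < 1 / (1200 * (g + 1)) :=
    (tendsto_order.1 h1).2 _ (by positivity)
  filter_upwards [h5, eventually_ge_atTop 3] with l hl h3
  refine ⟨h3, ?_⟩
  have hp : (0 : ℝ) < 2 ^ l := by positivity
  have hg : (0 : ℝ) < 1200 * (g + 1) := by positivity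
  rw [div_lt_div_iff₀ hp hg] at hl
  have h6 : 1200 * (g + 1) * (l + 1) ^ 2 < 2 ^ l := by
    have : ((1200 * (g + 1) * (l + 1) ^ 2 : ℕ) : ℝ) < ((2 ^ l : ℕ) : ℝ) := by
      push_cast
      linarith
    exact_mod_cast this
  have h7 : 2 ^ l = 8 * 2 ^ (l - 3) := by
    obtain ⟨m, rfl⟩ := Nat.exists_eq_add_of_le h3
    rw [Nat.add_sub_cancel_left, pow_add]
    norm_num
  unfold GG
  rw [h7] at h6
  nlinarith

theorem Large.NN_ge {g l i : ℕ} (h : Large g l) (hi : i ≤ l) :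
    150 * GG g l * 2 ^ i ≤ NN l i := by
  obtain ⟨h3, h4⟩ := h
  unfold NN
  have e : 3 * l - i - 3 = (3 * l - 2 * i - 3) + i := by omega
  rw [e, pow_add]
  refine Nat.mul_le_mul_right _ (h4.trans ?_)
  exact Nat.pow_le_pow_right (by norm_num) (by omega)

theorem Large.MM_pos {g l i : ℕ} (h : Large g l) (hi : i ≤ l) : 1 ≤ MM g l i := by
  unfold MM
  refine (Nat.one_le_div_iff ?_).mpr (h.NN_ge hi)
  have := GG_pos g l
  positivity

theorem MM_mul_le (g l i : ℕ) : MM g l i * (150 * GG g l * 2 ^ i) ≤ NN l i :=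
  Nat.div_mul_le_self _ _

theorem lt_MM_mul (g l i : ℕ) : NN l i < (MM g l i + 1) * (150 * GG g l * 2 ^ i) := by
  have hpos : 0 < 150 * GG g l * 2 ^ i := by
    have := GG_pos g l
    positivity
  have := Nat.lt_mul_div_succ (NN l i) hpos
  unfold MM
  calc NN l i < (150 * GG g l * 2 ^ i) * (NN l i / (150 * GG g l * 2 ^ i) + 1) := this
    _ = _ := by ring

theorem Large.NN_lt {g l i : ℕ} (h : Large g l) (hi : i ≤ l) :
    NN l i < 300 * MM g l i * GG g l * 2 ^ i := by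
  have h1 := lt_MM_mul g l i
  have h2 := h.MM_pos hi
  calc NN l i < (MM g l i + 1) * (150 * GG g l * 2 ^ i) := h1
    _ ≤ (2 * MM g l i) * (150 * GG g l * 2 ^ i) := Nat.mul_le_mul_right _ (by omega)
    _ = 300 * MM g l i * GG g l * 2 ^ i := by ring

theorem Large.cond {g l i : ℕ} (h : Large g l) (hi : i ≤ l) :
    72 * (MM g l i + 1) * GG g l * 2 ^ i < NN l i := by
  have h1 := MM_mul_le g l i
  have h2 := h.MM_pos hi
  have h3 : 0 < MM g l i * GG g l * 2 ^ i := by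
    have := GG_pos g l
    positivity
  calc 72 * (MM g l i + 1) * GG g l * 2 ^ i
      ≤ 72 * (2 * MM g l i) * GG g l * 2 ^ i := by
        gcongr
        omega
    _ = 144 * (MM g l i * GG g l * 2 ^ i) := by ring
    _ < 150 * (MM g l i * GG g l * 2 ^ i) := by omega
    _ = MM g l i * (150 * GG g l * 2 ^ i) := by ring
    _ ≤ NN l i := h1

theorem Large.eight {g l i : ℕ} (h : Large g l) (hi : i ≤ l) :
    8 ^ l = 8 * 2 ^ i * NN l i := by
  obtain ⟨h3, _⟩ := h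
  unfold NN
  have e : (8 : ℕ) ^ l = 2 ^ (3 * l) := by
    rw [pow_mul]; norm_num
  rw [e, show (8 : ℕ) = 2 ^ 3 by norm_num, ← pow_add, ← pow_add]
  congr 1
  omega

open Classical in
/-- the squares which contain a bad direction -/
noncomputable def badSq (g l i : ℕ) : Finset (ℤ × ℤ) :=
  (Sq l).filter (fun q => ∃ p ∈ Tsq l q, ¬ Good p.1 p.2 (2 ^ i) (NN l i) (MM g l i))

theorem mem_Sq {l : ℕ} {q : ℤ × ℤ} (h : q ∈ Sq l) :
    |q.1| ≤ (8 : ℤ) ^ l ∧ |q.2| ≤ (8 : ℤ) ^ l := by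
  simp only [Sq, Finset.mem_product, Finset.mem_Icc] at h
  exact ⟨abs_le.mpr h.1, abs_le.mpr h.2⟩

theorem tsq_near {l : ℕ} {q : ℤ × ℤ} {p : ℝ × ℝ} (hp : p ∈ Tsq l q) :
    |(8 : ℝ) ^ l * p.1 - q.1| ≤ 2 ∧ |(8 : ℝ) ^ l * p.2 - q.2| ≤ 2 := by
  have h8 : (0 : ℝ) < 8 ^ l := by positivity
  obtain ⟨h1, h2⟩ := hp
  constructor
  · have e : (8 : ℝ) ^ l * p.1 - q.1 = 8 ^ l * (p.1 - q.1 / 8 ^ l) := by field_simp
    rw [e, abs_mul, abs_of_pos h8]; exact h1
  · have e : (8 : ℝ) ^ l * p.2 - q.2 = 8 ^ l * (p.2 - q.2 / 8 ^ l) := by field_simp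
    rw [e, abs_mul, abs_of_pos h8]; exact h2

theorem card_badSq {g l i : ℕ} (h : Large g l) (hi : i ≤ l) :
    (badSq g l i).card ≤ 1000 * 8 ^ l * (26400 * GG g l * 2 ^ i) *
      (600 * GG g l * 2 ^ i) ^ 2 := by
  classical
  have hΓ := GG_pos g l
  have hM := h.MM_pos hi
  have hn : 0 < 2 ^ i := by positivity
  refine count_bad (8 ^ l) (26400 * GG g l * 2 ^ i) (600 * GG g l * 2 ^ i) ?_ ?_ ?_ _ ?_
  · have : 0 < 600 * GG g l * 2 ^ i := by positivity
    exact this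
  · gcongr; norm_num
  · -- `26400 Γ 2^i ≤ 8^l`
    obtain ⟨h3, h4⟩ := h
    have h7 : 2 ^ l = 8 * 2 ^ (l - 3) := by
      obtain ⟨m, rfl⟩ := Nat.exists_eq_add_of_le h3
      rw [Nat.add_sub_cancel_left, pow_add]
      norm_num
    have h8 : 1200 * GG g l ≤ 2 ^ l := by rw [h7]; omega
    have h9 : 2 ^ i ≤ 2 ^ l := Nat.pow_le_pow_right (by norm_num) hi
    have e : (8 : ℕ) ^ l = 2 ^ l * 2 ^ l * 2 ^ l := by
      rw [← mul_pow, ← mul_pow]
      norm_num
    rw [e]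
    refine Nat.mul_le_mul ?_ h9
    calc 26400 * GG g l ≤ (1200 * GG g l) * (1200 * GG g l) := by nlinarith
      _ ≤ 2 ^ l * 2 ^ l := Nat.mul_le_mul h8 h8
  · intro q hq
    obtain ⟨hqS, p, hp, hng⟩ := Finset.mem_filter.mp hq
    obtain ⟨b1, b2⟩ := mem_Sq hqS
    refine ⟨by push_cast; exact b1, by push_cast; exact b2, ?_⟩
    unfold Good at hng
    push Not at hng
    obtain ⟨k1, k2, k3, hk, c1, c2, c3⟩ := hng
    obtain ⟨t1, t2⟩ := tsq_near hp
    have hlt := h.NN_lt hi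
    have hMr : (0 : ℝ) < MM g l i := by exact_mod_cast hM
    have hMz : (0 : ℤ) < MM g l i := by exact_mod_cast hM
    have hkb : ∀ k : ℤ, (MM g l i : ℤ) * |k| ≤ 2 * (NN l i : ℤ) →
        |k| ≤ ((600 * GG g l * 2 ^ i : ℕ) : ℤ) := by
      intro k hk
      have h1 : (NN l i : ℤ) < 300 * MM g l i * GG g l * 2 ^ i := by exact_mod_cast hlt
      have h2 : (MM g l i : ℤ) * |k| ≤ MM g l i * ((600 * GG g l * 2 ^ i : ℕ) : ℤ) := by
        push_cast
        calc (MM g l i : ℤ) * |k| ≤ 2 * NN l i := hk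
          _ ≤ 2 * (300 * MM g l i * GG g l * 2 ^ i) := by linarith
          _ = MM g l i * (600 * GG g l * 2 ^ i) := by ring
      exact le_of_mul_le_mul_left h2 hMz
    have hk1 := hkb k1 c1
    have hk2 := hkb k2 c2
    refine ⟨k1, k2, k3, fun hh => hk hh.1 hh.2, hk1, hk2, ?_⟩
    -- the linear form at the corner
    have hk1r : |(k1 : ℝ)| ≤ 600 * GG g l * 2 ^ i := by exact_mod_cast hk1
    have hk2r : |(k2 : ℝ)| ≤ 600 * GG g l * 2 ^ i := by exact_mod_cast hk2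
    have h8r : (0 : ℝ) < 8 ^ l := by positivity
    have hnr : (0 : ℝ) < 2 ^ i := by positivity
    have hth : (8 : ℝ) ^ l * |theta p.1 p.2 k1 k2 k3| ≤ 24000 * GG g l * 2 ^ i := by
      have e8 : (8 : ℝ) ^ l = 8 * 2 ^ i * NN l i := by exact_mod_cast h.eight hi
      have hltr : (NN l i : ℝ) < 300 * MM g l i * GG g l * 2 ^ i := by exact_mod_cast hlt
      have hcr : (2 : ℝ) ^ i * MM g l i * |theta p.1 p.2 k1 k2 k3| ≤ 10 := by
        have := c3
        push_cast at this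
        exact this
      have hpos : (0 : ℝ) < 2 ^ i * MM g l i := by positivity
      have : (2 ^ i * MM g l i : ℝ) * ((8 : ℝ) ^ l * |theta p.1 p.2 k1 k2 k3|) ≤
          (2 ^ i * MM g l i : ℝ) * (24000 * GG g l * 2 ^ i) := by
        calc (2 ^ i * MM g l i : ℝ) * ((8 : ℝ) ^ l * |theta p.1 p.2 k1 k2 k3|)
            = 8 ^ l * (2 ^ i * MM g l i * |theta p.1 p.2 k1 k2 k3|) := by ring
          _ ≤ 8 ^ l * 10 := mul_le_mul_of_nonneg_left hcr h8r.le
          _ = 80 * 2 ^ i * NN l i := by rw [e8]; ring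
          _ ≤ 80 * 2 ^ i * (300 * MM g l i * GG g l * 2 ^ i) :=
            mul_le_mul_of_nonneg_left hltr.le (by positivity)
          _ = (2 ^ i * MM g l i : ℝ) * (24000 * GG g l * 2 ^ i) := by ring
      exact le_of_mul_le_mul_left this hpos
    have hfin : |((q.1 : ℝ) * k1 + q.2 * k2 + k3 * 8 ^ l)| ≤ 26400 * GG g l * 2 ^ i := by
      have e : (q.1 : ℝ) * k1 + q.2 * k2 + k3 * 8 ^ l = 8 ^ l * theta p.1 p.2 k1 k2 k3 +
          (-((8 ^ l * p.1 - q.1) * k1) + -((8 ^ l * p.2 - q.2) * k2)) := by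
        unfold theta; ring
      rw [e]
      refine le_trans (abs_add_le _ _) ?_
      have h1 : |-(((8 : ℝ) ^ l * p.1 - q.1) * k1) + -((8 ^ l * p.2 - q.2) * k2)| ≤
          2 * (600 * GG g l * 2 ^ i) + 2 * (600 * GG g l * 2 ^ i) := by
        refine le_trans (abs_add_le _ _) ?_
        rw [abs_neg, abs_neg, abs_mul, abs_mul]
        exact add_le_add (mul_le_mul t1 hk1r (abs_nonneg _) (by norm_num))
          (mul_le_mul t2 hk2r (abs_nonneg _) (by norm_num))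
      rw [abs_mul, abs_of_pos h8r]
      linarith
    have : |q.1 * k1 + q.2 * k2 + k3 * ((8 : ℤ) ^ l)| ≤ 26400 * GG g l * 2 ^ i := by
      exact_mod_cast hfin
    push_cast
    exact this

/-- **Few dirty squares.** -/
theorem ae_thr (hG : Nice G L) (hL : 1 ≤ L) :
    ∀ᵐ c : ℝ, ∀ τ : ℝ, 0 < τ → ∀ᶠ l in atTop,
      ((dirty (fun p => thr G p.1 p.2) c l).card : ℝ) ≤ 32 ^ l * (2 : ℝ) ^ (τ * l) := by
  classical
  have hLpos : (0 : ℝ) < L := by exact_mod_cast hL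
  refine ae_dirty (fun p => thr G p.1 p.2) (|G 0 0 0| + L) (18 * L)
    (fun p => abs_thr_le hG) (by positivity)
    (fun g => {c | ∀ i : ℕ, (levelCubes G (2 ^ i) c).Finite ∧
      (levelCubes G (2 ^ i) c).ncard ≤ g * (i + 1) ^ 2 * 4 ^ i})
    (ae_levelCubes hG) badSq ?_ ?_
  · intro g
    refine ⟨1000 * 26400 * 360000 * ((g : ℝ) + 1) ^ 3, ?_⟩
    filter_upwards [eventually_large g] with l hl i hi
    have h1 := card_badSq hl hi
    have h2 : ((badSq g l i).card : ℝ) ≤ 1000 * 8 ^ l * (26400 * GG g l * 2 ^ i) *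
        (600 * GG g l * 2 ^ i) ^ 2 := by exact_mod_cast h1
    refine h2.trans (le_of_eq ?_)
    have e : (8 : ℝ) ^ i = 2 ^ i * 2 ^ i * 2 ^ i := by
      rw [← mul_pow, ← mul_pow]; norm_num
    rw [e]
    unfold GG
    push_cast
    ring
  · intro g
    filter_upwards [eventually_large g] with l hl i hi q hq hqb c hc p hp p' hp'
    have hgood : Good p.1 p.2 (2 ^ i) (NN l i) (MM g l i) := by
      by_contra hcon
      exact hqb (Finset.mem_filter.mpr ⟨hq, p, hp, hcon⟩)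
    have h8 : (0 : ℝ) < 8 ^ l := by positivity
    have hl1 : (8 : ℝ) ≤ 8 ^ l := by
      calc (8 : ℝ) = 8 ^ 1 := by norm_num
        _ ≤ 8 ^ l := pow_le_pow_right₀ (by norm_num) (by have := hl.1; omega)
    obtain ⟨b1, b2⟩ := mem_Sq hq
    have b1r : |(q.1 : ℝ)| ≤ 8 ^ l := by exact_mod_cast b1
    have b2r : |(q.2 : ℝ)| ≤ 8 ^ l := by exact_mod_cast b2
    have hbd : ∀ s t : ℝ, |t| ≤ 8 ^ l → |8 ^ l * s - t| ≤ 2 → |s| ≤ 2 := by
      intro s t h1 h2
      have h3 : |8 ^ l * s| ≤ 8 ^ l + 2 := by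
        have : 8 ^ l * s = (8 ^ l * s - t) + t := by ring
        rw [this]
        refine le_trans (abs_add_le _ _) ?_
        linarith
      rw [abs_mul, abs_of_pos h8] at h3
      have h4 : (8 : ℝ) ^ l * |s| ≤ 8 ^ l * 2 := by linarith
      exact le_of_mul_le_mul_left h4 h8
    have hdf : ∀ s s' t : ℝ, |8 ^ l * s - t| ≤ 2 → |8 ^ l * s' - t| ≤ 2 →
        |s - s'| ≤ 4 / 8 ^ l := by
      intro s s' t h1 h2
      rw [le_div_iff₀ h8]
      have : |8 ^ l * (s - s')| ≤ 4 := by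
        have e : 8 ^ l * (s - s') = (8 ^ l * s - t) + -(8 ^ l * s' - t) := by ring
        rw [e]
        refine le_trans (abs_add_le _ _) ?_
        rw [abs_neg]
        linarith
      rw [abs_mul, abs_of_pos h8] at this
      linarith
    obtain ⟨t1, t2⟩ := tsq_near hp
    obtain ⟨s1, s2⟩ := tsq_near hp'
    have hncard : (levelCubes G (2 ^ i) c).ncard ≤ GG g l * (2 ^ i) ^ 2 := by
      refine (hc i).2.trans ?_
      have e : (4 : ℕ) ^ i = (2 ^ i) ^ 2 := by rw [← pow_mul, mul_comm, pow_mul]; norm_num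
      rw [e]
      refine Nat.mul_le_mul_right _ ?_
      unfold GG
      gcongr
      omega
    have hδ : (((2 ^ i : ℕ) : ℝ)) * (2 * (4 / 8 ^ l) * (NN l i : ℝ)) ≤ 1 := by
      have e8 : (8 : ℝ) ^ l = 8 * 2 ^ i * NN l i := by exact_mod_cast hl.eight hi
      have hNpos : (0 : ℝ) < NN l i := by unfold NN; positivity
      rw [e8]
      push_cast
      have : (2 : ℝ) ^ i * (2 * (4 / (8 * 2 ^ i * (NN l i : ℝ))) * NN l i) = 1 := by
        field_simp
        norm_num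
      exact this.le
    have key := resolve (x := p'.1) (y := p'.2) (x' := p.1) (y' := p.2) (δ := 4 / 8 ^ l)
      hG hL (hbd _ _ b1r s1) (hbd _ _ b2r s2) (hbd _ _ b1r t1) (hbd _ _ b2r t2)
      (hdf _ _ _ t1 s1) (hdf _ _ _ t2 s2) (n := 2 ^ i) (N := NN l i) (M := MM g l i)
      (Γ := GG g l) (Nat.one_le_two_pow) (hl.MM_pos hi) (GG_pos g l)
      (by have := hl.cond hi; exact this) hδ (hc i).1 hncard hgood
    push_cast at key
    exact key

end Pool.Agent.Novik
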