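import Mathlib

/-!
# Plane sections of periodic functions (MP_590607_an): the affine chart

`G : ℝ → ℝ → ℝ → ℝ` is a `ℤ³`-periodic Lipschitz function.  The planes with the normal
vector `(x, y, 1)` are parametrised by their first two coordinates; the restriction of `G` to
the plane `x u₁ + y u₂ + t = a` is the function `sec G x y a` on `ℝ × ℝ` (sup metric).
-/

namespace Pool.Agent.Novik

/-- `G` is `1`-periodic in each variable and Lipschitz with the constant `L` (sup norm). -/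
structure Nice (G : ℝ → ℝ → ℝ → ℝ) (L : ℕ) : Prop where
  per1 : ∀ u v t, G (u + 1) v t = G u v t
  per2 : ∀ u v t, G u (v + 1) t = G u v t
  per3 : ∀ u v t, G u v (t + 1) = G u v t
  lip : ∀ u v t u' v' t', |G u v t - G u' v' t'| ≤ L * max (max |u - u'| |v - v'|) |t - t'|

/-- the restriction of `G` to the plane `x u₁ + y u₂ + t = a` -/
def sec (G : ℝ → ℝ → ℝ → ℝ) (x y a : ℝ) (u : ℝ × ℝ) : ℝ := G u.1 u.2 (a - x * u.1 - y * u.2)

/-- Some plane with the normal vector `(x, y, 1)` contains an unbounded connected set on which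
`G ≥ c`. -/
def Perc (G : ℝ → ℝ → ℝ → ℝ) (x y c : ℝ) : Prop :=
  ∃ (a : ℝ) (U : Set (ℝ × ℝ)), IsPreconnected U ∧ ¬ Bornology.IsBounded U ∧
    ∀ u ∈ U, c ≤ sec G x y a u

/-- the (upper) percolation threshold of the direction `(x, y, 1)` -/
noncomputable def thr (G : ℝ → ℝ → ℝ → ℝ) (x y : ℝ) : ℝ := sSup {c | Perc G x y c}

/-- the linear form `θ(k) = x k₁ + y k₂ + k₃` -/
def theta (x y : ℝ) (k1 k2 k3 : ℤ) : ℝ := x * k1 + y * k2 + k3

/-- The direction `(x, y, 1)` has no small integer relation: there are no integers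
`|k₁|, |k₂| ≤ 2 N / M`, not both zero, and `k₃` with `|θ(k)| ≤ 10 / (n M)`. -/
def Good (x y : ℝ) (n N M : ℕ) : Prop :=
  ∀ k1 k2 k3 : ℤ, ¬ (k1 = 0 ∧ k2 = 0) → M * |k1| ≤ 2 * N → M * |k2| ≤ 2 * N →
    10 < (n : ℝ) * M * |theta x y k1 k2 k3|

/-- the cube of the `n`-grid of the torus which contains the point `(u, v, t)` -/
noncomputable def cube (n : ℕ) (u v t : ℝ) : ℤ × ℤ × ℤ :=
  (⌊n * Int.fract u⌋, ⌊n * Int.fract v⌋, ⌊n * Int.fract t⌋)

/-- the cubes of the `n`-grid of the torus which contain a point of the level `c` -/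
def levelCubes (G : ℝ → ℝ → ℝ → ℝ) (n : ℕ) (c : ℝ) : Set (ℤ × ℤ × ℤ) :=
  {p | ∃ u v t, cube n u v t = p ∧ G u v t = c}

/-- the corners of the grid squares of side `8⁻ˡ` which cover `[-1, 1]²` -/
noncomputable def Sq (l : ℕ) : Finset (ℤ × ℤ) :=
  (Finset.Icc (-(8 : ℤ) ^ l) (8 ^ l)) ×ˢ (Finset.Icc (-(8 : ℤ) ^ l) (8 ^ l))

/-- the closed square with the centre `8⁻ˡ q` and the half side `2 · 8⁻ˡ` -/
def Tsq (l : ℕ) (q : ℤ × ℤ) : Set (ℝ × ℝ) :=
  {p | (8 : ℝ) ^ l * |p.1 - q.1 / 8 ^ l| ≤ 2 ∧ (8 : ℝ) ^ l * |p.2 - q.2 / 8 ^ l| ≤ 2}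

/-- `q` is clear for the level `c`: near the closed grid square `8⁻ˡ (q + [0, 1]²)` the
function `e` stays away from `c` -/
def Clear (e : ℝ × ℝ → ℝ) (c : ℝ) (l : ℕ) (q : ℤ × ℤ) : Prop :=
  ∃ η > 0, ∀ p : ℝ × ℝ, (q.1 : ℝ) - η ≤ 8 ^ l * p.1 → 8 ^ l * p.1 ≤ q.1 + 1 + η →
    (q.2 : ℝ) - η ≤ 8 ^ l * p.2 → 8 ^ l * p.2 ≤ q.2 + 1 + η → η ≤ |e p - c|

/-- the squares of the level `l` which are not clear -/
noncomputable def dirty (e : ℝ × ℝ → ℝ) (c : ℝ) (l : ℕ) : Finset (ℤ × ℤ) := by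
  classical
  exact (Sq l).filter (fun q => ¬ Clear e c l q)

end Pool.Agent.Novik
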