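import Pool.Agent.Novik.Strip

/-!
# The directions with a rational relation form a set of dimension at most one
-/

namespace Pool.Agent.Novik

open Set

theorem dimH_line (k : ℤ × ℤ × ℤ) (hk : k ≠ 0) :
    dimH {p : ℝ × ℝ | p.1 * k.1 + p.2 * k.2.1 + k.2.2 = 0} ≤ 1 := by
  have range_le : ∀ f : ℝ → ℝ × ℝ, ContDiff ℝ 1 f → dimH (range f) ≤ 1 := by
    intro f hf
    refine hf.dimH_range_le.trans (le_of_eq ?_)
    simp
  by_cases h1 : k.1 = 0
  · by_cases h2 : k.2.1 = 0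
    · have h3 : k.2.2 ≠ 0 := by
        intro h3
        exact hk (by ext <;> simp [h1, h2, h3])
      have : {p : ℝ × ℝ | p.1 * k.1 + p.2 * k.2.1 + k.2.2 = 0} = ∅ := by
        rw [eq_empty_iff_forall_notMem]
        intro p hp
        have hp' : p.1 * (k.1 : ℝ) + p.2 * (k.2.1 : ℝ) + (k.2.2 : ℝ) = 0 := hp
        rw [h1, h2] at hp'
        simp only [Int.cast_zero, mul_zero, zero_add] at hp'
        exact h3 (by exact_mod_cast hp')
      rw [this, dimH_empty]
      exact zero_le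
    · have h2' : (k.2.1 : ℝ) ≠ 0 := by exact_mod_cast h2
      refine (dimH_mono ?_).trans (range_le (fun t => (t, -(t * k.1 + k.2.2) / k.2.1)) ?_)
      · intro p hp
        have hp' : p.1 * (k.1 : ℝ) + p.2 * (k.2.1 : ℝ) + (k.2.2 : ℝ) = 0 := hp
        refine ⟨p.1, ?_⟩
        ext
        · rfl
        · simp only
          rw [div_eq_iff h2']
          linarith
      · fun_prop
  · have h1' : (k.1 : ℝ) ≠ 0 := by exact_mod_cast h1
    refine (dimH_mono ?_).trans (range_le (fun t => (-(t * k.2.1 + k.2.2) / k.1, t)) ?_)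
    · intro p hp
      have hp' : p.1 * (k.1 : ℝ) + p.2 * (k.2.1 : ℝ) + (k.2.2 : ℝ) = 0 := hp
      refine ⟨p.2, ?_⟩
      ext
      · simp only
        rw [div_eq_iff h1']
        linarith
      · rfl
    · fun_prop

theorem dimH_not_irr : dimH {p : ℝ × ℝ | ¬ Irr p.1 p.2} ≤ 1 := by
  have h : {p : ℝ × ℝ | ¬ Irr p.1 p.2} ⊆ ⋃ k : {k : ℤ × ℤ × ℤ // k ≠ 0},
      {p : ℝ × ℝ | p.1 * k.1.1 + p.2 * k.1.2.1 + k.1.2.2 = 0} := by
    intro p hp
    have hp' : ¬ Irr p.1 p.2 := hp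
    unfold Irr at hp'
    push Not at hp'
    obtain ⟨k, hk, hk0⟩ := hp'
    exact mem_iUnion.2 ⟨⟨k, hk0⟩, hk⟩
  refine (dimH_mono h).trans ?_
  rw [dimH_iUnion]
  exact iSup_le fun k => dimH_line k.1 k.2

end Pool.Agent.Novik
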