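import Pool.Agent.Novik.FDefs
import Pool.Agent.Novik.Strip
import Pool.Agent.Novik.Sphere
import Pool.Agent.Novik.Nice
import Pool.Agent.Novik.NotIrr

/-!
# NOV-G: the directions which are not regular
-/

namespace Pool.Agent.Novik

open MeasureTheory Filter Set

/-- the integer vector with the coordinates `m` of the chart `i` -/
def vecC (i : Fin 3) (m : ℤ × ℤ × ℤ) (j : Fin 3) : ℤ :=
  if j = i then m.2.2 else if j = i + 1 then m.1 else m.2.1

lemma vecC_i (i : Fin 3) (m : ℤ × ℤ × ℤ) : vecC i m i = m.2.2 := by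
  simp [vecC]

lemma vecC_u (i : Fin 3) (m : ℤ × ℤ × ℤ) : vecC i m (i + 1) = m.1 := by
  fin_cases i <;> simp [vecC]

lemma vecC_v (i : Fin 3) (m : ℤ × ℤ × ℤ) : vecC i m (i + 2) = m.2.1 := by
  fin_cases i <;> simp [vecC]

lemma sum_coord (i : Fin 3) (g : Fin 3 → ℝ) : ∑ j, g j = g (i + 1) + g (i + 2) + g i := by
  fin_cases i <;> simp [Fin.sum_univ_three] <;> ring

lemma not_parallel {i : Fin 3} {B : E3} (hB : B i ≠ 0) {m : ℤ × ℤ × ℤ} (hm : m ≠ 0)
    (hirr : Irr (B (i + 1) / B i) (B (i + 2) / B i)) :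
    ∃ j k, (vecC i m j : ℝ) * B k ≠ vecC i m k * B j := by
  by_contra hcon
  push Not at hcon
  have h1 := hcon (i + 1) i
  have h2 := hcon (i + 2) i
  rw [vecC_u, vecC_i] at h1
  rw [vecC_v, vecC_i] at h2
  have h3 : (m.1 : ℝ) = m.2.2 * (B (i + 1) / B i) := by
    field_simp
    exact h1
  have h4 : (m.2.1 : ℝ) = m.2.2 * (B (i + 2) / B i) := by
    field_simp
    exact h2
  have h5 := hirr (m.2.2, 0, -m.1) (by
    simp only [th, theta]
    push_cast
    rw [h3]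
    ring)
  have h6 : m.2.2 = 0 := congrArg Prod.fst h5
  rw [h6] at h3 h4
  have h7 : m.1 = 0 := by
    have : (m.1 : ℝ) = 0 := by rw [h3]; simp
    exact_mod_cast this
  have h8 : m.2.1 = 0 := by
    have : (m.2.1 : ℝ) = 0 := by rw [h4]; simp
    exact_mod_cast this
  exact hm (Prod.ext h7 (Prod.ext h8 h6))

/-- regularity of a totally irrational direction which is not critical -/
theorem regular_of_thr_ne {ε : E3 → ℝ} (hper : IsPeriodic ε) {K : NNReal}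
    (hlip : LipschitzWith K ε) {c : ℝ} {i : Fin 3} {B : E3} (hBi : B i ≠ 0)
    (hx : |B (i + 1) / B i| ≤ 1) (hy : |B (i + 2) / B i| ≤ 1)
    (hirr : Irr (B (i + 1) / B i) (B (i + 2) / B i))
    (hc : thr (ch ε i) (B (i + 1) / B i) (B (i + 2) / B i) ≠ c) : Regular ε c B := by
  obtain ⟨L, hL, hN⟩ := nice_ch hper hlip
  obtain ⟨m, R, hm, hR⟩ := regular_of_ne (hN i).1 hL (hx.trans one_le_two)
    (hy.trans one_le_two) hirr hc
  refine ⟨vecC i m, R, not_parallel hBi hm hirr, fun a U hU h X hX Y hY => ?_⟩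
  have hsec : ∀ u ∈ piC i '' U,
      sec (ch ε i) (B (i + 1) / B i) (B (i + 2) / B i) (a / B i) u = c := by
    rintro _ ⟨Z, hZ, rfl⟩
    rw [sec_eq, phiC_piC i B hBi a Z (h Z hZ).1]
    exact (h Z hZ).2
  have h1 := hR (a / B i) (piC i '' U)
    (hU.isPreconnected.image _ (continuous_piC i).continuousOn) hsec
    (piC i X) ⟨X, hX, rfl⟩ (piC i Y) ⟨Y, hY, rfl⟩
  have hco : ∀ Z ∈ U, Z i = a / B i - B (i + 1) / B i * Z (i + 1) -
      B (i + 2) / B i * Z (i + 2) := by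
    intro Z hZ
    have h2 := (h Z hZ).1
    rw [inner_coord i] at h2
    rw [← h2]
    field_simp
    ring
  have h3 : ∑ j, (vecC i m j : ℝ) * (X j - Y j) =
      ((piC i X).1 - (piC i Y).1) * (m.1 - B (i + 1) / B i * m.2.2) +
        ((piC i X).2 - (piC i Y).2) * (m.2.1 - B (i + 2) / B i * m.2.2) := by
    rw [sum_coord i, vecC_u, vecC_v, vecC_i, hco X hX, hco Y hY]
    simp only [piC]
    ring
  rw [h3]
  exact h1

theorem exc_dim {ε : E3 → ℝ} (hper : IsPeriodic ε) {K : NNReal} (hlip : LipschitzWith K ε)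
    {c : ℝ}
    (h1 : ∀ i, dimH {p : ℝ × ℝ | |p.1| ≤ 1 ∧ |p.2| ≤ 1 ∧ thr (ch ε i) p.1 p.2 = c} ≤ 5 / 3) :
    dimH (Exc ε c) ≤ 5 / 3 := by
  have hsub : Exc ε c ⊆ ⋃ q : Fin 3 × Bool,
      (psiC q.1 (if q.2 then 1 else -1) ''
        {p : ℝ × ℝ | |p.1| ≤ 1 ∧ |p.2| ≤ 1 ∧ thr (ch ε q.1) p.1 p.2 = c} ∪
      psiC q.1 (if q.2 then 1 else -1) '' {p : ℝ × ℝ | ¬ Irr p.1 p.2}) := by
    rintro B ⟨hB, hreg⟩
    obtain ⟨i, s, hBi, hx, hy, hp⟩ := exists_chart B hB
    refine mem_iUnion.2 ⟨(i, s), ?_⟩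
    by_cases hirr : Irr (B (i + 1) / B i) (B (i + 2) / B i)
    · left
      refine ⟨_, ⟨hx, hy, ?_⟩, hp⟩
      by_contra hc
      exact hreg (regular_of_thr_ne hper hlip hBi hx hy hirr hc)
    · right
      exact ⟨_, hirr, hp⟩
  refine (dimH_mono hsub).trans ?_
  rw [dimH_iUnion]
  refine iSup_le fun q => ?_
  rw [dimH_union]
  have h2 : (1 : ENNReal) ≤ 5 / 3 := by
    rw [ENNReal.le_div_iff_mul_le (by norm_num) (by norm_num)]
    norm_num
  exact max_le ((dimH_psiC _ _ _).trans (h1 q.1))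
    (((dimH_psiC _ _ _).trans dimH_not_irr).trans h2)

end Pool.Agent.Novik
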