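import Pool.Agent.Novik.Defs

/-!
# Separated points in a component of a superlevel set

From a connected set of diameter `N` on which `f ≥ c₃` we produce many `1/n`-separated points of
its component in `{f > c₁}`: either `N n² / 2` points or `N n / 2` points on the level `c₂`.
-/

namespace Pool.Agent.Novik

open Set

/-- `Z` is `1/n`-separated (half-open cells) -/
def Separated (n : ℕ) (Z : Finset (ℝ × ℝ)) : Prop :=
  ∀ z ∈ Z, ∀ w ∈ Z, |z.1 - w.1| < 1 / n → |z.2 - w.2| < 1 / n → z = w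

theorem mem_comp_of_preconnected {F s : Set (ℝ × ℝ)} {p z : ℝ × ℝ} (hs : IsPreconnected s)
    (hsF : s ⊆ F) (hz : z ∈ s) (hzC : z ∈ connectedComponentIn F p) :
    s ⊆ connectedComponentIn F p := by
  rw [connectedComponentIn_eq hzC]
  exact hs.subset_connectedComponentIn hz hsF

theorem vertical_preconnected (z : ℝ × ℝ) (T : ℝ) :
    IsPreconnected ((fun t : ℝ => (z.1, z.2 + t)) '' Icc 0 T) := by
  refine isPreconnected_Icc.image _ ?_
  fun_prop

/-- In a column: either `f > c₂` on the whole vertical segment of length one, which is in the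
component, or there is a point of the component on the level `c₂`. -/
theorem column {f : ℝ × ℝ → ℝ} (hf : Continuous f) {c1 c2 : ℝ} (h12 : c1 < c2)
    {p z : ℝ × ℝ} (hz : z ∈ connectedComponentIn {u | c1 < f u} p) (hfz : c2 ≤ f z) :
    (∀ t ∈ Icc (0 : ℝ) 1, (z.1, z.2 + t) ∈ connectedComponentIn {u | c1 < f u} p) ∨
    ∃ t ∈ Icc (0 : ℝ) 1, f (z.1, z.2 + t) = c2 ∧
      (z.1, z.2 + t) ∈ connectedComponentIn {u | c1 < f u} p := by
  by_cases hthick : ∀ t ∈ Icc (0 : ℝ) 1, c2 < f (z.1, z.2 + t)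
  · left
    intro t ht
    have hsub := mem_comp_of_preconnected (vertical_preconnected z 1)
      (F := {u | c1 < f u}) (p := p) (z := z) (by
        rintro _ ⟨s, hs, rfl⟩
        exact lt_trans h12 (hthick s hs)) ⟨0, ⟨le_refl _, zero_le_one⟩, by simp⟩ hz
    exact hsub ⟨t, ht, rfl⟩
  · right
    push Not at hthick
    obtain ⟨t0, ht0, hft0⟩ := hthick
    have hcont : Continuous (fun t : ℝ => f (z.1, z.2 + t)) := by fun_prop
    let S : Set ℝ := Icc 0 1 ∩ {t | f (z.1, z.2 + t) ≤ c2}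
    have hSc : IsClosed S := isClosed_Icc.inter (isClosed_le hcont continuous_const)
    have hSne : S.Nonempty := ⟨t0, ht0, hft0⟩
    have hSb : BddBelow S := ⟨0, fun t ht => ht.1.1⟩
    have hmem : sInf S ∈ S := hSc.csInf_mem hSne hSb
    have hbefore : ∀ t, 0 ≤ t → t < sInf S → c2 < f (z.1, z.2 + t) := by
      intro t h0 ht
      by_contra hcon
      push Not at hcon
      have : t ∈ S := ⟨⟨h0, le_trans ht.le hmem.1.2⟩, hcon⟩
      exact absurd (csInf_le hSb this) (not_le.mpr ht)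
    have heq : f (z.1, z.2 + sInf S) = c2 := by
      refine le_antisymm hmem.2 ?_
      rcases eq_or_lt_of_le hmem.1.1 with h0 | h0
      · rw [← h0]
        simpa using hfz
      · -- limit from the left
        have hlim : Filter.Tendsto (fun t : ℝ => f (z.1, z.2 + t))
            (nhdsWithin (sInf S) (Iio (sInf S))) (nhds (f (z.1, z.2 + sInf S))) :=
          (hcont.tendsto _).mono_left nhdsWithin_le_nhds
        refine ge_of_tendsto hlim ?_
        have : Ioo 0 (sInf S) ∈ nhdsWithin (sInf S) (Iio (sInf S)) :=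
          Ioo_mem_nhdsLT h0
        filter_upwards [this] with t ht
        exact (hbefore t ht.1.le ht.2).le
    refine ⟨sInf S, hmem.1, heq, ?_⟩
    have hsub := mem_comp_of_preconnected (vertical_preconnected z (sInf S))
      (F := {u | c1 < f u}) (p := p) (z := z) (by
        rintro _ ⟨s, hs, rfl⟩
        rcases eq_or_lt_of_le hs.2 with h | h
        · have : f (z.1, z.2 + s) = c2 := by rw [h]; exact heq
          show c1 < f (z.1, z.2 + s)
          rw [this]; exact h12
        · exact lt_trans h12 (hbefore s hs.1 h)) ⟨0, ⟨le_refl _, hmem.1.1⟩, by simp⟩ hz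
    exact hsub ⟨sInf S, ⟨hmem.1.1, le_refl _⟩, rfl⟩

theorem geo1 {f : ℝ × ℝ → ℝ} (hf : Continuous f) {c1 c2 : ℝ} (h12 : c1 < c2)
    {β : Set (ℝ × ℝ)} (hβ : IsPreconnected β) (hfβ : ∀ u ∈ β, c2 ≤ f u)
    {p q : ℝ × ℝ} (hp : p ∈ β) (hq : q ∈ β) {N n : ℕ} (hn : 1 ≤ n)
    (hpq : (N : ℝ) ≤ |q.1 - p.1|)
    (hbd : ∀ u ∈ β, |u.1 - p.1| ≤ N ∧ |u.2 - p.2| ≤ N) :
    ∃ Z : Finset (ℝ × ℝ), (∀ z ∈ Z, z ∈ connectedComponentIn {u | c1 < f u} p) ∧
      Separated n Z ∧ (∀ z ∈ Z, |z.1 - p.1| ≤ N + 1 ∧ |z.2 - p.2| ≤ N + 1) ∧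
      (N * n ^ 2 ≤ 2 * Z.card ∨ (N * n ≤ 2 * Z.card ∧ ∀ z ∈ Z, f z = c2)) := by
  classical
  have hnpos : (0 : ℝ) < n := by exact_mod_cast hn
  -- the sign
  obtain ⟨σ, hσ, hσN⟩ : ∃ σ : ℝ, (σ = 1 ∨ σ = -1) ∧ (N : ℝ) ≤ σ * (q.1 - p.1) := by
    rcases le_total 0 (q.1 - p.1) with h | h
    · exact ⟨1, Or.inl rfl, by rw [abs_of_nonneg h] at hpq; linarith⟩
    · exact ⟨-1, Or.inr rfl, by rw [abs_of_nonpos h] at hpq; linarith⟩
  have hβC : β ⊆ connectedComponentIn {u | c1 < f u} p :=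
    hβ.subset_connectedComponentIn hp (fun u hu => lt_of_lt_of_le h12 (hfβ u hu))
  have hcol : ∀ j : ℕ, ∃ z : ℝ × ℝ, j < N * n → z ∈ β ∧ z.1 = p.1 + σ * (j / n) := by
    intro j
    by_cases hj : j < N * n
    · have hj' : (j : ℝ) / n ≤ N := by
        rw [div_le_iff₀ hnpos]
        exact_mod_cast hj.le
      have hj0 : (0 : ℝ) ≤ j / n := by positivity
      have him : IsPreconnected ((fun u : ℝ × ℝ => σ * (u.1 - p.1)) '' β) := by
        refine hβ.image _ ?_
        fun_prop
      have hIcc := him.Icc_subset (a := 0) (b := σ * (q.1 - p.1)) ⟨p, hp, by simp⟩ ⟨q, hq, rfl⟩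
      obtain ⟨z, hz, hz1⟩ := hIcc (show (j : ℝ) / n ∈ Icc 0 (σ * (q.1 - p.1)) from
        ⟨hj0, hj'.trans hσN⟩)
      refine ⟨z, fun _ => ⟨hz, ?_⟩⟩
      have hσ2 : σ * σ = 1 := by rcases hσ with h | h <;> rw [h] <;> norm_num
      simp only at hz1
      have : σ * (σ * (z.1 - p.1)) = σ * (j / n) := by rw [hz1]
      rw [← mul_assoc, hσ2, one_mul] at this
      linarith
    · exact ⟨p, fun h => absurd h hj⟩
  choose z hz using hcol
  have hdiff : ∀ j j' : ℕ, j < N * n → j' < N * n → |(z j).1 - (z j').1| < 1 / n → j = j' := by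
    intro j j' hj hj' h
    rw [(hz j hj).2, (hz j' hj').2] at h
    have e : p.1 + σ * (j / n) - (p.1 + σ * (j' / n)) = σ * (((j : ℝ) - j') / n) := by ring
    rw [e, abs_mul, abs_div, abs_of_pos hnpos] at h
    have hσa : |σ| = 1 := by rcases hσ with h | h <;> rw [h] <;> norm_num
    rw [hσa, one_mul, div_lt_div_iff_of_pos_right hnpos] at h
    have h2 : |(j : ℤ) - j'| < 1 := by exact_mod_cast h
    have h3 := Int.abs_lt_one_iff.mp h2
    omega
  -- thick and thin columns
  let thick : ℕ → Prop := fun j => ∀ t ∈ Icc (0 : ℝ) 1,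
    ((z j).1, (z j).2 + t) ∈ connectedComponentIn {u | c1 < f u} p
  have hthin : ∀ j : ℕ, ∃ t : ℝ, j < N * n → ¬ thick j → t ∈ Icc (0 : ℝ) 1 ∧
      f ((z j).1, (z j).2 + t) = c2 ∧
      ((z j).1, (z j).2 + t) ∈ connectedComponentIn {u | c1 < f u} p := by
    intro j
    by_cases hj : j < N * n
    · by_cases hth : thick j
      · exact ⟨0, fun _ h => absurd hth h⟩
      · rcases column hf h12 (hβC (hz j hj).1) (hfβ _ (hz j hj).1) with h | ⟨t, h1, h2, h3⟩
        · exact absurd h hth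
        · exact ⟨t, fun _ _ => ⟨h1, h2, h3⟩⟩
    · exact ⟨0, fun h => absurd h hj⟩
  choose t ht using hthin
  let A := (Finset.range (N * n)).filter thick
  let B := (Finset.range (N * n)).filter (fun j => ¬ thick j)
  have hAB : A.card + B.card = N * n := by
    have := Finset.card_filter_add_card_filter_not (s := Finset.range (N * n)) thick
    rw [Finset.card_range] at this
    exact this
  by_cases hcase : N * n ≤ 2 * A.card
  · -- many thick columns
    let F : ℕ × ℕ → ℝ × ℝ := fun o => ((z o.1).1, (z o.1).2 + (o.2 : ℝ) / n)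
    have hinj : ∀ o ∈ A ×ˢ Finset.range n, ∀ o' ∈ A ×ˢ Finset.range n,
        |(F o).1 - (F o').1| < 1 / n → |(F o).2 - (F o').2| < 1 / n → o = o' := by
      rintro ⟨j, i⟩ ho ⟨j', i'⟩ ho' h1 h2
      simp only [Finset.mem_product, Finset.mem_filter, Finset.mem_range, A] at ho ho'
      have hjj : j = j' := hdiff j j' ho.1.1 ho'.1.1 h1
      subst hjj
      simp only [F] at h2
      have e : (z j).2 + (i : ℝ) / n - ((z j).2 + (i' : ℝ) / n) = ((i : ℝ) - i') / n := by ring
      rw [e, abs_div, abs_of_pos hnpos, div_lt_div_iff_of_pos_right hnpos] at h2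
      have h3 : |(i : ℤ) - i'| < 1 := by exact_mod_cast h2
      have h4 := Int.abs_lt_one_iff.mp h3
      have : i = i' := by omega
      rw [this]
    refine ⟨(A ×ˢ Finset.range n).image F, ?_, ?_, ?_, Or.inl ?_⟩
    · intro w hw
      obtain ⟨⟨j, i⟩, ho, rfl⟩ := Finset.mem_image.mp hw
      simp only [Finset.mem_product, Finset.mem_filter, Finset.mem_range, A] at ho
      refine ho.1.2 _ ⟨by positivity, ?_⟩
      rw [div_le_one hnpos]
      exact_mod_cast ho.2.le
    · intro w hw w' hw' h1 h2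
      obtain ⟨o, ho, rfl⟩ := Finset.mem_image.mp hw
      obtain ⟨o', ho', rfl⟩ := Finset.mem_image.mp hw'
      rw [hinj o ho o' ho' h1 h2]
    · intro w hw
      obtain ⟨⟨j, i⟩, ho, rfl⟩ := Finset.mem_image.mp hw
      simp only [Finset.mem_product, Finset.mem_filter, Finset.mem_range, A] at ho
      have hb := hbd _ (hz j ho.1.1).1
      have hi0 : (0 : ℝ) ≤ (i : ℝ) / n := by positivity
      have hi1 : (i : ℝ) / n ≤ 1 := by
        rw [div_le_one hnpos]
        exact_mod_cast ho.2.le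
      refine ⟨by simp only [F]; linarith [hb.1], ?_⟩
      simp only [F]
      have := hb.2
      rw [abs_le] at this ⊢
      constructor <;> linarith [this.1, this.2]
    · rw [Finset.card_image_of_injOn, Finset.card_product, Finset.card_range]
      · nlinarith
      · intro o ho o' ho' h
        refine hinj o ho o' ho' ?_ ?_
        · rw [h, sub_self, abs_zero]; positivity
        · rw [h, sub_self, abs_zero]; positivity
  · -- many thin columns
    have hB : N * n ≤ 2 * B.card := by omega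
    let F : ℕ → ℝ × ℝ := fun j => ((z j).1, (z j).2 + t j)
    have hinj : ∀ j ∈ B, ∀ j' ∈ B, |(F j).1 - (F j').1| < 1 / n → j = j' := by
      intro j hj j' hj' h
      simp only [Finset.mem_filter, Finset.mem_range, B] at hj hj'
      exact hdiff j j' hj.1 hj'.1 h
    refine ⟨B.image F, ?_, ?_, ?_, Or.inr ⟨?_, ?_⟩⟩
    · intro w hw
      obtain ⟨j, hj, rfl⟩ := Finset.mem_image.mp hw
      simp only [Finset.mem_filter, Finset.mem_range, B] at hj
      exact (ht j hj.1 hj.2).2.2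
    · intro w hw w' hw' h1 _
      obtain ⟨o, ho, rfl⟩ := Finset.mem_image.mp hw
      obtain ⟨o', ho', rfl⟩ := Finset.mem_image.mp hw'
      rw [hinj o ho o' ho' h1]
    · intro w hw
      obtain ⟨j, hj, rfl⟩ := Finset.mem_image.mp hw
      simp only [Finset.mem_filter, Finset.mem_range, B] at hj
      have hb := hbd _ (hz j hj.1).1
      have htj := (ht j hj.1 hj.2).1
      refine ⟨by simp only [F]; linarith [hb.1], ?_⟩
      simp only [F]
      have := hb.2
      rw [abs_le] at this ⊢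
      constructor <;> linarith [this.1, this.2, htj.1, htj.2]
    · rw [Finset.card_image_of_injOn]
      · exact hB
      · intro j hj j' hj' h
        refine hinj j hj j' hj' ?_
        rw [h, sub_self, abs_zero]; positivity
    · intro w hw
      obtain ⟨j, hj, rfl⟩ := Finset.mem_image.mp hw
      simp only [Finset.mem_filter, Finset.mem_range, B] at hj
      exact (ht j hj.1 hj.2).2.1

/-- both coordinates -/
theorem geo {f : ℝ × ℝ → ℝ} (hf : Continuous f) {c1 c2 : ℝ} (h12 : c1 < c2)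
    {β : Set (ℝ × ℝ)} (hβ : IsPreconnected β) (hfβ : ∀ u ∈ β, c2 ≤ f u)
    {p q : ℝ × ℝ} (hp : p ∈ β) (hq : q ∈ β) {N n : ℕ} (hn : 1 ≤ n)
    (hpq : (N : ℝ) ≤ |q.1 - p.1| ∨ (N : ℝ) ≤ |q.2 - p.2|)
    (hbd : ∀ u ∈ β, |u.1 - p.1| ≤ N ∧ |u.2 - p.2| ≤ N) :
    ∃ Z : Finset (ℝ × ℝ), (∀ z ∈ Z, z ∈ connectedComponentIn {u | c1 < f u} p) ∧
      Separated n Z ∧ (∀ z ∈ Z, |z.1 - p.1| ≤ N + 1 ∧ |z.2 - p.2| ≤ N + 1) ∧
      (N * n ^ 2 ≤ 2 * Z.card ∨ (N * n ≤ 2 * Z.card ∧ ∀ z ∈ Z, f z = c2)) := by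
  classical
  rcases hpq with h | h
  · exact geo1 hf h12 hβ hfβ hp hq hn h hbd
  · have hsw : Continuous (Prod.swap : ℝ × ℝ → ℝ × ℝ) := continuous_swap
    obtain ⟨Z, h1, h2, h3, h4⟩ := geo1 (f := f ∘ Prod.swap) (hf.comp hsw) h12
      (β := Prod.swap '' β) (hβ.image _ hsw.continuousOn)
      (by rintro _ ⟨u, hu, rfl⟩; simpa using hfβ u hu)
      (p := p.swap) (q := q.swap) ⟨p, hp, rfl⟩ ⟨q, hq, rfl⟩ hn (by simpa using h)
      (by rintro _ ⟨u, hu, rfl⟩; exact ⟨(hbd u hu).2, (hbd u hu).1⟩)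
    have hcard : (Z.image Prod.swap).card = Z.card :=
      Finset.card_image_of_injective _ Prod.swap_injective
    refine ⟨Z.image Prod.swap, ?_, ?_, ?_, ?_⟩
    · intro w hw
      obtain ⟨z, hz, rfl⟩ := Finset.mem_image.mp hw
      have hz' := h1 z hz
      have hpc : IsPreconnected (Prod.swap ''
          connectedComponentIn {u | c1 < (f ∘ Prod.swap) u} p.swap) :=
        isPreconnected_connectedComponentIn.image _ hsw.continuousOn
      have hpmem : p.swap ∈ {u | c1 < (f ∘ Prod.swap) u} := by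
        have := hfβ p hp
        simpa using lt_of_lt_of_le h12 this
      have hsub := hpc.subset_connectedComponentIn (F := {u | c1 < f u}) (x := p)
        ⟨p.swap, mem_connectedComponentIn hpmem, by simp⟩ (by
          rintro _ ⟨u, hu, rfl⟩
          have hu' : u ∈ {u | c1 < (f ∘ Prod.swap) u} := connectedComponentIn_subset _ _ hu
          exact hu')
      exact hsub ⟨z, hz', rfl⟩
    · intro w hw w' hw' g1 g2
      obtain ⟨z, hz, rfl⟩ := Finset.mem_image.mp hw
      obtain ⟨z', hz', rfl⟩ := Finset.mem_image.mp hw'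
      rw [h2 z hz z' hz' g2 g1]
    · intro w hw
      obtain ⟨z, hz, rfl⟩ := Finset.mem_image.mp hw
      exact ⟨(h3 z hz).2, (h3 z hz).1⟩
    · rw [hcard]
      rcases h4 with h4 | ⟨h4, h5⟩
      · exact Or.inl h4
      · refine Or.inr ⟨h4, ?_⟩
        intro w hw
        obtain ⟨z, hz, rfl⟩ := Finset.mem_image.mp hw
        exact h5 z hz

end Pool.Agent.Novik
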