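import Pool.Agent.Novik.Pigeon

/-!
# Long connected sets percolate, and the transfer between directions
-/

namespace Pool.Agent.Novik

open Set

variable {G : ℝ → ℝ → ℝ → ℝ} {L : ℕ} {x y a : ℝ}

theorem Nice.continuous_sec (hG : Nice G L) (hx : |x| ≤ 2) (hy : |y| ≤ 2) :
    Continuous (sec G x y a) := by
  have h : LipschitzWith (4 * (L : NNReal)) (sec G x y a) := by
    refine LipschitzWith.of_dist_le_mul ?_
    intro u v
    rw [Real.dist_eq]
    have h1 : |u.1 - v.1| ≤ dist u v := by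
      rw [Prod.dist_eq, ← Real.dist_eq]; exact le_max_left _ _
    have h2 : |u.2 - v.2| ≤ dist u v := by
      rw [Prod.dist_eq, ← Real.dist_eq]; exact le_max_right _ _
    have := hG.sec_lip (a := a) hx hy h1 h2
    simpa using this
  exact h.continuous

theorem cube_mem {n : ℕ} (hn : 1 ≤ n) (u v t : ℝ) :
    cube n u v t ∈ Finset.Ico (0 : ℤ) n ×ˢ (Finset.Ico (0 : ℤ) n ×ˢ Finset.Ico (0 : ℤ) n) := by
  have hnpos : (0 : ℝ) < n := by exact_mod_cast hn
  have key : ∀ s : ℝ, ⌊(n : ℝ) * Int.fract s⌋ ∈ Finset.Ico (0 : ℤ) n := by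
    intro s
    rw [Finset.mem_Ico]
    constructor
    · exact Int.floor_nonneg.mpr (mul_nonneg hnpos.le (Int.fract_nonneg s))
    · rw [Int.floor_lt]
      push_cast
      have := Int.fract_lt_one s
      nlinarith
  simp only [cube, Finset.mem_product]
  exact ⟨key u, key v, key t⟩

/-- Long connected sets give two independent integer vectors. -/
theorem two_vectors (hG : Nice G L) (hL : 1 ≤ L) (hx : |x| ≤ 2) (hy : |y| ≤ 2)
    {n N M Γ : ℕ} (hn : 1 ≤ n) (hM : 1 ≤ M) (hΓ : 1 ≤ Γ) (hN : 72 * (M + 1) * Γ * n < N)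
    {c : ℝ} (hcub : (levelCubes G n c).Finite) (hcard : (levelCubes G n c).ncard ≤ Γ * n ^ 2)
    (hgood : Good x y n N M) {β : Set (ℝ × ℝ)} (hβ : IsPreconnected β)
    (hfβ : ∀ u ∈ β, c ≤ sec G x y a u) {p q : ℝ × ℝ} (hp : p ∈ β) (hq : q ∈ β)
    (hpq : (N : ℝ) ≤ |q.1 - p.1| ∨ (N : ℝ) ≤ |q.2 - p.2|)
    (hbd : ∀ u ∈ β, |u.1 - p.1| ≤ N ∧ |u.2 - p.2| ≤ N) :
    ∃ k l : ℤ × ℤ × ℤ,
      Adj (connectedComponentIn {u | c - 9 * L / n < sec G x y a u} p) n k ∧
      Adj (connectedComponentIn {u | c - 9 * L / n < sec G x y a u} p) n l ∧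
      |th x y k| ≤ 5 / n ∧ |th x y l| ≤ 5 / n ∧ ¬ Par k l := by
  classical
  have hnpos : (0 : ℝ) < n := by exact_mod_cast hn
  have hLpos : (0 : ℝ) < L := by exact_mod_cast hL
  have hN1 : 1 ≤ N := by omega
  have h12 : c - 9 * L / n < c := by
    have : (0 : ℝ) < 9 * L / n := by positivity
    linarith
  obtain ⟨Z, hZC, hsep, hZp, hZ⟩ := geo (hG.continuous_sec (a := a) hx hy) h12 hβ hfβ hp hq hn
    hpq hbd
  rcases hZ with hZ | ⟨hZ, hZf⟩
  · refine pigeon (a := a) hx hy hn hN1 hM Z hZC hsep hZp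
      (Finset.Ico (0 : ℤ) n ×ˢ (Finset.Ico (0 : ℤ) n ×ˢ Finset.Ico (0 : ℤ) n))
      (fun z _ => cube_mem hn _ _ _) ?_ hgood
    have hc : (Finset.Ico (0 : ℤ) n ×ˢ (Finset.Ico (0 : ℤ) n ×ˢ
        Finset.Ico (0 : ℤ) n)).card = n ^ 3 := by
      simp only [Finset.card_product, Int.card_Ico, sub_zero, Int.toNat_natCast]
      ring
    rw [hc]
    have h1 : 72 * (M + 1) * n ≤ 72 * (M + 1) * Γ * n := by
      refine Nat.mul_le_mul_right _ ?_
      exact Nat.le_mul_of_pos_right _ hΓ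
    have h2 : 72 * (M + 1) * n < N := lt_of_le_of_lt h1 hN
    have h3 : 2 * (36 * N ^ 2 * n ^ 3 * (M + 1)) < 2 * (Z.card * N ^ 2) := by
      calc 2 * (36 * N ^ 2 * n ^ 3 * (M + 1)) = (72 * (M + 1) * n) * (n ^ 2 * N ^ 2) := by ring
        _ < N * (n ^ 2 * N ^ 2) := Nat.mul_lt_mul_of_pos_right h2 (by positivity)
        _ = (N * n ^ 2) * N ^ 2 := by ring
        _ ≤ (2 * Z.card) * N ^ 2 := Nat.mul_le_mul_right _ hZ
        _ = 2 * (Z.card * N ^ 2) := by ring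
    omega
  · refine pigeon (a := a) hx hy hn hN1 hM Z hZC hsep hZp hcub.toFinset
      (fun z hz => ?_) ?_ hgood
    · rw [Set.Finite.mem_toFinset]
      exact ⟨_, _, _, rfl, hZf z hz⟩
    · rw [← Set.ncard_eq_toFinset_card _ hcub]
      have h3 : 2 * (36 * N ^ 2 * (levelCubes G n c).ncard * (M + 1)) <
          2 * (Z.card * N ^ 2) := by
        calc 2 * (36 * N ^ 2 * (levelCubes G n c).ncard * (M + 1))
            = (72 * (M + 1) * N ^ 2) * (levelCubes G n c).ncard := by ring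
          _ ≤ (72 * (M + 1) * N ^ 2) * (Γ * n ^ 2) := Nat.mul_le_mul_left _ hcard
          _ = (72 * (M + 1) * Γ * n) * (n * N ^ 2) := by ring
          _ < N * (n * N ^ 2) := Nat.mul_lt_mul_of_pos_right hN (by positivity)
          _ = (N * n) * N ^ 2 := by ring
          _ ≤ (2 * Z.card) * N ^ 2 := Nat.mul_le_mul_right _ hZ
          _ = 2 * (Z.card * N ^ 2) := by ring
      omega

/-- **Long connected sets percolate.** -/
theorem main_perc (hG : Nice G L) (hL : 1 ≤ L) (hx : |x| ≤ 2) (hy : |y| ≤ 2)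
    {n N M Γ : ℕ} (hn : 1 ≤ n) (hM : 1 ≤ M) (hΓ : 1 ≤ Γ) (hN : 72 * (M + 1) * Γ * n < N)
    {c : ℝ} (hcub : (levelCubes G n c).Finite) (hcard : (levelCubes G n c).ncard ≤ Γ * n ^ 2)
    (hgood : Good x y n N M) {β : Set (ℝ × ℝ)} (hβ : IsPreconnected β)
    (hfβ : ∀ u ∈ β, c ≤ sec G x y a u) {p q : ℝ × ℝ} (hp : p ∈ β) (hq : q ∈ β)
    (hpq : (N : ℝ) ≤ |q.1 - p.1| ∨ (N : ℝ) ≤ |q.2 - p.2|)
    (hbd : ∀ u ∈ β, |u.1 - p.1| ≤ N ∧ |u.2 - p.2| ≤ N) :
    Perc G x y (c - 18 * L / n) := by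
  obtain ⟨k, l, hk, hl, hk1, hl1, hkl⟩ := two_vectors (a := a) hG hL hx hy hn hM hΓ hN hcub
    hcard hgood hβ hfβ hp hq hpq hbd
  refine perc_of_two (a := a) hG hx hy isPreconnected_connectedComponentIn ?_ hk hl hk1 hl1 hkl
  intro u hu
  have hu' : u ∈ {u | c - 9 * L / n < sec G x y a u} := connectedComponentIn_subset _ _ hu
  have h1 : c - 9 * L / n < sec G x y a u := hu'
  have e : c - 18 * L / n + 9 * (L : ℝ) / n = c - 9 * L / n := by ring
  rw [e]
  exact h1.le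

/-- **Cutting**: a connected set with two far points gives a connected set of the size `N` at a
neighbouring direction. -/
theorem cut (hG : Nice G L) (hx : |x| ≤ 2) (hy : |y| ≤ 2) {x' y' δ : ℝ}
    (hxx : |x' - x| ≤ δ) (hyy : |y' - y| ≤ δ) {c : ℝ} {U : Set (ℝ × ℝ)} (hU : IsPreconnected U)
    (hUf : ∀ u ∈ U, c ≤ sec G x y a u) {p q0 : ℝ × ℝ} (hp : p ∈ U) (hq0 : q0 ∈ U) {η : ℝ}
    (hη : 0 < η) {N : ℕ} (hq0d : (N : ℝ) ≤ dist q0 p) :
    ∃ (a' : ℝ) (β : Set (ℝ × ℝ)) (q : ℝ × ℝ), IsPreconnected β ∧ p ∈ β ∧ q ∈ β ∧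
      ((N : ℝ) ≤ |q.1 - p.1| ∨ (N : ℝ) ≤ |q.2 - p.2|) ∧
      (∀ u ∈ β, |u.1 - p.1| ≤ N ∧ |u.2 - p.2| ≤ N) ∧
      ∀ u ∈ β, c - η - L * (2 * δ * N) ≤ sec G x' y' a' u := by
  have hδ : 0 ≤ δ := le_trans (abs_nonneg _) hxx
  have hcont := hG.continuous_sec (a := a) hx hy
  have hOopen : IsOpen {u | c - η < sec G x y a u} := isOpen_lt continuous_const hcont
  have hUO : U ⊆ {u | c - η < sec G x y a u} := by
    intro u hu
    have := hUf u hu
    show c - η < sec G x y a u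
    linarith
  let CO := connectedComponentIn {u | c - η < sec G x y a u} p
  have hCOopen : IsOpen CO := hOopen.connectedComponentIn
  have hUCO : U ⊆ CO := hU.subset_connectedComponentIn hp hUO
  have hCOconn : IsConnected CO := ⟨⟨p, hUCO hp⟩, isPreconnected_connectedComponentIn⟩
  have hCOpath : IsPathConnected CO := hCOopen.isConnected_iff_isPathConnected.mp hCOconn
  obtain ⟨γ, hγ⟩ := hCOpath.joinedIn p (hUCO hp) q0 (hUCO hq0)
  let g : ℝ → ℝ := fun t => dist (γ.extend t) p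
  have hgc : Continuous g := (γ.continuous_extend).dist continuous_const
  have hg0 : g 0 = 0 := by simp [g]
  have hg1 : (N : ℝ) ≤ g 1 := by simpa [g] using hq0d
  let S : Set ℝ := Icc 0 1 ∩ {t | (N : ℝ) ≤ g t}
  have hSc : IsClosed S := isClosed_Icc.inter (isClosed_le continuous_const hgc)
  have hSne : S.Nonempty := ⟨1, ⟨zero_le_one, le_refl _⟩, hg1⟩
  have hSb : BddBelow S := ⟨0, fun t ht => ht.1.1⟩
  have hmem : sInf S ∈ S := hSc.csInf_mem hSne hSb
  have hbefore : ∀ t, 0 ≤ t → t < sInf S → g t < N := by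
    intro t h0 ht
    by_contra hcon
    push Not at hcon
    have : t ∈ S := ⟨⟨h0, le_trans ht.le hmem.1.2⟩, hcon⟩
    exact absurd (csInf_le hSb this) (not_le.mpr ht)
  have hle : ∀ t ∈ Icc 0 (sInf S), g t ≤ N := by
    intro t ht
    rcases eq_or_lt_of_le ht.2 with h | h
    · rw [h]
      rcases eq_or_lt_of_le hmem.1.1 with h0 | h0
      · rw [← h0, hg0]; exact Nat.cast_nonneg N
      · have hlim : Filter.Tendsto g (nhdsWithin (sInf S) (Iio (sInf S)))
            (nhds (g (sInf S))) := (hgc.tendsto _).mono_left nhdsWithin_le_nhds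
        refine le_of_tendsto hlim ?_
        have : Ioo 0 (sInf S) ∈ nhdsWithin (sInf S) (Iio (sInf S)) := Ioo_mem_nhdsLT h0
        filter_upwards [this] with t ht
        exact (hbefore t ht.1.le ht.2).le
    · exact (hbefore t ht.1 h).le
  have hγCO : ∀ t, γ.extend t ∈ CO := by
    intro t
    have : γ.extend t ∈ Set.range γ.extend := ⟨t, rfl⟩
    rw [Path.extend_range] at this
    obtain ⟨s, hs⟩ := this
    rw [← hs]
    exact hγ s
  refine ⟨a + (x' - x) * p.1 + (y' - y) * p.2, γ.extend '' Icc 0 (sInf S),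
    γ.extend (sInf S), isPreconnected_Icc.image _ γ.continuous_extend.continuousOn, ?_, ?_, ?_,
    ?_, ?_⟩
  · exact ⟨0, ⟨le_refl _, hmem.1.1⟩, by simp⟩
  · exact ⟨sInf S, ⟨hmem.1.1, le_refl _⟩, rfl⟩
  · have h1 : (N : ℝ) ≤ g (sInf S) := hmem.2
    simp only [g, Prod.dist_eq, Real.dist_eq] at h1
    exact le_max_iff.mp h1
  · rintro _ ⟨t, ht, rfl⟩
    have h1 := hle t ht
    simp only [g, Prod.dist_eq, Real.dist_eq] at h1
    exact ⟨(le_max_left _ _).trans h1, (le_max_right _ _).trans h1⟩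
  · rintro _ ⟨t, ht, rfl⟩
    have h1 := hle t ht
    simp only [g, Prod.dist_eq, Real.dist_eq] at h1
    have h2 := (le_max_left _ _).trans h1
    have h3 := (le_max_right _ _).trans h1
    set u := γ.extend t
    have hu' : u ∈ {u | c - η < sec G x y a u} := connectedComponentIn_subset _ _ (hγCO t)
    have h4 : c - η < sec G x y a u := hu'
    have h5 := hG.lip3 u.1 u.2 (a + (x' - x) * p.1 + (y' - y) * p.2 - x' * u.1 - y' * u.2)
      (a - x * u.1 - y * u.2)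
    have e : a + (x' - x) * p.1 + (y' - y) * p.2 - x' * u.1 - y' * u.2 -
        (a - x * u.1 - y * u.2) = -((x' - x) * (u.1 - p.1)) + -((y' - y) * (u.2 - p.2)) := by
      ring
    have h6 : |a + (x' - x) * p.1 + (y' - y) * p.2 - x' * u.1 - y' * u.2 -
        (a - x * u.1 - y * u.2)| ≤ 2 * δ * N := by
      rw [e]
      refine le_trans (abs_add_le _ _) ?_
      rw [abs_neg, abs_neg, abs_mul, abs_mul]
      have := mul_le_mul hxx h2 (abs_nonneg _) hδ
      have := mul_le_mul hyy h3 (abs_nonneg _) hδ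
      linarith
    have h7 := mul_le_mul_of_nonneg_left h6 (Nat.cast_nonneg (α := ℝ) L)
    have h8 := (abs_le.mp (h5.trans h7)).1
    unfold sec at h4 ⊢
    linarith

/-- **Transfer** of a piece of an unbounded connected set to a neighbouring direction. -/
theorem transfer (hG : Nice G L) (hx : |x| ≤ 2) (hy : |y| ≤ 2) {x' y' δ : ℝ}
    (hxx : |x' - x| ≤ δ) (hyy : |y' - y| ≤ δ) {c : ℝ} (hperc : Perc G x y c) {η : ℝ}
    (hη : 0 < η) (N : ℕ) :
    ∃ (a' : ℝ) (β : Set (ℝ × ℝ)) (p q : ℝ × ℝ), IsPreconnected β ∧ p ∈ β ∧ q ∈ β ∧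
      ((N : ℝ) ≤ |q.1 - p.1| ∨ (N : ℝ) ≤ |q.2 - p.2|) ∧
      (∀ u ∈ β, |u.1 - p.1| ≤ N ∧ |u.2 - p.2| ≤ N) ∧
      ∀ u ∈ β, c - η - L * (2 * δ * N) ≤ sec G x' y' a' u := by
  obtain ⟨a, U, hU, hUb, hUf⟩ := hperc
  have hUne : U.Nonempty := by
    by_contra h
    rw [Set.not_nonempty_iff_eq_empty] at h
    exact hUb (h ▸ Bornology.isBounded_empty)
  obtain ⟨p, hp⟩ := hUne
  have hfar : ∃ q ∈ U, (N : ℝ) ≤ dist q p := by
    by_contra h
    push Not at h
    apply hUb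
    refine (Metric.isBounded_closedBall (x := p) (r := N)).subset ?_
    intro q hq
    exact (h q hq).le
  obtain ⟨q0, hq0, hq0d⟩ := hfar
  obtain ⟨a', β, q, h⟩ := cut (a := a) hG hx hy hxx hyy hU hUf hp hq0 hη hq0d
  exact ⟨a', β, p, q, h⟩

theorem Perc.mono {c c' : ℝ} (h : c' ≤ c) (hp : Perc G x y c) : Perc G x y c' := by
  obtain ⟨a, U, h1, h2, h3⟩ := hp
  exact ⟨a, U, h1, h2, fun u hu => h.trans (h3 u hu)⟩

theorem Nice.bdd (hG : Nice G L) (u v t : ℝ) : |G u v t - G 0 0 0| ≤ L := by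
  have h := hG.shift (Int.fract u) (Int.fract v) (Int.fract t) ⌊u⌋ ⌊v⌋ ⌊t⌋
  rw [Int.fract_add_floor, Int.fract_add_floor, Int.fract_add_floor] at h
  rw [h]
  refine le_trans (hG.lip _ _ _ _ _ _) ?_
  refine mul_le_of_le_one_right (Nat.cast_nonneg L) ?_
  have key : ∀ s : ℝ, |Int.fract s - 0| ≤ 1 := by
    intro s
    rw [sub_zero, abs_of_nonneg (Int.fract_nonneg s)]
    exact (Int.fract_lt_one s).le
  exact max_le (max_le (key u) (key v)) (key t)

theorem not_isBounded_univ_prod : ¬ Bornology.IsBounded (Set.univ : Set (ℝ × ℝ)) := by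
  intro h
  exact NormedSpace.unbounded_univ ℝ (ℝ × ℝ) h

theorem perc_low (hG : Nice G L) {c : ℝ} (hc : c ≤ G 0 0 0 - L) : Perc G x y c := by
  refine ⟨0, Set.univ, isPreconnected_univ, not_isBounded_univ_prod, ?_⟩
  intro u _
  have := (abs_le.mp (hG.bdd u.1 u.2 (0 - x * u.1 - y * u.2))).1
  unfold sec
  linarith

theorem perc_le (hG : Nice G L) {c : ℝ} (h : Perc G x y c) : c ≤ G 0 0 0 + L := by
  obtain ⟨a, U, h1, h2, h3⟩ := h
  have hUne : U.Nonempty := by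
    by_contra h
    rw [Set.not_nonempty_iff_eq_empty] at h
    exact h2 (h ▸ Bornology.isBounded_empty)
  obtain ⟨u, hu⟩ := hUne
  have h4 := h3 u hu
  have := (abs_le.mp (hG.bdd u.1 u.2 (a - x * u.1 - y * u.2))).2
  unfold sec at h4
  linarith

theorem bddAbove_perc (hG : Nice G L) : BddAbove {c | Perc G x y c} :=
  ⟨G 0 0 0 + L, fun _ h => perc_le hG h⟩

theorem perc_nonempty (hG : Nice G L) : {c | Perc G x y c}.Nonempty :=
  ⟨G 0 0 0 - L, perc_low hG (le_refl _)⟩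

theorem le_thr (hG : Nice G L) {c : ℝ} (h : Perc G x y c) : c ≤ thr G x y :=
  le_csSup (bddAbove_perc hG) h

theorem perc_of_lt_thr (hG : Nice G L) {c : ℝ} (h : c < thr G x y) : Perc G x y c := by
  obtain ⟨c', hc', hlt⟩ := exists_lt_of_lt_csSup (perc_nonempty hG) h
  exact Perc.mono hlt.le hc'

theorem abs_thr_le (hG : Nice G L) : |thr G x y| ≤ |G 0 0 0| + L := by
  have h1 := le_thr (x := x) (y := y) hG (perc_low hG (le_refl _))
  have h2 : thr G x y ≤ G 0 0 0 + L :=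
    csSup_le (perc_nonempty hG) (fun _ h => perc_le hG h)
  rw [abs_le]
  constructor
  · linarith [neg_abs_le (G 0 0 0)]
  · linarith [le_abs_self (G 0 0 0)]

/-- **The step**: in a small square without short relations the threshold cannot pass over a
level which meets few cubes. -/
theorem resolve (hG : Nice G L) (hL : 1 ≤ L) (hx : |x| ≤ 2) (hy : |y| ≤ 2) {x' y' δ : ℝ}
    (hx' : |x'| ≤ 2) (hy' : |y'| ≤ 2)
    (hxx : |x' - x| ≤ δ) (hyy : |y' - y| ≤ δ) {n N M Γ : ℕ} (hn : 1 ≤ n) (hM : 1 ≤ M)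
    (hΓ : 1 ≤ Γ) (hN : 72 * (M + 1) * Γ * n < N) (hδ : n * (2 * δ * N) ≤ 1)
    {c : ℝ} (hcub : (levelCubes G n c).Finite) (hcard : (levelCubes G n c).ncard ≤ Γ * n ^ 2)
    (hgood : Good x' y' n N M) :
    ¬ (thr G x' y' < c - 18 * L / n ∧ c + 18 * L / n < thr G x y) := by
  rintro ⟨h1, h2⟩
  have hnpos : (0 : ℝ) < n := by exact_mod_cast hn
  have hLpos : (0 : ℝ) < L := by exact_mod_cast hL
  have hpos : (0 : ℝ) < L / n := by positivity
  obtain ⟨a', β, p, q, b1, b2, b3, b4, b5, b6⟩ := transfer hG hx hy hxx hyy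
    (perc_of_lt_thr hG h2) hpos N
  have h3 : (L : ℝ) * (2 * δ * N) ≤ L / n := by
    rw [le_div_iff₀ hnpos]
    calc (L : ℝ) * (2 * δ * N) * n = L * (n * (2 * δ * N)) := by ring
      _ ≤ L * 1 := mul_le_mul_of_nonneg_left hδ hLpos.le
      _ = L := mul_one _
  have e18 : 18 * (L : ℝ) / n = 18 * (L / n) := by ring
  have hperc := main_perc (a := a') hG hL hx' hy' hn hM hΓ hN hcub hcard hgood b1 (by
    intro u hu
    have := b6 u hu
    rw [e18] at this
    linarith) b2 b3 b4 b5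
  have := le_thr hG hperc
  linarith

end Pool.Agent.Novik
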