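import Pool.Agent.Novik.Walk
import Pool.Agent.Novik.Geo

/-!
# The pigeonhole step

Many separated points of `C` in few boxes give two independent integer vectors `k` with
`C`, `C + k` close and `θ(k)` small, unless the direction has a small integer relation.
-/

namespace Pool.Agent.Novik

open Set

variable {G : ℝ → ℝ → ℝ → ℝ} {L : ℕ} {x y a : ℝ}

theorem small_diff_aux {r : ℝ} {N M : ℕ} (hM : 1 ≤ M)
    (V : Finset (ℤ × ℤ × ℤ)) (hcard : M + 2 ≤ V.card) (w : ℤ × ℤ × ℤ)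
    (hwN : |w.1| ≤ N ∧ |w.2.1| ≤ N) (hwr : |th x y w| ≤ r) (t : ℤ × ℤ × ℤ → ℝ)
    (ht : ∀ v ∈ V, |t v| ≤ 1 ∧ (v.1 : ℝ) = t v * w.1 ∧ (v.2.1 : ℝ) = t v * w.2.1 ∧
      th x y v = t v * th x y w) :
    ∃ v ∈ V, ∃ v' ∈ V, v ≠ v' ∧ M * |v.1 - v'.1| ≤ 2 * N ∧ M * |v.2.1 - v'.2.1| ≤ 2 * N ∧
      M * |th x y (v - v')| ≤ 2 * r := by
  have hMpos : (0 : ℝ) < M := by exact_mod_cast hM
  have hmaps : ∀ v ∈ V, ⌊(t v + 1) * M / 2⌋ ∈ Finset.Icc (0 : ℤ) M := by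
    intro v hv
    have h := abs_le.mp (ht v hv).1
    rw [Finset.mem_Icc]
    constructor
    · apply Int.floor_nonneg.mpr
      have : 0 ≤ (t v + 1) * M := mul_nonneg (by linarith [h.1]) hMpos.le
      linarith
    · have h1 : (t v + 1) * M / 2 ≤ M := by nlinarith [h.2]
      have h2 : ((⌊(t v + 1) * M / 2⌋ : ℤ) : ℝ) ≤ (M : ℤ) := by
        push_cast
        exact (Int.floor_le _).trans h1
      exact_mod_cast h2
  have hlt : (Finset.Icc (0 : ℤ) M).card < V.card := by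
    rw [Int.card_Icc]
    omega
  obtain ⟨v, hv, v', hv', hne, heq⟩ := Finset.exists_ne_map_eq_of_card_lt_of_maps_to hlt hmaps
  have hdt : M * |t v - t v'| ≤ 2 := by
    have h1 := Int.abs_sub_lt_one_of_floor_eq_floor heq
    have e : (t v + 1) * M / 2 - (t v' + 1) * M / 2 = (t v - t v') * M / 2 := by ring
    rw [e, abs_div, abs_mul, abs_of_pos hMpos, abs_of_pos (by norm_num : (0 : ℝ) < 2)] at h1
    rw [div_lt_one (by norm_num)] at h1
    linarith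
  obtain ⟨-, b1, b2, b3⟩ := ht v hv
  obtain ⟨-, c1, c2, c3⟩ := ht v' hv'
  have hN0 : (0 : ℝ) ≤ N := Nat.cast_nonneg N
  refine ⟨v, hv, v', hv', hne, ?_, ?_, ?_⟩
  · have h1 : (M : ℝ) * |((v.1 : ℝ) - v'.1)| ≤ 2 * N := by
      rw [b1, c1, ← sub_mul, abs_mul, ← mul_assoc]
      have h2 : |(w.1 : ℝ)| ≤ N := by exact_mod_cast hwN.1
      exact mul_le_mul hdt h2 (abs_nonneg _) (by norm_num)
    exact_mod_cast h1
  · have h1 : (M : ℝ) * |((v.2.1 : ℝ) - v'.2.1)| ≤ 2 * N := by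
      rw [b2, c2, ← sub_mul, abs_mul, ← mul_assoc]
      have h2 : |(w.2.1 : ℝ)| ≤ N := by exact_mod_cast hwN.2
      exact mul_le_mul hdt h2 (abs_nonneg _) (by norm_num)
    exact_mod_cast h1
  · rw [th_sub, b3, c3, ← sub_mul, abs_mul, ← mul_assoc]
    exact mul_le_mul hdt hwr (abs_nonneg _) (by norm_num)

/-- Collinear vectors: two of them are close. -/
theorem small_diff {r : ℝ} {N M : ℕ} (hM : 1 ≤ M)
    (V : Finset (ℤ × ℤ × ℤ)) (hcard : M + 2 ≤ V.card)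
    (hpar : ∀ v ∈ V, ∀ w ∈ V, Par v w) (hN : ∀ v ∈ V, |v.1| ≤ N ∧ |v.2.1| ≤ N)
    (hth : ∀ v ∈ V, |th x y v| ≤ r)
    (hinj : ∀ v ∈ V, ∀ w ∈ V, v.1 = w.1 → v.2.1 = w.2.1 → v = w) :
    ∃ v ∈ V, ∃ v' ∈ V, v ≠ v' ∧ M * |v.1 - v'.1| ≤ 2 * N ∧ M * |v.2.1 - v'.2.1| ≤ 2 * N ∧
      M * |th x y (v - v')| ≤ 2 * r := by
  have hne : V.Nonempty := Finset.card_pos.mp (by omega)
  obtain ⟨w, hw, hwmax⟩ := Finset.exists_max_image V (fun v => |v.1|) hne
  by_cases h0 : w.1 = 0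
  · -- all first coordinates vanish
    have hall : ∀ v ∈ V, v.1 = 0 := by
      intro v hv
      have := hwmax v hv
      rw [h0, abs_zero] at this
      exact abs_eq_zero.mp (le_antisymm this (abs_nonneg _))
    obtain ⟨w', hw', hwmax'⟩ := Finset.exists_max_image V (fun v => |v.2.1|) hne
    have h0' : w'.2.1 ≠ 0 := by
      intro h0'
      have hall' : ∀ v ∈ V, v.2.1 = 0 := by
        intro v hv
        have := hwmax' v hv
        rw [h0', abs_zero] at this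
        exact abs_eq_zero.mp (le_antisymm this (abs_nonneg _))
      have : V.card ≤ 1 := by
        rw [Finset.card_le_one]
        intro v hv v' hv'
        exact hinj v hv v' hv' (by rw [hall v hv, hall v' hv']) (by rw [hall' v hv, hall' v' hv'])
      omega
    have h0r : (w'.2.1 : ℝ) ≠ 0 := by exact_mod_cast h0'
    refine small_diff_aux hM V hcard w' (hN w' hw') (hth w' hw')
      (fun v => (v.2.1 : ℝ) / w'.2.1) ?_
    intro v hv
    have hmax := hwmax' v hv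
    have hmaxr : |(v.2.1 : ℝ)| ≤ |(w'.2.1 : ℝ)| := by exact_mod_cast hmax
    have p3 := (hpar v hv w' hw').2.2
    have p3r : (v.2.1 : ℝ) * w'.2.2 = w'.2.1 * v.2.2 := by exact_mod_cast p3
    refine ⟨?_, ?_, ?_, ?_⟩
    · rw [abs_div]
      exact div_le_one_of_le₀ hmaxr (abs_nonneg _)
    · rw [hall v hv, hall w' hw']; simp
    · field_simp
    · simp only [th, theta, hall v hv, hall w' hw', Int.cast_zero, mul_zero, zero_add]
      field_simp
      linear_combination -p3r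
  · have h0r : (w.1 : ℝ) ≠ 0 := by exact_mod_cast h0
    refine small_diff_aux hM V hcard w (hN w hw) (hth w hw)
      (fun v => (v.1 : ℝ) / w.1) ?_
    intro v hv
    have hmax := hwmax v hv
    have hmaxr : |(v.1 : ℝ)| ≤ |(w.1 : ℝ)| := by exact_mod_cast hmax
    obtain ⟨p1, p2, -⟩ := hpar v hv w hw
    have p1r : (v.1 : ℝ) * w.2.1 = w.1 * v.2.1 := by exact_mod_cast p1
    have p2r : (v.1 : ℝ) * w.2.2 = w.1 * v.2.2 := by exact_mod_cast p2
    refine ⟨?_, ?_, ?_, ?_⟩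
    · rw [abs_div]
      exact div_le_one_of_le₀ hmaxr (abs_nonneg _)
    · field_simp
    · field_simp
      linear_combination -p1r
    · simp only [th, theta]
      field_simp
      linear_combination -y * p1r - p2r

theorem cell_close {n : ℕ} (hn : 1 ≤ n) {s s' : ℝ} (h1 : ⌊s⌋ = ⌊s'⌋)
    (h2 : ⌊n * Int.fract s⌋ = ⌊n * Int.fract s'⌋) : |s - s'| < 1 / n := by
  have hnpos : (0 : ℝ) < n := by exact_mod_cast hn
  have h3 := Int.abs_sub_lt_one_of_floor_eq_floor h2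
  have e : (n : ℝ) * Int.fract s - n * Int.fract s' = n * (s - s') := by
    unfold Int.fract
    rw [h1]
    ring
  rw [e, abs_mul, abs_of_pos hnpos] at h3
  rw [lt_div_iff₀ hnpos]
  linarith

theorem fract_close {n : ℕ} (hn : 1 ≤ n) {s s' : ℝ}
    (h2 : ⌊n * Int.fract s⌋ = ⌊n * Int.fract s'⌋) :
    |s - s' - ((⌊s⌋ : ℝ) - ⌊s'⌋)| < 1 / n := by
  have hnpos : (0 : ℝ) < n := by exact_mod_cast hn
  have h3 := Int.abs_sub_lt_one_of_floor_eq_floor h2
  have e : (n : ℝ) * Int.fract s - n * Int.fract s' = n * (s - s' - ((⌊s⌋ : ℝ) - ⌊s'⌋)) := by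
    unfold Int.fract
    ring
  rw [e, abs_mul, abs_of_pos hnpos] at h3
  rw [lt_div_iff₀ hnpos]
  linarith

theorem pigeon {C : Set (ℝ × ℝ)} {p : ℝ × ℝ} {n N M : ℕ} (hx : |x| ≤ 2) (hy : |y| ≤ 2)
    (hn : 1 ≤ n) (hN : 1 ≤ N) (hM : 1 ≤ M)
    (Z : Finset (ℝ × ℝ)) (hZC : ∀ z ∈ Z, z ∈ C) (hsep : Separated n Z)
    (hZp : ∀ z ∈ Z, |z.1 - p.1| ≤ N + 1 ∧ |z.2 - p.2| ≤ N + 1)
    (D : Finset (ℤ × ℤ × ℤ)) (hD : ∀ z ∈ Z, cube n z.1 z.2 (a - x * z.1 - y * z.2) ∈ D)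
    (hcard : 36 * N ^ 2 * D.card * (M + 1) < Z.card * N ^ 2) (hgood : Good x y n N M) :
    ∃ k l : ℤ × ℤ × ℤ, Adj C n k ∧ Adj C n l ∧ |th x y k| ≤ 5 / n ∧ |th x y l| ≤ 5 / n ∧
      ¬ Par k l := by
  classical
  have hnpos : (0 : ℝ) < n := by exact_mod_cast hn
  let Ob : Finset ((ℝ × ℝ) × (ℕ × ℕ)) := Z ×ˢ (Finset.range N ×ˢ Finset.range N)
  let F : (ℝ × ℝ) × (ℕ × ℕ) → (ℤ × ℤ) × (ℤ × ℤ × ℤ) := fun o =>
    ((⌊o.1.1 + o.2.1⌋, ⌊o.1.2 + o.2.2⌋), cube n o.1.1 o.1.2 (a - x * o.1.1 - y * o.1.2))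
  let Bx : Finset ((ℤ × ℤ) × (ℤ × ℤ × ℤ)) :=
    (Finset.Icc (⌊p.1⌋ - (N + 1)) (⌊p.1⌋ + 2 * N) ×ˢ
      Finset.Icc (⌊p.2⌋ - (N + 1)) (⌊p.2⌋ + 2 * N)) ×ˢ D
  have hfl : ∀ (s p : ℝ) (k : ℕ), |s - p| ≤ N + 1 → k < N →
      ⌊s + k⌋ ∈ Finset.Icc (⌊p⌋ - (N + 1 : ℤ)) (⌊p⌋ + 2 * N) := by
    intro s p k h1 h2
    rw [abs_le] at h1
    have hk : (k : ℝ) + 1 ≤ N := by exact_mod_cast h2
    have hk0 : (0 : ℝ) ≤ k := Nat.cast_nonneg k
    rw [Finset.mem_Icc]
    constructor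
    · rw [Int.le_floor]
      push_cast
      have := Int.floor_le p
      linarith [h1.1]
    · have h3 : s + k < ⌊p⌋ + 2 * N + 1 := by
        have := Int.lt_floor_add_one p
        linarith [h1.2]
      have h4 : ⌊s + k⌋ < ⌊p⌋ + 2 * N + 1 := by
        rw [Int.floor_lt]
        push_cast
        exact h3
      omega
  have hmaps : ∀ o ∈ Ob, F o ∈ Bx := by
    rintro ⟨z, k1, k2⟩ ho
    simp only [Ob, Finset.mem_product, Finset.mem_range] at ho
    obtain ⟨hz, hk1, hk2⟩ := ho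
    simp only [Bx, F, Finset.mem_product]
    exact ⟨⟨hfl _ _ _ (hZp z hz).1 hk1, hfl _ _ _ (hZp z hz).2 hk2⟩, hD z hz⟩
  have hBx : Bx.card ≤ 36 * N ^ 2 * D.card := by
    simp only [Bx, Finset.card_product, Int.card_Icc]
    have e1 : (⌊p.1⌋ + 2 * (N : ℤ) + 1 - (⌊p.1⌋ - (N + 1))).toNat = 3 * N + 2 := by omega
    have e2 : (⌊p.2⌋ + 2 * (N : ℤ) + 1 - (⌊p.2⌋ - (N + 1))).toNat = 3 * N + 2 := by omega
    rw [e1, e2]
    refine Nat.mul_le_mul_right _ ?_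
    nlinarith
  have hOb : Ob.card = Z.card * N ^ 2 := by
    simp only [Ob, Finset.card_product, Finset.card_range]
    ring
  have hlt : Bx.card * (M + 1) < Ob.card := by
    rw [hOb]
    refine lt_of_le_of_lt (Nat.mul_le_mul_right _ hBx) hcard
  obtain ⟨b, hb, hfib⟩ := Finset.exists_lt_card_fiber_of_mul_lt_card_of_maps_to hmaps hlt
  set Fb := Ob.filter (fun o => F o = b) with hFb
  have hFbne : Fb.Nonempty := Finset.card_pos.mp (by omega)
  obtain ⟨o0, ho0⟩ := hFbne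
  -- two objects in the same box
  have hclose : ∀ o ∈ Fb, ∀ o' ∈ Fb,
      |o.1.1 + o.2.1 - (o'.1.1 + o'.2.1)| < 1 / n ∧
      |o.1.2 + o.2.2 - (o'.1.2 + o'.2.2)| < 1 / n ∧
      |(a - x * o.1.1 - y * o.1.2) - (a - x * o'.1.1 - y * o'.1.2) -
        ((⌊a - x * o.1.1 - y * o.1.2⌋ : ℝ) - ⌊a - x * o'.1.1 - y * o'.1.2⌋)| < 1 / n := by
    intro o ho o' ho'
    have e : F o = F o' := by
      rw [(Finset.mem_filter.mp ho).2, (Finset.mem_filter.mp ho').2]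
    simp only [F, cube, Prod.mk.injEq] at e
    obtain ⟨⟨e1, e2⟩, e3, e4, e5⟩ := e
    refine ⟨cell_close hn e1 ?_, cell_close hn e2 ?_, fract_close hn e5⟩
    · simpa using e3
    · simpa using e4
  let vec : (ℝ × ℝ) × (ℕ × ℕ) → ℤ × ℤ × ℤ := fun o =>
    ((o.2.1 : ℤ) - o0.2.1, (o.2.2 : ℤ) - o0.2.2,
      ⌊a - x * o0.1.1 - y * o0.1.2⌋ - ⌊a - x * o.1.1 - y * o.1.2⌋)
  have hmem : ∀ o ∈ Fb, o.1 ∈ Z ∧ o.2.1 < N ∧ o.2.2 < N := by
    intro o ho
    have h := (Finset.mem_filter.mp ho).1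
    simp only [Ob, Finset.mem_product, Finset.mem_range] at h
    exact ⟨h.1, h.2.1, h.2.2⟩
  have hAdj : ∀ o ∈ Fb, Adj C n (vec o) := by
    intro o ho
    obtain ⟨c1, c2, -⟩ := hclose o ho o0 ho0
    refine ⟨o.1, hZC _ (hmem o ho).1, o0.1, hZC _ (hmem o0 ho0).1, ?_, ?_⟩
    · have e : o.1.1 + ((vec o).1 : ℝ) - o0.1.1 = o.1.1 + o.2.1 - (o0.1.1 + o0.2.1) := by
        simp only [vec]; push_cast; ring
      rw [e]; exact c1.le
    · have e : o.1.2 + ((vec o).2.1 : ℝ) - o0.1.2 = o.1.2 + o.2.2 - (o0.1.2 + o0.2.2) := by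
        simp only [vec]; push_cast; ring
      rw [e]; exact c2.le
  have hth : ∀ o ∈ Fb, |th x y (vec o)| ≤ 5 / n := by
    intro o ho
    obtain ⟨c1, c2, c3⟩ := hclose o ho o0 ho0
    have e : th x y (vec o) = ((a - x * o.1.1 - y * o.1.2) - (a - x * o0.1.1 - y * o0.1.2) -
        ((⌊a - x * o.1.1 - y * o.1.2⌋ : ℝ) - ⌊a - x * o0.1.1 - y * o0.1.2⌋)) +
        (x * (o.1.1 + o.2.1 - (o0.1.1 + o0.2.1)) + y * (o.1.2 + o.2.2 - (o0.1.2 + o0.2.2))) := by
      simp only [th, theta, vec]; push_cast; ring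
    rw [e]
    refine le_trans (abs_add_le _ _) ?_
    have h1 : |x * (o.1.1 + o.2.1 - (o0.1.1 + o0.2.1)) +
        y * (o.1.2 + o.2.2 - (o0.1.2 + o0.2.2))| ≤ 2 * (1 / n) + 2 * (1 / n) := by
      refine le_trans (abs_add_le _ _) ?_
      rw [abs_mul, abs_mul]
      exact add_le_add (mul_le_mul hx c1.le (abs_nonneg _) (by norm_num))
        (mul_le_mul hy c2.le (abs_nonneg _) (by norm_num))
    have e5 : (5 : ℝ) / n = 1 / n + (2 * (1 / n) + 2 * (1 / n)) := by ring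
    rw [e5]
    exact add_le_add c3.le h1
  have hvinj : ∀ o ∈ Fb, ∀ o' ∈ Fb, (vec o).1 = (vec o').1 → (vec o).2.1 = (vec o').2.1 →
      o = o' := by
    intro o ho o' ho' h1 h2
    obtain ⟨c1, c2, -⟩ := hclose o ho o' ho'
    simp only [vec] at h1 h2
    have g1 : o.2.1 = o'.2.1 := by omega
    have g2 : o.2.2 = o'.2.2 := by omega
    have hz : o.1 = o'.1 := by
      apply hsep _ (hmem o ho).1 _ (hmem o' ho').1
      · rw [g1] at c1
        simpa using c1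
      · rw [g2] at c2
        simpa using c2
    exact Prod.ext hz (Prod.ext g1 g2)
  by_contra hcon
  have hpar : ∀ v ∈ Fb.image vec, ∀ w ∈ Fb.image vec, Par v w := by
    intro v hv w hw
    obtain ⟨o, ho, rfl⟩ := Finset.mem_image.mp hv
    obtain ⟨o', ho', rfl⟩ := Finset.mem_image.mp hw
    by_contra hnp
    exact hcon ⟨vec o, vec o', hAdj o ho, hAdj o' ho', hth o ho, hth o' ho', hnp⟩
  have hVcard : M + 2 ≤ (Fb.image vec).card := by
    rw [Finset.card_image_of_injOn]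
    · omega
    · intro o ho o' ho' h
      exact hvinj o ho o' ho' (by rw [h]) (by rw [h])
  obtain ⟨v, hv, v', hv', hne, d1, d2, d3⟩ := small_diff (x := x) (y := y) (r := 5 / n)
    (N := N) hM (Fb.image vec) hVcard hpar (by
      intro v hv
      obtain ⟨o, ho, rfl⟩ := Finset.mem_image.mp hv
      have h1 := hmem o ho
      have h2 := hmem o0 ho0
      simp only [vec]
      constructor <;> rw [abs_le] <;> constructor <;> omega) (by
      intro v hv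
      obtain ⟨o, ho, rfl⟩ := Finset.mem_image.mp hv
      exact hth o ho) (by
      intro v hv w hw h1 h2
      obtain ⟨o, ho, rfl⟩ := Finset.mem_image.mp hv
      obtain ⟨o', ho', rfl⟩ := Finset.mem_image.mp hw
      rw [hvinj o ho o' ho' h1 h2])
  have hnz : ¬ ((v - v').1 = 0 ∧ (v - v').2.1 = 0) := by
    rintro ⟨h1, h2⟩
    apply hne
    obtain ⟨o, ho, rfl⟩ := Finset.mem_image.mp hv
    obtain ⟨o', ho', rfl⟩ := Finset.mem_image.mp hv'
    simp only [Prod.fst_sub, Prod.snd_sub] at h1 h2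
    rw [hvinj o ho o' ho' (by omega) (by omega)]
  have := hgood (v - v').1 (v - v').2.1 (v - v').2.2 hnz (by simpa using d1) (by simpa using d2)
  have d4 : (n : ℝ) * (M * |th x y (v - v')|) ≤ n * (2 * (5 / n)) :=
    mul_le_mul_of_nonneg_left d3 hnpos.le
  have e6 : (n : ℝ) * (2 * (5 / n)) = 10 := by field_simp; norm_num
  rw [e6] at d4
  have e7 : (n : ℝ) * M * |theta x y (v - v').1 (v - v').2.1 (v - v').2.2| =
      n * (M * |th x y (v - v')|) := by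
    simp only [th]; ring
  rw [e7] at this
  linarith

end Pool.Agent.Novik
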