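import Pool.Agent.Novik.FDefs

/-!
# Periodic `C¹` functions are Lipschitz
-/

namespace Pool.Agent.Novik

theorem per_int {g : E3 → ℝ} (hg : ∀ (X : E3) (i : Fin 3), g (X + EuclideanSpace.single i 1) = g X)
    (i : Fin 3) (n : ℤ) (X : E3) : g (X + EuclideanSpace.single i (n : ℝ)) = g X := by
  induction n using Int.induction_on with
  | zero =>
    congr 1
    ext j
    by_cases h : j = i
    · subst h
      simp
    · simp [h]
  | succ n ih =>
    rw [← ih, ← hg (X + EuclideanSpace.single i ((n : ℤ) : ℝ)) i]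
    congr 1
    ext j
    by_cases h : j = i
    · subst h
      simp
      ring
    · simp [h]
  | pred n ih =>
    rw [← ih, ← hg (X + EuclideanSpace.single i (((-(n : ℤ) - 1 : ℤ)) : ℝ)) i]
    congr 1
    ext j
    by_cases h : j = i
    · subst h
      simp
      ring
    · simp [h]

theorem per_reduce {g : E3 → ℝ}
    (hg : ∀ (X : E3) (i : Fin 3), g (X + EuclideanSpace.single i 1) = g X) (X : E3) :
    ∃ Y : E3, ‖Y‖ ≤ 2 ∧ g X = g Y := by
  refine ⟨X + EuclideanSpace.single 0 ((-⌊X 0⌋ : ℤ) : ℝ) +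
    EuclideanSpace.single 1 ((-⌊X 1⌋ : ℤ) : ℝ) + EuclideanSpace.single 2 ((-⌊X 2⌋ : ℤ) : ℝ), ?_, ?_⟩
  · rw [EuclideanSpace.norm_eq, Fin.sum_univ_three]
    apply Real.sqrt_le_iff.2
    refine ⟨by norm_num, ?_⟩
    have key : ∀ x : ℝ, |x - ⌊x⌋| ^ 2 ≤ 1 := by
      intro x
      rw [Int.self_sub_floor, abs_of_nonneg (Int.fract_nonneg x)]
      have h1 := Int.fract_nonneg x
      have h2 := (Int.fract_lt_one x).le
      nlinarith
    have k0 := key (X 0)
    have k1 := key (X 1)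
    have k2 := key (X 2)
    simp only [PiLp.add_apply, Real.norm_eq_abs]
    simp
    rw [← sub_eq_add_neg, ← sub_eq_add_neg, ← sub_eq_add_neg]
    simp only [sq_abs] at k0 k1 k2
    linarith
  · rw [per_int hg, per_int hg, per_int hg]

theorem lipschitz_of_contDiff {ε : E3 → ℝ} (hs : ContDiff ℝ 1 ε) (hper : IsPeriodic ε) :
    ∃ K : NNReal, LipschitzWith K ε := by
  have hcont : Continuous fun X => ‖fderiv ℝ ε X‖ := (hs.continuous_fderiv one_ne_zero).norm
  have hperd : ∀ (X : E3) (i : Fin 3),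
      ‖fderiv ℝ ε (X + EuclideanSpace.single i 1)‖ = ‖fderiv ℝ ε X‖ := by
    intro X i
    have h1 : fderiv ℝ (fun X => ε (X + EuclideanSpace.single i 1)) X =
        fderiv ℝ ε (X + EuclideanSpace.single i 1) := fderiv_comp_add_right _
    have h2 : (fun X => ε (X + EuclideanSpace.single i 1)) = ε := funext fun X => hper X i
    rw [← h1, h2]
  obtain ⟨M, hM⟩ := (isCompact_closedBall (0 : E3) 2).bddAbove_image hcont.continuousOn
  have hbound : ∀ X, ‖fderiv ℝ ε X‖ ≤ M := by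
    intro X
    obtain ⟨Y, hY, hXY⟩ := per_reduce (g := fun X => ‖fderiv ℝ ε X‖) hperd X
    have hXY' : ‖fderiv ℝ ε X‖ = ‖fderiv ℝ ε Y‖ := hXY
    rw [hXY']
    exact hM ⟨Y, by simpa using hY, rfl⟩
  have hM0 : 0 ≤ M := (norm_nonneg _).trans (hbound 0)
  refine ⟨⟨M, hM0⟩, ?_⟩
  apply lipschitzWith_of_nnnorm_fderiv_le (𝕜 := ℝ) (hs.differentiable one_ne_zero)
  intro X
  exact hbound X

end Pool.Agent.Novik
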