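import Pool.Agent.Novik.Main

/-!
# Two-sided chains in totally irrational directions

If `c` is below the threshold of a totally irrational direction, then some plane contains a
connected set on which `G ≥ c`, which lies in a strip of finite width and is unbounded on both
sides of the strip.
-/

namespace Pool.Agent.Novik

open Set

variable {G : ℝ → ℝ → ℝ → ℝ} {L : ℕ} {x y a : ℝ}

/-- `x`, `y`, `1` are linearly independent over the rational numbers. -/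
def Irr (x y : ℝ) : Prop := ∀ k : ℤ × ℤ × ℤ, th x y k = 0 → k = 0

theorem bounded_core {C : Set (ℝ × ℝ)} (hC : IsOpen C) (hCc : IsPreconnected C)
    {w1 w2 w3 w4 : ℝ × ℝ} (h1 : w1 ∈ C) (h2 : w2 ∈ C) (h3 : w3 ∈ C) (h4 : w4 ∈ C) :
    ∃ K ⊆ C, IsPreconnected K ∧ w1 ∈ K ∧ w2 ∈ K ∧ w3 ∈ K ∧ w4 ∈ K ∧
      ∃ ρ : ℝ, ∀ u ∈ K, |u.1| ≤ ρ ∧ |u.2| ≤ ρ := by
  have hp : IsPathConnected C := hC.isConnected_iff_isPathConnected.mp ⟨⟨w1, h1⟩, hCc⟩
  obtain ⟨γ2, g2⟩ := hp.joinedIn w1 h1 w2 h2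
  obtain ⟨γ3, g3⟩ := hp.joinedIn w1 h1 w3 h3
  obtain ⟨γ4, g4⟩ := hp.joinedIn w1 h1 w4 h4
  have m2 : w1 ∈ range γ2 := ⟨0, γ2.source⟩
  have m3 : w1 ∈ range γ3 := ⟨0, γ3.source⟩
  have m4 : w1 ∈ range γ4 := ⟨0, γ4.source⟩
  have hcomp : IsCompact (range γ2 ∪ range γ3 ∪ range γ4) :=
    ((isCompact_range γ2.continuous).union (isCompact_range γ3.continuous)).union
      (isCompact_range γ4.continuous)
  refine ⟨range γ2 ∪ range γ3 ∪ range γ4, ?_, ?_, Or.inr m4, Or.inl (Or.inl ⟨1, γ2.target⟩),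
    Or.inl (Or.inr ⟨1, γ3.target⟩), Or.inr ⟨1, γ4.target⟩, ?_⟩
  · rintro u ((⟨t, rfl⟩ | ⟨t, rfl⟩) | ⟨t, rfl⟩)
    · exact g2 t
    · exact g3 t
    · exact g4 t
  · refine IsPreconnected.union w1 (Or.inl m2) m4 ?_ (isPreconnected_range γ4.continuous)
    exact IsPreconnected.union w1 m2 m3 (isPreconnected_range γ2.continuous)
      (isPreconnected_range γ3.continuous)
  · obtain ⟨ρ, hρ⟩ := hcomp.isBounded.exists_norm_le
    refine ⟨ρ, fun u hu => ?_⟩
    have h := hρ u hu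
    rw [Prod.norm_def] at h
    exact ⟨(le_max_left _ _).trans h, (le_max_right _ _).trans h⟩

theorem good_exists (hirr : Irr x y) {n : ℕ} (hn : 1 ≤ n) :
    ∃ N M : ℕ, 1 ≤ M ∧ 72 * (M + 1) * n * n < N ∧ Good x y n N M := by
  have hnpos : (0 : ℝ) < n := by exact_mod_cast hn
  have hfin := finite_box (x := x) (y := y) 10 (300 * (n : ℝ) ^ 2)
  -- a positive lower bound of `|θ|`
  obtain ⟨m0, hm0, hlow⟩ : ∃ m0 : ℝ, 0 < m0 ∧ ∀ k ∈ {k : ℤ × ℤ × ℤ | |th x y k| ≤ 10 ∧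
      |(k.1 : ℝ)| ≤ 300 * (n : ℝ) ^ 2 ∧ |(k.2.1 : ℝ)| ≤ 300 * (n : ℝ) ^ 2}, k ≠ 0 →
      m0 ≤ |th x y k| := by
    set F := hfin.toFinset.filter (fun k => k ≠ 0) with hF
    by_cases hne : F.Nonempty
    · obtain ⟨k0, hk0, hmin⟩ := Finset.exists_min_image F (fun k => |th x y k|) hne
      refine ⟨|th x y k0|, ?_, ?_⟩
      · rw [abs_pos]
        intro h
        exact (Finset.mem_filter.mp hk0).2 (hirr k0 h)
      · intro k hk hk'
        exact hmin k (Finset.mem_filter.mpr ⟨hfin.mem_toFinset.mpr hk, hk'⟩)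
    · refine ⟨1, one_pos, ?_⟩
      intro k hk hk'
      exact absurd ⟨k, Finset.mem_filter.mpr ⟨hfin.mem_toFinset.mpr hk, hk'⟩⟩ hne
  obtain ⟨M, hM⟩ := exists_nat_gt (max 2 (10 / (n * m0)))
  have hM2 : (2 : ℝ) < M := lt_of_le_of_lt (le_max_left _ _) hM
  have hM10 : 10 / (n * m0) < M := lt_of_le_of_lt (le_max_right _ _) hM
  have hM1 : 2 < M := by exact_mod_cast hM2
  have hMpos : (0 : ℝ) < M := by linarith
  refine ⟨150 * n ^ 2 * M, M, by omega, ?_, ?_⟩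
  · have : 0 < n ^ 2 := by positivity
    nlinarith
  · intro k1 k2 k3 hk h1 h2
    have hb : ∀ k : ℤ, (M : ℤ) * |k| ≤ 2 * ((150 * n ^ 2 * M : ℕ) : ℤ) →
        |(k : ℝ)| ≤ 300 * (n : ℝ) ^ 2 := by
      intro k hk
      have h3 : (M : ℝ) * |(k : ℝ)| ≤ 2 * (150 * n ^ 2 * M) := by exact_mod_cast hk
      have h4 : (M : ℝ) * |(k : ℝ)| ≤ M * (300 * (n : ℝ) ^ 2) := by linarith
      exact le_of_mul_le_mul_left h4 hMpos
    have hne : (k1, k2, k3) ≠ (0 : ℤ × ℤ × ℤ) := by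
      intro h
      apply hk
      have e1 := congrArg Prod.fst h
      have e2 := congrArg (fun p : ℤ × ℤ × ℤ => p.2.1) h
      exact ⟨e1, e2⟩
    by_cases h10 : |theta x y k1 k2 k3| ≤ 10
    · have h5 := hlow (k1, k2, k3) ⟨h10, hb k1 h1, hb k2 h2⟩ hne
      have h6 : |theta x y k1 k2 k3| = |th x y (k1, k2, k3)| := rfl
      rw [h6]
      rw [div_lt_iff₀ (by positivity)] at hM10
      calc (10 : ℝ) < M * (n * m0) := hM10
        _ = n * M * m0 := by ring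
        _ ≤ n * M * |th x y (k1, k2, k3)| := mul_le_mul_of_nonneg_left h5 (by positivity)
    · push Not at h10
      have hnM : (1 : ℝ) ≤ n * M := by
        have : (1 : ℝ) ≤ n := by exact_mod_cast hn
        nlinarith
      have := mul_le_mul_of_nonneg_right hnM (abs_nonneg (theta x y k1 k2 k3))
      linarith

/-- Below the threshold: a bounded connected piece and two independent vectors. -/
theorem exists_core (hG : Nice G L) (hL : 1 ≤ L) (hx : |x| ≤ 2) (hy : |y| ≤ 2)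
    (hirr : Irr x y) {c : ℝ} (hc : c < thr G x y) :
    ∃ (n : ℕ) (a : ℝ) (K : Set (ℝ × ℝ)) (k l : ℤ × ℤ × ℤ) (ρ : ℝ), 1 ≤ n ∧
      IsPreconnected K ∧ (∀ u ∈ K, |u.1| ≤ ρ ∧ |u.2| ≤ ρ) ∧
      (∀ u ∈ K, c + 9 * L / n ≤ sec G x y a u) ∧ Adj K n k ∧ Adj K n l ∧
      |th x y k| ≤ 5 / n ∧ |th x y l| ≤ 5 / n ∧ ¬ Par k l := by
  have hLpos : (0 : ℝ) < L := by exact_mod_cast hL
  obtain ⟨c', hc1, hc2⟩ := exists_between hc
  obtain ⟨n, hn⟩ := exists_nat_gt (max 1 (20 * L / (c' - c)))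
  have hn1 : (1 : ℝ) < n := lt_of_le_of_lt (le_max_left _ _) hn
  have hn20 : 20 * L / (c' - c) < n := lt_of_le_of_lt (le_max_right _ _) hn
  have hnpos : (0 : ℝ) < n := by linarith
  have hn1' : 1 ≤ n := by
    have : 1 < n := by exact_mod_cast hn1
    omega
  have hcc : 0 < c' - c := by linarith
  have hgap : 20 * L / n < c' - c := by
    rw [div_lt_iff₀ hcc] at hn20
    rw [div_lt_iff₀ hnpos]
    linarith
  have e20 : 20 * (L : ℝ) / n = 20 * (L / n) := by ring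
  have hLn : (0 : ℝ) < L / n := by positivity
  obtain ⟨N, M, hM, hN, hgood⟩ := good_exists hirr hn1'
  obtain ⟨a', β, p, q, b1, b2, b3, b4, b5, b6⟩ := transfer (x' := x) (y' := y) (δ := 0) hG hx hy
    (by simp) (by simp) (perc_of_lt_thr hG hc2) hLn N
  have hsub : levelCubes G n (c' - L / n) ⊆
      ((Finset.Ico (0 : ℤ) n ×ˢ (Finset.Ico (0 : ℤ) n ×ˢ Finset.Ico (0 : ℤ) n) :
        Finset (ℤ × ℤ × ℤ)) : Set (ℤ × ℤ × ℤ)) := by
    rintro _ ⟨u, v, t, rfl, -⟩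
    exact cube_mem hn1' u v t
  have hfin : (levelCubes G n (c' - L / n)).Finite := (Finset.finite_toSet _).subset hsub
  have hcard : (levelCubes G n (c' - L / n)).ncard ≤ n * n ^ 2 := by
    refine (Set.ncard_le_ncard hsub (Finset.finite_toSet _)).trans ?_
    rw [Set.ncard_coe_finset]
    simp only [Finset.card_product, Int.card_Ico, sub_zero, Int.toNat_natCast]
    exact le_of_eq (by ring)
  obtain ⟨k, l, hk, hl, hk1, hl1, hkl⟩ := two_vectors (a := a') hG hL hx hy hn1' hM hn1' hN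
    hfin hcard hgood b1 (by
      intro u hu
      have := b6 u hu
      simpa using this) b2 b3 b4 b5
  obtain ⟨w1, hw1, w2, hw2, f1, f2⟩ := hk
  obtain ⟨w3, hw3, w4, hw4, f3, f4⟩ := hl
  have hopen : IsOpen (connectedComponentIn {u | c' - L / n - 9 * L / n < sec G x y a' u} p) :=
    (isOpen_lt continuous_const (hG.continuous_sec (a := a') hx hy)).connectedComponentIn
  obtain ⟨K, hKC, hK, m1, m2, m3, m4, ρ, hρ⟩ := bounded_core hopen
    isPreconnected_connectedComponentIn hw1 hw2 hw3 hw4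
  refine ⟨n, a', K, k, l, ρ, hn1', hK, hρ, ?_, ⟨w1, m1, w2, m2, f1, f2⟩,
    ⟨w3, m3, w4, m4, f3, f4⟩, hk1, hl1, hkl⟩
  intro u hu
  have hu' : u ∈ {u | c' - L / n - 9 * L / n < sec G x y a' u} :=
    connectedComponentIn_subset _ _ (hKC hu)
  have h1 : c' - L / n - 9 * L / n < sec G x y a' u := hu'
  have e9 : 9 * (L : ℝ) / n = 9 * (L / n) := by ring
  rw [e9] at h1 ⊢
  linarith

/-- the direction of the strip -/
noncomputable def dirv (x y : ℝ) (k l : ℤ × ℤ × ℤ) : ℝ × ℝ :=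
  (-(th x y l) * k.1 + th x y k * l.1, -(th x y l) * k.2.1 + th x y k * l.2.1)

theorem dirv_ne_zero {k l : ℤ × ℤ × ℤ} (hk : th x y k ≠ 0) (hkl : ¬ Par k l) :
    dirv x y k l ≠ 0 := by
  intro h
  have h1 : -(th x y l) * k.1 + th x y k * l.1 = 0 := congrArg Prod.fst h
  have h2 : -(th x y l) * k.2.1 + th x y k * l.2.1 = 0 := congrArg Prod.snd h
  have h3 : -(th x y l) * k.2.2 + th x y k * l.2.2 = 0 := by
    have e : -(th x y l) * k.2.2 + th x y k * l.2.2 =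
        -(x * (-(th x y l) * k.1 + th x y k * l.1)) -
          y * (-(th x y l) * k.2.1 + th x y k * l.2.1) := by
      simp only [th, theta]; ring
    rw [e, h1, h2]; ring
  apply hkl
  refine ⟨?_, ?_, ?_⟩
  · have : th x y k * ((k.1 : ℝ) * l.2.1) = th x y k * (l.1 * k.2.1) := by
      linear_combination (k.1 : ℝ) * h2 - (k.2.1 : ℝ) * h1
    exact_mod_cast mul_left_cancel₀ hk this
  · have : th x y k * ((k.1 : ℝ) * l.2.2) = th x y k * (l.1 * k.2.2) := by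
      linear_combination (k.1 : ℝ) * h3 - (k.2.2 : ℝ) * h1
    exact_mod_cast mul_left_cancel₀ hk this
  · have : th x y k * ((k.2.1 : ℝ) * l.2.2) = th x y k * (l.2.1 * k.2.2) := by
      linear_combination (k.2.1 : ℝ) * h3 - (k.2.2 : ℝ) * h2
    exact_mod_cast mul_left_cancel₀ hk this

theorem walk_eq (k l : ℤ × ℤ × ℤ) (j : ℕ) :
    ∃ α β : ℕ, α + β = j ∧ walk x y k l j = (α : ℤ) • k + (β : ℤ) • l := by
  obtain ⟨α, β, h1, h2⟩ := walk_diff (x := x) (y := y) k l 0 j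
  refine ⟨α, β, h1, ?_⟩
  rw [zero_add] at h2
  rw [h2]
  simp [walk]

/-- the walk stays near the line -/
theorem walk_cross (k l : ℤ × ℤ × ℤ) (j : ℕ) :
    ((walk x y k l j).1 : ℝ) * (dirv x y k l).2 - ((walk x y k l j).2.1 : ℝ) * (dirv x y k l).1 =
      th x y (walk x y k l j) * ((k.1 : ℝ) * l.2.1 - k.2.1 * l.1) := by
  obtain ⟨α, β, -, h2⟩ := walk_eq (x := x) (y := y) k l j
  rw [h2]
  simp only [dirv, th, theta, Prod.fst_add, Prod.snd_add, Prod.smul_fst, Prod.smul_snd,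
    smul_eq_mul]
  push_cast
  ring

/-- the walk goes to infinity along the line -/
theorem walk_dot (k l : ℤ × ℤ × ℤ) (j : ℕ) :
    (th x y k - th x y l) * (((walk x y k l j).1 : ℝ) * (dirv x y k l).1 +
      ((walk x y k l j).2.1 : ℝ) * (dirv x y k l).2) =
      j * ((dirv x y k l).1 ^ 2 + (dirv x y k l).2 ^ 2) +
      th x y (walk x y k l j) * (((k.1 : ℝ) - l.1) * (dirv x y k l).1 +
        ((k.2.1 : ℝ) - l.2.1) * (dirv x y k l).2) := by
  obtain ⟨α, β, h1, h2⟩ := walk_eq (x := x) (y := y) k l j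
  have h3 : (j : ℝ) = α + β := by rw [← h1]; push_cast; ring
  rw [h2, h3]
  simp only [dirv, th, theta, Prod.fst_add, Prod.snd_add, Prod.smul_fst, Prod.smul_snd,
    smul_eq_mul]
  push_cast
  ring

theorem half_strip (hG : Nice G L) (hx : |x| ≤ 2) (hy : |y| ≤ 2) {n : ℕ} (hn : 1 ≤ n)
    {c ρ : ℝ} {K : Set (ℝ × ℝ)} (hK : IsPreconnected K)
    (hρ : ∀ u ∈ K, |u.1| ≤ ρ ∧ |u.2| ≤ ρ)
    (hf : ∀ u ∈ K, c + 9 * L / n ≤ sec G x y a u) {k l : ℤ × ℤ × ℤ}
    (hk : Adj K n k) (hl : Adj K n l) (hk0 : 0 < th x y k) (hk1 : th x y k ≤ 5 / n)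
    (hl0 : th x y l < 0) (hl1 : -(5 / n) ≤ th x y l) (hkl : ¬ Par k l) :
    ∃ (U : Set (ℝ × ℝ)) (R : ℝ), IsPreconnected U ∧ K ⊆ U ∧ (∀ u ∈ U, c ≤ sec G x y a u) ∧
      (∀ u ∈ U, |u.1 * (dirv x y k l).2 - u.2 * (dirv x y k l).1| ≤ R) ∧
      ∀ S : ℝ, ∃ u ∈ U, S < u.1 * (dirv x y k l).1 + u.2 * (dirv x y k l).2 := by
  have hnpos : (0 : ℝ) < n := by exact_mod_cast hn
  have hn0 : (0 : ℝ) ≤ 5 / n := by positivity
  have hwalk : ∀ j, |th x y (walk x y k l j)| ≤ 5 / n :=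
    walk_th hn0 hk0.le hk1 hl0.le hl1
  obtain ⟨U, hU, hUf, hUin, hUnear⟩ := half_chain hG hx hy hK hf hk hl hk0.le hk1 hl0.le hl1
  set d := dirv x y k l with hd
  have hdne : d ≠ 0 := dirv_ne_zero hk0.ne' hkl
  have hd2 : 0 < d.1 ^ 2 + d.2 ^ 2 := by
    by_contra hcon
    apply hdne
    have e1 : d.1 = 0 := by nlinarith [sq_nonneg d.1, sq_nonneg d.2]
    have e2 : d.2 = 0 := by nlinarith [sq_nonneg d.1, sq_nonneg d.2]
    exact Prod.ext e1 e2
  refine ⟨U, 5 / n * |(k.1 : ℝ) * l.2.1 - k.2.1 * l.1| + (ρ + 1 / n) * (|d.1| + |d.2|), hU, ?_,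
    hUf, ?_, ?_⟩
  · intro w hw
    have := hUin 0 w hw
    simpa [walk] using this
  · intro u hu
    obtain ⟨j, w, hw, h1, h2⟩ := hUnear u hu
    obtain ⟨g1, g2⟩ := hρ w hw
    have hc := walk_cross (x := x) (y := y) k l j
    rw [← hd] at hc
    have e : u.1 * d.2 - u.2 * d.1 =
        (((walk x y k l j).1 : ℝ) * d.2 - ((walk x y k l j).2.1 : ℝ) * d.1) +
        ((w.1 + (u.1 - (w.1 + ((walk x y k l j).1 : ℝ)))) * d.2 +
          -((w.2 + (u.2 - (w.2 + ((walk x y k l j).2.1 : ℝ)))) * d.1)) := by ring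
    rw [e, hc]
    refine le_trans (abs_add_le _ _) (add_le_add ?_ ?_)
    · rw [abs_mul]
      exact mul_le_mul_of_nonneg_right (hwalk j) (abs_nonneg _)
    · refine le_trans (abs_add_le _ _) ?_
      rw [abs_neg, abs_mul, abs_mul]
      have a1 : |w.1 + (u.1 - (w.1 + ((walk x y k l j).1 : ℝ)))| ≤ ρ + 1 / n :=
        le_trans (abs_add_le _ _) (add_le_add g1 h1)
      have a2 : |w.2 + (u.2 - (w.2 + ((walk x y k l j).2.1 : ℝ)))| ≤ ρ + 1 / n :=
        le_trans (abs_add_le _ _) (add_le_add g2 h2)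
      have b1 := mul_le_mul_of_nonneg_right a1 (abs_nonneg d.2)
      have b2 := mul_le_mul_of_nonneg_right a2 (abs_nonneg d.1)
      linarith
  · intro S
    obtain ⟨w, hw, -⟩ := hk
    obtain ⟨g1, g2⟩ := hρ w hw
    set D := ((k.1 : ℝ) - l.1) * d.1 + ((k.2.1 : ℝ) - l.2.1) * d.2 with hD
    have hΔ : 0 < th x y k - th x y l := by linarith
    obtain ⟨j, hj⟩ := exists_nat_gt (((th x y k - th x y l) * (|S| + ρ * (|d.1| + |d.2|)) +
      5 / n * |D|) / (d.1 ^ 2 + d.2 ^ 2))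
    rw [div_lt_iff₀ hd2] at hj
    refine ⟨_, hUin j w hw, ?_⟩
    have hdot := walk_dot (x := x) (y := y) k l j
    rw [← hd, ← hD] at hdot
    have h5 : |th x y (walk x y k l j) * D| ≤ 5 / n * |D| := by
      rw [abs_mul]
      exact mul_le_mul_of_nonneg_right (hwalk j) (abs_nonneg _)
    have h6 := (abs_le.mp h5).1
    have h7 : (th x y k - th x y l) * (|S| + ρ * (|d.1| + |d.2|)) <
        (th x y k - th x y l) * (((walk x y k l j).1 : ℝ) * d.1 +
          ((walk x y k l j).2.1 : ℝ) * d.2) := by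
      rw [hdot]; linarith
    have h8 := lt_of_mul_lt_mul_left h7 hΔ.le
    have h9 : |w.1 * d.1 + w.2 * d.2| ≤ ρ * (|d.1| + |d.2|) := by
      refine le_trans (abs_add_le _ _) ?_
      rw [abs_mul, abs_mul]
      have b1 := mul_le_mul_of_nonneg_right g1 (abs_nonneg d.1)
      have b2 := mul_le_mul_of_nonneg_right g2 (abs_nonneg d.2)
      linarith
    have h10 := (abs_le.mp h9).1
    have h11 := le_abs_self S
    simp only
    linarith

/-- **Two-sided chains.** -/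
theorem two_sided (hG : Nice G L) (hL : 1 ≤ L) (hx : |x| ≤ 2) (hy : |y| ≤ 2)
    (hirr : Irr x y) {c : ℝ} (hc : c < thr G x y) :
    ∃ (a : ℝ) (V : Set (ℝ × ℝ)) (d : ℝ × ℝ) (R : ℝ) (k l : ℤ × ℤ × ℤ), IsPreconnected V ∧
      (∀ u ∈ V, c ≤ sec G x y a u) ∧ d ≠ 0 ∧ ¬ Par k l ∧ d = dirv x y k l ∧
      (∀ u ∈ V, |u.1 * d.2 - u.2 * d.1| ≤ R) ∧
      (∀ S : ℝ, ∃ u ∈ V, S < u.1 * d.1 + u.2 * d.2) ∧
      (∀ S : ℝ, ∃ u ∈ V, u.1 * d.1 + u.2 * d.2 < S) := by
  obtain ⟨n, a, K, k, l, ρ, hn, hK, hρ, hKf, hk, hl, hk1, hl1, hkl⟩ :=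
    exists_core hG hL hx hy hirr hc
  -- adjust the signs
  have hk' : ∃ k', Adj K n k' ∧ 0 < th x y k' ∧ th x y k' ≤ 5 / n ∧ (Par k' l → Par k l) := by
    have hkne : th x y k ≠ 0 := by
      intro h
      have := hirr k h
      apply hkl
      rw [this]
      exact ⟨by simp, by simp, by simp⟩
    rcases lt_or_gt_of_ne hkne with h | h
    · refine ⟨-k, hk.neg, ?_, ?_, Par.neg_left⟩
      · rw [th_neg]; linarith
      · rw [th_neg]; linarith [(abs_le.mp hk1).1]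
    · exact ⟨k, hk, h, (abs_le.mp hk1).2, id⟩
  obtain ⟨k', a1, a2, a3, a4⟩ := hk'
  have hl' : ∃ l', Adj K n l' ∧ th x y l' < 0 ∧ -(5 / n) ≤ th x y l' ∧
      (Par k' l' → Par k' l) := by
    have hlne : th x y l ≠ 0 := by
      intro h
      have := hirr l h
      apply hkl
      rw [this]
      exact ⟨by simp, by simp, by simp⟩
    rcases lt_or_gt_of_ne hlne with h | h
    · exact ⟨l, hl, h, (abs_le.mp hl1).1, id⟩
    · refine ⟨-l, hl.neg, ?_, ?_, Par.neg_right⟩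
      · rw [th_neg]; linarith
      · rw [th_neg]; linarith [(abs_le.mp hl1).2]
  obtain ⟨l', b1, b2, b3, b4⟩ := hl'
  have hkl' : ¬ Par k' l' := fun h => hkl (a4 (b4 h))
  have hkl'' : ¬ Par (-l') (-k') := by
    intro h
    apply hkl'
    have h1 := (Par.neg_left (Par.neg_right h))
    obtain ⟨c1, c2, c3⟩ := h1
    exact ⟨by linarith, by linarith, by linarith⟩
  obtain ⟨U1, R1, u1, u2, u3, u4, u5⟩ := half_strip hG hx hy hn hK hρ hKf a1 b1 a2 a3 b2 b3 hkl'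
  obtain ⟨U2, R2, v1, v2, v3, v4, v5⟩ := half_strip (k := -l') (l := -k') hG hx hy hn hK hρ hKf
    b1.neg a1.neg (by rw [th_neg]; linarith) (by rw [th_neg]; linarith)
    (by rw [th_neg]; linarith) (by rw [th_neg]; linarith) hkl''
  have hdir : dirv x y (-l') (-k') = - dirv x y k' l' := by
    unfold dirv
    rw [th_neg, th_neg]
    refine Prod.ext ?_ ?_
    · simp only [Prod.fst_neg, Int.cast_neg]
      ring
    · simp only [Prod.fst_neg, Int.cast_neg, Prod.snd_neg]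
      ring
  rw [hdir] at v4 v5
  obtain ⟨w, hw, -⟩ := hk
  refine ⟨a, U1 ∪ U2, dirv x y k' l', max R1 R2, k', l',
    IsPreconnected.union w (u2 hw) (v2 hw) u1 v1,
    ?_, dirv_ne_zero a2.ne' hkl', hkl', rfl, ?_, ?_, ?_⟩
  · rintro u (hu | hu)
    · exact u3 u hu
    · exact v3 u hu
  · rintro u (hu | hu)
    · exact (u4 u hu).trans (le_max_left _ _)
    · refine le_trans ?_ ((v4 u hu).trans (le_max_right _ _))
      rw [← abs_neg]
      refine le_of_eq (congrArg _ ?_)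
      simp only [Prod.fst_neg, Prod.snd_neg]
      ring
  · intro S
    obtain ⟨u, hu, h⟩ := u5 S
    exact ⟨u, Or.inl hu, h⟩
  · intro S
    obtain ⟨u, hu, h⟩ := v5 (-S)
    refine ⟨u, Or.inr hu, ?_⟩
    simp only [Prod.fst_neg, Prod.snd_neg] at h
    linarith

end Pool.Agent.Novik
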