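import Pool.Agent.Novik.Defs

/-!
# The walk lemma

If a connected set `C` of a plane, on which `G` is large, is `1/n`-close to its translates by
two linearly independent integer vectors `k`, `l` with small `θ(k)`, `θ(l)`, then the plane
contains an unbounded connected set on which `G ≥ c`.
-/

namespace Pool.Agent.Novik

open Set

variable {G : ℝ → ℝ → ℝ → ℝ} {L : ℕ} {x y a : ℝ}

theorem Nice.shift (hG : Nice G L) (u v t : ℝ) (k1 k2 k3 : ℤ) :
    G (u + k1) (v + k2) (t + k3) = G u v t := by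
  have h1 : G (u + k1) (v + k2) (t + k3) = G u (v + k2) (t + k3) := by
    have hp : Function.Periodic (fun z => G z (v + k2) (t + k3)) 1 := fun z => hG.per1 _ _ _
    have := hp.int_mul k1 u
    simpa using this
  have h2 : G u (v + k2) (t + k3) = G u v (t + k3) := by
    have hp : Function.Periodic (fun z => G u z (t + k3)) 1 := fun z => hG.per2 _ _ _
    have := hp.int_mul k2 v
    simpa using this
  have h3 : G u v (t + k3) = G u v t := by
    have hp : Function.Periodic (fun z => G u v z) 1 := fun z => hG.per3 _ _ _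
    have := hp.int_mul k3 t
    simpa using this
  rw [h1, h2, h3]

theorem Nice.lip3 (hG : Nice G L) (u v t t' : ℝ) : |G u v t - G u v t'| ≤ L * |t - t'| := by
  have := hG.lip u v t u v t'
  simpa using this

/-- The restriction to a plane is `4L`-Lipschitz for the sup metric. -/
theorem Nice.sec_lip (hG : Nice G L) (hx : |x| ≤ 2) (hy : |y| ≤ 2) {u v : ℝ × ℝ} {r : ℝ}
    (h1 : |u.1 - v.1| ≤ r) (h2 : |u.2 - v.2| ≤ r) :
    |sec G x y a u - sec G x y a v| ≤ 4 * L * r := by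
  have hr : 0 ≤ r := le_trans (abs_nonneg _) h1
  have h := hG.lip u.1 u.2 (a - x * u.1 - y * u.2) v.1 v.2 (a - x * v.1 - y * v.2)
  have h3 : |a - x * u.1 - y * u.2 - (a - x * v.1 - y * v.2)| ≤ 4 * r := by
    have e : a - x * u.1 - y * u.2 - (a - x * v.1 - y * v.2) =
        -(x * (u.1 - v.1)) + -(y * (u.2 - v.2)) := by ring
    rw [e]
    refine le_trans (abs_add_le _ _) ?_
    rw [abs_neg, abs_neg, abs_mul, abs_mul]
    have := mul_le_mul hx h1 (abs_nonneg _) (by norm_num)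
    have := mul_le_mul hy h2 (abs_nonneg _) (by norm_num)
    linarith
  have h4 : max (max |u.1 - v.1| |u.2 - v.2|)
      |a - x * u.1 - y * u.2 - (a - x * v.1 - y * v.2)| ≤ 4 * r := by
    refine max_le (max_le ?_ ?_) h3 <;> linarith
  refine le_trans h (le_trans (mul_le_mul_of_nonneg_left h4 (Nat.cast_nonneg L)) ?_)
  linarith

theorem Nice.sec_shift (hG : Nice G L) (u : ℝ × ℝ) (k1 k2 k3 : ℤ) :
    |sec G x y a (u.1 + k1, u.2 + k2) - sec G x y a u| ≤ L * |theta x y k1 k2 k3| := by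
  have e : sec G x y a (u.1 + k1, u.2 + k2) =
      G u.1 u.2 (a - x * u.1 - y * u.2 - theta x y k1 k2 k3) := by
    have := hG.shift u.1 u.2 (a - x * u.1 - y * u.2 - theta x y k1 k2 k3) k1 k2 k3
    rw [← this]
    unfold sec theta
    congr 1
    ring
  rw [e]
  refine le_trans (hG.lip3 _ _ _ _) ?_
  rw [show a - x * u.1 - y * u.2 - theta x y k1 k2 k3 - (a - x * u.1 - y * u.2) =
    - theta x y k1 k2 k3 by ring, abs_neg]

/-- the linear form for triples -/
def th (x y : ℝ) (k : ℤ × ℤ × ℤ) : ℝ := theta x y k.1 k.2.1 k.2.2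

theorem th_add (k l : ℤ × ℤ × ℤ) : th x y (k + l) = th x y k + th x y l := by
  simp only [th, theta, Prod.fst_add, Prod.snd_add, Int.cast_add]
  ring

theorem th_neg (k : ℤ × ℤ × ℤ) : th x y (-k) = - th x y k := by
  simp only [th, theta, Prod.fst_neg, Prod.snd_neg, Int.cast_neg]
  ring

theorem th_zero : th x y 0 = 0 := by simp [th, theta]

theorem th_sub (k l : ℤ × ℤ × ℤ) : th x y (k - l) = th x y k - th x y l := by
  rw [sub_eq_add_neg, th_add, th_neg]
  ring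

/-- `C` and `C + k` are `1/n`-close -/
def Adj (C : Set (ℝ × ℝ)) (n : ℕ) (k : ℤ × ℤ × ℤ) : Prop :=
  ∃ w ∈ C, ∃ z ∈ C, |w.1 + k.1 - z.1| ≤ 1 / n ∧ |w.2 + k.2.1 - z.2| ≤ 1 / n

theorem Adj.neg {C : Set (ℝ × ℝ)} {n : ℕ} {k : ℤ × ℤ × ℤ} (h : Adj C n k) : Adj C n (-k) := by
  obtain ⟨w, hw, z, hz, h1, h2⟩ := h
  refine ⟨z, hz, w, hw, ?_, ?_⟩
  · rw [abs_sub_comm]
    simpa [sub_eq_add_neg, add_comm, add_left_comm, add_assoc] using h1
  · rw [abs_sub_comm]
    simpa [sub_eq_add_neg, add_comm, add_left_comm, add_assoc] using h2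

/-- `k` and `l` are proportional -/
def Par (k l : ℤ × ℤ × ℤ) : Prop :=
  k.1 * l.2.1 = l.1 * k.2.1 ∧ k.1 * l.2.2 = l.1 * k.2.2 ∧ k.2.1 * l.2.2 = l.2.1 * k.2.2

theorem Par.neg_left {k l : ℤ × ℤ × ℤ} (h : Par (-k) l) : Par k l := by
  obtain ⟨h1, h2, h3⟩ := h
  simp only [Prod.fst_neg, Prod.snd_neg] at h1 h2 h3
  refine ⟨?_, ?_, ?_⟩ <;> linarith

theorem Par.neg_right {k l : ℤ × ℤ × ℤ} (h : Par k (-l)) : Par k l := by
  obtain ⟨h1, h2, h3⟩ := h
  simp only [Prod.fst_neg, Prod.snd_neg] at h1 h2 h3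
  refine ⟨?_, ?_, ?_⟩ <;> linarith

open Classical in
/-- the walk -/
noncomputable def walk (x y : ℝ) (k l : ℤ × ℤ × ℤ) : ℕ → ℤ × ℤ × ℤ
  | 0 => 0
  | j + 1 => walk x y k l j + (if th x y (walk x y k l j) ≤ 0 then k else l)

theorem walk_succ (k l : ℤ × ℤ × ℤ) (j : ℕ) :
    walk x y k l (j + 1) = walk x y k l j + k ∨ walk x y k l (j + 1) = walk x y k l j + l := by
  classical
  simp only [walk]
  split_ifs
  · exact Or.inl rfl
  · exact Or.inr rfl

theorem walk_th {k l : ℤ × ℤ × ℤ} {r : ℝ} (hr : 0 ≤ r) (hk0 : 0 ≤ th x y k)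
    (hk : th x y k ≤ r) (hl0 : th x y l ≤ 0) (hl : -r ≤ th x y l) (j : ℕ) :
    |th x y (walk x y k l j)| ≤ r := by
  classical
  induction j with
  | zero => simp only [walk, th_zero, abs_zero]; exact hr
  | succ j ih =>
    rw [abs_le] at ih ⊢
    simp only [walk]
    split_ifs with h
    · rw [th_add]; constructor <;> linarith [ih.1, ih.2]
    · push Not at h
      rw [th_add]; constructor <;> linarith [ih.1, ih.2]

theorem walk_diff (k l : ℤ × ℤ × ℤ) (i j : ℕ) :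
    ∃ α β : ℕ, α + β = j ∧
      walk x y k l (i + j) = walk x y k l i + ((α : ℤ) • k + (β : ℤ) • l) := by
  induction j with
  | zero => exact ⟨0, 0, rfl, by simp⟩
  | succ j ih =>
    obtain ⟨α, β, h1, h2⟩ := ih
    rcases walk_succ (x := x) (y := y) k l (i + j) with h | h
    · refine ⟨α + 1, β, by omega, ?_⟩
      rw [← add_assoc, h, h2]
      push_cast
      rw [add_smul, one_smul]
      abel
    · refine ⟨α, β + 1, by omega, ?_⟩
      rw [← add_assoc, h, h2]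
      push_cast
      rw [add_smul, one_smul]
      abel

theorem comb_ne_zero {k l : ℤ × ℤ × ℤ} (h : ¬ Par k l) {α β : ℤ}
    (hz : α • k + β • l = 0) : α = 0 ∧ β = 0 := by
  have e1 : α * k.1 + β * l.1 = 0 := by
    have := congrArg Prod.fst hz
    simpa using this
  have e2 : α * k.2.1 + β * l.2.1 = 0 := by
    have := congrArg (fun p : ℤ × ℤ × ℤ => p.2.1) hz
    simpa using this
  have e3 : α * k.2.2 + β * l.2.2 = 0 := by
    have := congrArg (fun p : ℤ × ℤ × ℤ => p.2.2) hz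
    simpa using this
  constructor
  · by_contra hα
    apply h
    refine ⟨?_, ?_, ?_⟩
    · apply mul_left_cancel₀ hα
      linear_combination l.2.1 * e1 - l.1 * e2
    · apply mul_left_cancel₀ hα
      linear_combination l.2.2 * e1 - l.1 * e3
    · apply mul_left_cancel₀ hα
      linear_combination l.2.2 * e2 - l.2.1 * e3
  · by_contra hβ
    apply h
    refine ⟨?_, ?_, ?_⟩
    · apply mul_left_cancel₀ hβ
      linear_combination k.1 * e2 - k.2.1 * e1
    · apply mul_left_cancel₀ hβ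
      linear_combination k.1 * e3 - k.2.2 * e1
    · apply mul_left_cancel₀ hβ
      linear_combination k.2.1 * e3 - k.2.2 * e2

theorem walk_injective {k l : ℤ × ℤ × ℤ} (h : ¬ Par k l) :
    Function.Injective (walk x y k l) := by
  have key : ∀ i j : ℕ, walk x y k l (i + j) = walk x y k l i → j = 0 := by
    intro i j hij
    obtain ⟨α, β, h1, h2⟩ := walk_diff (x := x) (y := y) k l i j
    rw [h2] at hij
    have h3 : (α : ℤ) • k + (β : ℤ) • l = 0 := by
      have := add_left_cancel (hij.trans (add_zero _).symm)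
      exact this
    obtain ⟨h4, h5⟩ := comb_ne_zero h h3
    omega
  intro i j hij
  rcases le_total i j with hle | hle
  · obtain ⟨d, rfl⟩ := Nat.exists_eq_add_of_le hle
    have := key i d hij.symm
    omega
  · obtain ⟨d, rfl⟩ := Nat.exists_eq_add_of_le hle
    have := key j d hij
    omega

/-- Bounded planar parts and bounded `θ` leave only finitely many integer vectors. -/
theorem finite_box (r R : ℝ) :
    {k : ℤ × ℤ × ℤ | |th x y k| ≤ r ∧ |(k.1 : ℝ)| ≤ R ∧ |(k.2.1 : ℝ)| ≤ R}.Finite := by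
  obtain ⟨m, hm⟩ := exists_nat_ge (r + |x| * R + |y| * R + |R|)
  have hfin : (Set.Icc (-(m : ℤ), (-(m : ℤ), -(m : ℤ))) ((m : ℤ), ((m : ℤ), (m : ℤ)))).Finite :=
    Set.finite_Icc _ _
  refine hfin.subset ?_
  rintro ⟨k1, k2, k3⟩ ⟨h1, h2, h3⟩
  simp only at h2 h3
  have hR : 0 ≤ R := le_trans (abs_nonneg _) h2
  have hr : 0 ≤ r := le_trans (abs_nonneg _) h1
  have hxR : 0 ≤ |x| * R := mul_nonneg (abs_nonneg _) hR
  have hyR : 0 ≤ |y| * R := mul_nonneg (abs_nonneg _) hR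
  have hRR : |R| = R := abs_of_nonneg hR
  have b1 : |(k1 : ℝ)| ≤ m := by linarith
  have b2 : |(k2 : ℝ)| ≤ m := by linarith
  have b3 : |(k3 : ℝ)| ≤ m := by
    have e : (k3 : ℝ) = th x y (k1, k2, k3) + (-(x * k1) + -(y * k2)) := by
      simp only [th, theta]; ring
    rw [e]
    refine le_trans (abs_add_le _ _) ?_
    have h5 : |-(x * (k1 : ℝ)) + -(y * k2)| ≤ |x| * R + |y| * R := by
      refine le_trans (abs_add_le _ _) ?_
      rw [abs_neg, abs_neg, abs_mul, abs_mul]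
      exact add_le_add (mul_le_mul_of_nonneg_left h2 (abs_nonneg _))
        (mul_le_mul_of_nonneg_left h3 (abs_nonneg _))
    linarith
  have conv : ∀ k : ℤ, |(k : ℝ)| ≤ m → -(m : ℤ) ≤ k ∧ k ≤ m := by
    intro k hk
    rw [abs_le] at hk
    constructor
    · exact_mod_cast hk.1
    · exact_mod_cast hk.2
  obtain ⟨c1, c1'⟩ := conv k1 b1
  obtain ⟨c2, c2'⟩ := conv k2 b2
  obtain ⟨c3, c3'⟩ := conv k3 b3
  exact ⟨⟨c1, c2, c3⟩, ⟨c1', c2', c3'⟩⟩

/-- The chain of translates along the walk. -/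
theorem half_chain (hG : Nice G L) (hx : |x| ≤ 2) (hy : |y| ≤ 2) {n : ℕ}
    {c : ℝ} {C : Set (ℝ × ℝ)} (hC : IsPreconnected C)
    (hf : ∀ u ∈ C, c + 9 * L / n ≤ sec G x y a u) {k l : ℤ × ℤ × ℤ}
    (hk : Adj C n k) (hl : Adj C n l) (hk0 : 0 ≤ th x y k) (hk1 : th x y k ≤ 5 / n)
    (hl0 : th x y l ≤ 0) (hl1 : -(5 / n) ≤ th x y l) :
    ∃ U : Set (ℝ × ℝ), IsPreconnected U ∧ (∀ u ∈ U, c ≤ sec G x y a u) ∧
      (∀ (j : ℕ), ∀ w ∈ C, (w.1 + ((walk x y k l j).1 : ℝ), w.2 + ((walk x y k l j).2.1 : ℝ)) ∈ U) ∧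
      (∀ u ∈ U, ∃ (j : ℕ) (w : ℝ × ℝ), w ∈ C ∧
        |u.1 - (w.1 + ((walk x y k l j).1 : ℝ))| ≤ 1 / n ∧
        |u.2 - (w.2 + ((walk x y k l j).2.1 : ℝ))| ≤ 1 / n) := by
  have hn0 : (0 : ℝ) ≤ 5 / n := by positivity
  have hn1 : (0 : ℝ) ≤ 1 / n := by positivity
  have hwalk : ∀ j, |th x y (walk x y k l j)| ≤ 5 / n := walk_th hn0 hk0 hk1 hl0 hl1
  -- the translates
  let T : ℕ → Set (ℝ × ℝ) := fun j => (fun u : ℝ × ℝ =>
    (u.1 + (walk x y k l j).1, u.2 + (walk x y k l j).2.1)) '' C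
  have hT : ∀ j, IsPreconnected (T j) := by
    intro j
    refine hC.image _ ?_
    fun_prop
  have hTf : ∀ j, ∀ u ∈ T j, c + 4 * L / n ≤ sec G x y a u := by
    rintro j _ ⟨u, hu, rfl⟩
    have h1 := hf u hu
    have h2 := hG.sec_shift (x := x) (y := y) (a := a) u (walk x y k l j).1
      (walk x y k l j).2.1 (walk x y k l j).2.2
    have h3 : (L : ℝ) * |theta x y (walk x y k l j).1 (walk x y k l j).2.1
        (walk x y k l j).2.2| ≤ L * (5 / n) :=
      mul_le_mul_of_nonneg_left (hwalk j) (Nat.cast_nonneg L)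
    have h4 := (abs_le.mp (h2.trans h3)).1
    have e : (L : ℝ) * (5 / n) = 5 * L / n := by ring
    have e2 : 9 * (L : ℝ) / n = 4 * L / n + 5 * L / n := by ring
    simp only
    linarith
  -- the connecting segments
  have hseg : ∀ j, ∃ p ∈ T j, ∃ q ∈ T (j + 1), |p.1 - q.1| ≤ 1 / n ∧ |p.2 - q.2| ≤ 1 / n := by
    intro j
    have gen : ∀ m : ℤ × ℤ × ℤ, Adj C n m → walk x y k l (j + 1) = walk x y k l j + m →
        ∃ p ∈ T j, ∃ q ∈ T (j + 1), |p.1 - q.1| ≤ 1 / n ∧ |p.2 - q.2| ≤ 1 / n := by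
      rintro m ⟨w, hw, z, hz, h1, h2⟩ hm
      refine ⟨_, ⟨z, hz, rfl⟩, _, ⟨w, hw, rfl⟩, ?_, ?_⟩
      · rw [hm]
        simp only [Prod.fst_add, Int.cast_add]
        rw [abs_sub_comm, show w.1 + ((walk x y k l j).1 + (m.1 : ℝ)) -
          (z.1 + (walk x y k l j).1) = w.1 + m.1 - z.1 by ring]
        exact h1
      · rw [hm]
        simp only [Prod.snd_add, Prod.fst_add, Int.cast_add]
        rw [abs_sub_comm, show w.2 + ((walk x y k l j).2.1 + (m.2.1 : ℝ)) -
          (z.2 + (walk x y k l j).2.1) = w.2 + m.2.1 - z.2 by ring]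
        exact h2
    rcases walk_succ (x := x) (y := y) k l j with h | h
    · exact gen k hk h
    · exact gen l hl h
  choose p hp q hq hpq1 hpq2 using hseg
  let S : ℕ → Set (ℝ × ℝ) := fun j => T j ∪ segment ℝ (p j) (q j)
  have hS : ∀ j, IsPreconnected (S j) := fun j =>
    IsPreconnected.union (p j) (hp j) (left_mem_segment ℝ _ _) (hT j)
      (convex_segment _ _).isPreconnected
  have hchain : IsPreconnected (⋃ j, S j) := by
    refine IsPreconnected.iUnion_of_chain hS ?_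
    intro j
    exact ⟨q j, Or.inr (right_mem_segment ℝ _ _), Or.inl (hq j)⟩
  -- points of the segments are near `p j`
  have hnear : ∀ j, ∀ u ∈ segment ℝ (p j) (q j),
      |u.1 - (p j).1| ≤ 1 / n ∧ |u.2 - (p j).2| ≤ 1 / n := by
    rintro j _ ⟨s, t, hs, ht, hst, rfl⟩
    constructor
    · have e : (s • p j + t • q j).1 - (p j).1 = t * ((q j).1 - (p j).1) := by
        simp only [Prod.fst_add, Prod.smul_fst, smul_eq_mul]
        linear_combination (p j).1 * hst
      rw [e, abs_mul, abs_of_nonneg ht, abs_sub_comm]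
      have := mul_le_of_le_one_left (abs_nonneg ((p j).1 - (q j).1)) (by linarith : t ≤ 1)
      linarith [hpq1 j]
    · have e : (s • p j + t • q j).2 - (p j).2 = t * ((q j).2 - (p j).2) := by
        simp only [Prod.snd_add, Prod.smul_snd, smul_eq_mul]
        linear_combination (p j).2 * hst
      rw [e, abs_mul, abs_of_nonneg ht, abs_sub_comm]
      have := mul_le_of_le_one_left (abs_nonneg ((p j).2 - (q j).2)) (by linarith : t ≤ 1)
      linarith [hpq2 j]
  refine ⟨⋃ j, S j, hchain, ?_, ?_, ?_⟩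
  · -- the level
    intro u hu
    obtain ⟨j, hj⟩ := Set.mem_iUnion.mp hu
    have hpos : (0 : ℝ) ≤ 4 * L / n := by positivity
    rcases hj with hj | hj
    · linarith [hTf j u hj]
    · have h1 := hTf j _ (hp j)
      obtain ⟨h2, h3⟩ := hnear j u hj
      have h4 := hG.sec_lip (a := a) hx hy h2 h3
      have h5 := (abs_le.mp h4).1
      have e : 4 * (L : ℝ) * (1 / n) = 4 * L / n := by ring
      linarith
  · intro j w hw
    exact Set.mem_iUnion.mpr ⟨j, Or.inl ⟨w, hw, rfl⟩⟩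
  · intro u hu
    obtain ⟨j, hj⟩ := Set.mem_iUnion.mp hu
    rcases hj with ⟨w, hw, rfl⟩ | hj
    · exact ⟨j, w, hw, by rw [sub_self, abs_zero]; exact hn1, by rw [sub_self, abs_zero]; exact hn1⟩
    · obtain ⟨w, hw, hwp⟩ := hp j
      obtain ⟨h2, h3⟩ := hnear j u hj
      rw [← hwp] at h2 h3
      exact ⟨j, w, hw, h2, h3⟩

theorem perc_aux (hG : Nice G L) (hx : |x| ≤ 2) (hy : |y| ≤ 2) {n : ℕ}
    {c : ℝ} {C : Set (ℝ × ℝ)} (hC : IsPreconnected C)
    (hf : ∀ u ∈ C, c + 9 * L / n ≤ sec G x y a u) {k l : ℤ × ℤ × ℤ}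
    (hk : Adj C n k) (hl : Adj C n l) (hk0 : 0 ≤ th x y k) (hk1 : th x y k ≤ 5 / n)
    (hl0 : th x y l ≤ 0) (hl1 : -(5 / n) ≤ th x y l) (hkl : ¬ Par k l) :
    Perc G x y c := by
  have hn0 : (0 : ℝ) ≤ 5 / n := by positivity
  have hwalk : ∀ j, |th x y (walk x y k l j)| ≤ 5 / n := walk_th hn0 hk0 hk1 hl0 hl1
  obtain ⟨U, hU, hUf, hUin, -⟩ := half_chain hG hx hy hC hf hk hl hk0 hk1 hl0 hl1
  refine ⟨a, U, hU, ?_, hUf⟩
  -- unbounded
  intro hb
  obtain ⟨w, hw, -⟩ := hk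
  obtain ⟨R, hR⟩ := hb.exists_norm_le
  have hsub : Set.range (walk x y k l) ⊆ {m : ℤ × ℤ × ℤ | |th x y m| ≤ 5 / n ∧
      |(m.1 : ℝ)| ≤ R + ‖w‖ ∧ |(m.2.1 : ℝ)| ≤ R + ‖w‖} := by
    rintro _ ⟨j, rfl⟩
    have h1 := hR _ (hUin j w hw)
    rw [Prod.norm_def] at h1
    have h2 := (le_max_left _ _).trans h1
    have h3 := (le_max_right _ _).trans h1
    simp only [Real.norm_eq_abs] at h2 h3
    have h4 : |w.1| ≤ ‖w‖ := by
      rw [Prod.norm_def]; exact le_max_left _ _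
    have h5 : |w.2| ≤ ‖w‖ := by
      rw [Prod.norm_def]; exact le_max_right _ _
    refine ⟨hwalk j, ?_, ?_⟩
    · have : ((walk x y k l j).1 : ℝ) = (w.1 + (walk x y k l j).1) + -w.1 := by ring
      rw [this]
      refine le_trans (abs_add_le _ _) ?_
      rw [abs_neg]
      linarith
    · have : ((walk x y k l j).2.1 : ℝ) = (w.2 + (walk x y k l j).2.1) + -w.2 := by ring
      rw [this]
      refine le_trans (abs_add_le _ _) ?_
      rw [abs_neg]
      linarith
  exact Set.infinite_range_of_injective (walk_injective hkl) ((finite_box _ _).subset hsub)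

/-- **The walk lemma.** -/
theorem perc_of_two (hG : Nice G L) (hx : |x| ≤ 2) (hy : |y| ≤ 2) {n : ℕ}
    {c : ℝ} {C : Set (ℝ × ℝ)} (hC : IsPreconnected C)
    (hf : ∀ u ∈ C, c + 9 * L / n ≤ sec G x y a u) {k l : ℤ × ℤ × ℤ}
    (hk : Adj C n k) (hl : Adj C n l) (hk1 : |th x y k| ≤ 5 / n)
    (hl1 : |th x y l| ≤ 5 / n) (hkl : ¬ Par k l) :
    Perc G x y c := by
  have hk' : ∃ k', Adj C n k' ∧ 0 ≤ th x y k' ∧ th x y k' ≤ 5 / n ∧ (Par k' l → Par k l) := by
    rcases le_total 0 (th x y k) with h | h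
    · exact ⟨k, hk, h, (abs_le.mp hk1).2, id⟩
    · refine ⟨-k, hk.neg, ?_, ?_, Par.neg_left⟩
      · rw [th_neg]; linarith
      · rw [th_neg]; linarith [(abs_le.mp hk1).1]
  obtain ⟨k', a1, a2, a3, a4⟩ := hk'
  have hl' : ∃ l', Adj C n l' ∧ th x y l' ≤ 0 ∧ -(5 / n) ≤ th x y l' ∧
      (Par k' l' → Par k' l) := by
    rcases le_total 0 (th x y l) with h | h
    · refine ⟨-l, hl.neg, ?_, ?_, Par.neg_right⟩
      · rw [th_neg]; linarith
      · rw [th_neg]; linarith [(abs_le.mp hl1).2]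
    · exact ⟨l, hl, h, (abs_le.mp hl1).1, id⟩
  obtain ⟨l', b1, b2, b3, b4⟩ := hl'
  exact perc_aux hG hx hy hC hf a1 b1 a2 a3 b2 b3 (fun h => hkl (a4 (b4 h)))

end Pool.Agent.Novik
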